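import Pool.Agent.Q176.L2.DvtA
import Pool.Agent.Q297.LC.Dev
import Pool.Agent.Q277.LC.Res
import Pool.Agent.Q277.LC.Dva
import Pool.Agent.Q154.LC.Gdm

/-!
# Project LC2, job L2-DVT: boxes and the torus, for circuits, `d ≥ 2`
-/

set_option autoImplicit false

namespace Pool.Agent.Q176.L2.Dvt

open Finset Equiv Matrix Q292.LC Q295.PL
open Pool.Agent.Q297.LC (PE_sum phz_zero Gd_empty Qb_le Qv_nonneg card_V)
open Pool.Agent.Q176.L2.Tlt (fail_bound2)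

open Classical in
theorem dvt_of (hBTT : S_BTT) (hLMT : S_LMT) (hRES : S_RES) (hDVA : S_DVA) (hPEB : S_PEB)
    (hGDM : S_GDM) : S_DVT := by
  intro d hd
  obtain ⟨C₁, m₁, hC₁, hB⟩ := hBTT d hd
  obtain ⟨CL, mL, hCL, hLm⟩ := hLMT d hd
  obtain ⟨L₀, hL₀⟩ := exists_pars2 d C₁ m₁ CL mL hd hC₁
  refine ⟨3 * (16 * d * (2 * mL + 2 * m₁ + 10)), L₀, fun L K r _ hL hlog hK4 hr16 hKr16 => ?_⟩
  obtain ⟨Z, r₁, y, P⟩ := hL₀ L K hL hlog hK4
  have hd' : (2 : ℝ) ≤ d := by exact_mod_cast hd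
  have hC₁' : (1 : ℝ) ≤ C₁ := by exact_mod_cast hC₁
  have hL3' : (3 : ℝ) ≤ L := by exact_mod_cast P.L3
  have hLpos : 1 ≤ L := by have := P.L3; omega
  have hZ1' : (1 : ℝ) ≤ Z := by exact_mod_cast P.Z1
  have hy1 := P.y1
  have hy0 : 0 < y := by linarith
  have hLd : (0 : ℝ) < (L : ℝ) ^ d := by positivity
  have hLd3 : 3 * (L : ℝ) ≤ (L : ℝ) ^ d := by
    calc 3 * (L : ℝ) ≤ L * (L : ℝ) := by gcongr
      _ = (L : ℝ) ^ 2 := by ring
      _ ≤ (L : ℝ) ^ d := pow_le_pow_right₀ (by linarith) hd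
  have hyLd : y ^ 4 / (L : ℝ) ^ d ≤ 1 / 3 := by
    rw [div_le_div_iff₀ hLd (by norm_num)]
    linarith [P.yL]
  -- the constants
  have h12 : (1 : ℝ) ≤ 12 ^ d := one_le_pow₀ (by norm_num)
  have h34 : (12 : ℝ) ^ d = 3 ^ d * 4 ^ d := by rw [← mul_pow]; norm_num
  have h3d : (1 : ℝ) ≤ 3 ^ d := one_le_pow₀ (by norm_num)
  have h4d : (1 : ℝ) ≤ 4 ^ d := one_le_pow₀ (by norm_num)
  have hbig : ∀ (c : ℝ) (a : ℕ), 0 ≤ c → c ≤ 96 * 12 ^ d * (5 * C₁ + 1) →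
      a ≤ 2 * mL + 2 * m₁ + 9 → c * (Z : ℝ) ^ a ≤ y := by
    intro c a h1 h2 h3
    refine le_trans ?_ P.big
    exact mul_le_mul h2 (pow_le_pow_right₀ hZ1' h3) (by positivity) (by positivity)
  have h5C : (6 : ℝ) ≤ 5 * C₁ + 1 := by linarith
  have c1 : (12 : ℝ) ≤ 96 * 12 ^ d * (5 * C₁ + 1) := by nlinarith
  have c2 : (96 : ℝ) * 4 ^ d ≤ 96 * 12 ^ d * (5 * C₁ + 1) := by
    rw [h34]
    nlinarith [mul_le_mul h3d h4d (by norm_num) (by positivity)]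
  have c3 : (16 : ℝ) ≤ 96 * 12 ^ d * (5 * C₁ + 1) := by nlinarith
  have c4 : (18 : ℝ) * 3 ^ d ≤ 96 * 12 ^ d * (5 * C₁ + 1) := by
    rw [h34]
    nlinarith [mul_le_mul h3d h4d (by norm_num) (by positivity)]
  have c5 : (4 : ℝ) * (5 * C₁ + 1) ≤ 96 * 12 ^ d * (5 * C₁ + 1) := by
    have : (4 : ℝ) ≤ 96 * 12 ^ d := by linarith
    gcongr
  have b1 : 12 * (Z : ℝ) ^ mL ≤ y := hbig 12 mL (by norm_num) c1 (by omega)
  have b2 : 96 * 4 ^ d * (Z : ℝ) ^ (2 * mL) ≤ y := hbig _ _ (by positivity) c2 (by omega)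
  have b3 : 16 * (Z : ℝ) ^ (m₁ + 1) ≤ y := hbig _ _ (by norm_num) c3 (by omega)
  have b4 : 18 * 3 ^ d * (Z : ℝ) ^ (m₁ + 2) ≤ y := hbig _ _ (by positivity) c4 (by omega)
  have b5 : 4 * (5 * (C₁ : ℝ) + 1) ≤ y := by
    have := hbig (4 * (5 * C₁ + 1)) 0 (by positivity) c5 (by omega)
    simpa using this
  have y12 : y ≤ y ^ 2 := le_self_pow₀ hy1 (by norm_num)
  have y13 : y ≤ y ^ 3 := le_self_pow₀ hy1 (by norm_num)
  have y14 : y ≤ y ^ 4 := le_self_pow₀ hy1 (by norm_num)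
  -- sizes of the boxes
  have hK1 : 1 ≤ K := by have := P.K8; omega
  have hr1 : 1 ≤ r := by
    by_contra hcon
    have h0 : r = 0 := by omega
    rw [h0] at hKr16
    have : 0 < K ^ 7 := by positivity
    simp at hKr16
    omega
  have hr₁pos : 1 ≤ r₁ := (Nat.one_le_pow _ _ P.Z1).trans P.Zr
  have hr₁r : r₁ ≤ r := by
    have h1 : (2 * r₁) ^ 16 ≤ (2 * r) ^ 16 := by
      refine le_trans ?_ hKr16
      calc (2 * r₁) ^ 16 = 2 ^ 16 * r₁ ^ 16 := by rw [mul_pow]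
        _ ≤ K ^ 6 * K := by
            refine Nat.mul_le_mul ?_ P.r16
            calc 2 ^ 16 ≤ 8 ^ 6 := by norm_num
              _ ≤ K ^ 6 := Nat.pow_le_pow_left P.K8 6
        _ = K ^ 7 := by ring
    have h2 := le_of_pow_le_pow_left₀ (by norm_num : (16 : ℕ) ≠ 0) (Nat.zero_le _) h1
    omega
  -- the marking parameter
  set w : ℝ := 1 - y ^ 4 / (L : ℝ) ^ d with hw
  have hwh : 1 / 2 ≤ w := by rw [hw]; linarith
  have hw0 : 0 ≤ w := by linarith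
  have hw1 : w < 1 := by
    rw [hw]
    have : 0 < y ^ 4 / (L : ℝ) ^ d := by positivity
    linarith
  have hwL : (L : ℝ) ^ d * (1 - w) = y ^ 4 := by
    rw [hw]; field_simp; ring
  have h1w : 1 / (1 - w) = (L : ℝ) ^ d / y ^ 4 := by
    have : 0 < 1 - w := by linarith
    rw [div_eq_div_iff this.ne' (by positivity), one_mul, hwL]
  clear_value w
  have hKy : (K : ℝ) ^ (-(3 / 8) : ℝ) = 1 / y ^ 6 := by
    rw [← P.y16, ← Real.rpow_natCast y 16, ← Real.rpow_mul hy0.le]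
    rw [show ((16 : ℕ) : ℝ) * (-(3 / 8)) = -((6 : ℕ) : ℝ) by norm_num, Real.rpow_neg hy0.le,
      Real.rpow_natCast, one_div]
  have hKy' : (K : ℝ) ^ (-(1 / 16) : ℝ) = 1 / y := by
    rw [← P.y16, ← Real.rpow_natCast y 16, ← Real.rpow_mul hy0.le]
    rw [show ((16 : ℕ) : ℝ) * (-(1 / 16)) = -1 by norm_num, Real.rpow_neg_one, one_div]
  -- kappa
  set κ : ℝ := (Z : ℝ) ^ m₁ * ((1 + Real.log (1 / (1 - w))) / K + 1 / ((L : ℝ) ^ d * (1 - w)))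
    with hκ
  have hlog0 : 0 ≤ Real.log (1 / (1 - w)) := by
    apply Real.log_nonneg
    have : 0 < 1 - w := by linarith
    rw [le_div_iff₀ this]
    linarith
  have hlogZ : 1 + Real.log (1 / (1 - w)) ≤ Z := by
    refine le_trans ?_ P.LZ
    have h1 : Real.log (1 / (1 - w)) ≤ d * Real.log L := by
      rw [h1w, ← Real.log_pow]
      apply Real.log_le_log (by positivity)
      rw [div_le_iff₀ (by positivity)]
      have : (1 : ℝ) ≤ y ^ 4 := one_le_pow₀ hy1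
      nlinarith
    linarith
  have hκ0 : 0 ≤ κ := by
    rw [hκ, hwL]; positivity
  have hκle : κ ≤ 2 * (Z : ℝ) ^ (m₁ + 1) / y ^ 4 := by
    rw [hκ, hwL, ← P.y16]
    have h1 : (1 + Real.log (1 / (1 - w))) / y ^ 16 ≤ Z / y ^ 4 := by
      have h2 : (1 + Real.log (1 / (1 - w))) / y ^ 16 ≤ Z / y ^ 16 := by gcongr
      have h3 : (Z : ℝ) / y ^ 16 ≤ Z / y ^ 4 :=
        div_le_div_of_nonneg_left (by positivity) (by positivity)
          (pow_le_pow_right₀ hy1 (by norm_num))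
      exact h2.trans h3
    have h4 : 1 / y ^ 4 ≤ Z / y ^ 4 := by gcongr
    calc (Z : ℝ) ^ m₁ * ((1 + Real.log (1 / (1 - w))) / y ^ 16 + 1 / y ^ 4)
        ≤ (Z : ℝ) ^ m₁ * (Z / y ^ 4 + Z / y ^ 4) := by gcongr
      _ = 2 * (Z : ℝ) ^ (m₁ + 1) / y ^ 4 := by rw [pow_succ]; ring
  have hr2 : ((2 * r₁ + 1 : ℕ) : ℝ) ^ d ≤ 3 ^ d * y ^ 2 := by
    have h1 : ((2 * r₁ + 1 : ℕ) : ℝ) ≤ 3 * (r₁ : ℝ) := by
      have h2 : 2 * r₁ + 1 ≤ 3 * r₁ := by omega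
      exact_mod_cast h2
    calc ((2 * r₁ + 1 : ℕ) : ℝ) ^ d ≤ (3 * (r₁ : ℝ)) ^ d := pow_le_pow_left₀ (by positivity) h1 d
      _ = 3 ^ d * (r₁ : ℝ) ^ d := by rw [mul_pow]
      _ ≤ 3 ^ d * y ^ 2 := mul_le_mul_of_nonneg_left P.rd (by positivity)
  have hkey : ((2 * r₁ + 1 : ℕ) : ℝ) ^ d * ((Z + 2) * κ) ≤ Real.exp (-1) := by
    have h1 : ((2 * r₁ + 1 : ℕ) : ℝ) ^ d * ((Z + 2) * κ) ≤
        (3 ^ d * y ^ 2) * ((3 * Z) * (2 * (Z : ℝ) ^ (m₁ + 1) / y ^ 4)) := by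
      refine mul_le_mul hr2 ?_ (by positivity) (by positivity)
      exact mul_le_mul (by linarith) hκle hκ0 (by positivity)
    have h2 : (3 ^ d * y ^ 2) * ((3 * Z) * (2 * (Z : ℝ) ^ (m₁ + 1) / y ^ 4)) =
        6 * 3 ^ d * (Z : ℝ) ^ (m₁ + 2) / y ^ 2 := by
      field_simp; ring
    have h3 : 6 * 3 ^ d * (Z : ℝ) ^ (m₁ + 2) / y ^ 2 ≤ 1 / 3 := by
      rw [div_le_div_iff₀ (by positivity) (by norm_num)]
      linarith
    have h4 : 1 / 3 ≤ Real.exp (-1) := by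
      rw [Real.exp_neg, one_div]
      refine inv_anti₀ (Real.exp_pos 1) ?_
      have := Real.exp_one_lt_d9
      linarith
    linarith
  have hκZ : ((Z : ℝ) + 2) * κ ≤ 1 := by
    have h1 : 1 ≤ ((2 * r₁ + 1 : ℕ) : ℝ) ^ d := one_le_pow₀ (by
      have : 1 ≤ 2 * r₁ + 1 := by omega
      exact_mod_cast this)
    have h2 : Real.exp (-1) ≤ 1 := Real.exp_le_one_iff.2 (by norm_num)
    have h3 : 0 ≤ ((Z : ℝ) + 2) * κ := by positivity
    nlinarith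
  have hrL : (Z + 1) * (2 * r₁ + 1) ^ d ≤ L ^ d := by
    have h1 : ((Z : ℝ) + 1) * ((2 * r₁ + 1 : ℕ) : ℝ) ^ d ≤ (L : ℝ) ^ d := by
      have hZb : 2 * 3 ^ d * (Z : ℝ) ≤ y := by
        refine le_trans ?_ b4
        have e1 : (Z : ℝ) ≤ (Z : ℝ) ^ (m₁ + 2) := le_self_pow₀ hZ1' (by omega)
        have e2 : 0 ≤ (3 : ℝ) ^ d * Z := by positivity
        calc 2 * 3 ^ d * (Z : ℝ) ≤ 18 * 3 ^ d * (Z : ℝ) := by linarith
          _ ≤ 18 * 3 ^ d * (Z : ℝ) ^ (m₁ + 2) := by gcongr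
      calc ((Z : ℝ) + 1) * ((2 * r₁ + 1 : ℕ) : ℝ) ^ d ≤ (2 * Z) * (3 ^ d * y ^ 2) :=
            mul_le_mul (by linarith) hr2 (by positivity) (by positivity)
        _ = (2 * 3 ^ d * Z) * y ^ 2 := by ring
        _ ≤ y * y ^ 2 := mul_le_mul_of_nonneg_right hZb (by positivity)
        _ = y ^ 3 := by ring
        _ ≤ y ^ 4 := pow_le_pow_right₀ hy1 (by norm_num)
        _ ≤ (L : ℝ) := P.yL
        _ ≤ (L : ℝ) ^ d := le_self_pow₀ (by linarith) (by omega)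
    exact_mod_cast h1
  have hLexp : (L : ℝ) ≤ Real.exp Z := by
    have h1 : Real.log L ≤ Z := by
      have h2 := P.LZ
      have h3 : 0 ≤ Real.log L := Real.log_natCast_nonneg L
      nlinarith
    have hLr : (0 : ℝ) < L := by linarith
    rw [← Real.log_le_iff_le_exp hLr]
    exact h1
  obtain ⟨q₁, hq₁⟩ := hB Z P.ZC L K Z r₁ Z ((Z - 1) / 2) le_rfl le_rfl (by have := P.Z1; omega)
    P.Zr P.ZL P.ZK P.KLd
  obtain ⟨q₂, hq₂⟩ := hLm Z P.ZCL L K Z r₁ Z (2 * ((Z - 1) / 2)) r le_rfl le_rfl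
    (by have := P.Z1; omega) hLexp P.ZrL hr₁r P.ZKL hK4 hr16 hKr16
  refine ⟨max (max q₁ q₂) 2, fun q hq σ hσ δ h1 h2 => ?_⟩
  have hq' : (2 : ℝ) ≤ q := by exact_mod_cast (le_max_right _ _).trans hq
  have hqq₁ : q₁ ≤ q := ((le_max_left _ _).trans (le_max_left _ _)).trans hq
  have hqq₂ : q₂ ≤ q := ((le_max_right _ _).trans (le_max_left _ _)).trans hq
  have hδ0 : 0 ≤ δ := by
    by_contra hcon
    push Not at hcon
    nlinarith
  have hδ1 : δ ≤ 1 := by nlinarith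
  set n := K * (q * ms d L) with hn
  have hrL' : r ≤ L := (hq₂ q hqq₂ σ hσ δ h1 h2 (fun _ => false) ∅
    (Gd_empty σ q K Z r₁ Z _ _)).1
  obtain ⟨p1, p2, p3, p4, p5, -⟩ := hPEB _ (ed ∘ σ) n δ w hδ0 hδ1 hw0 hw1
  set B : (ℕ → Bool) → Finset (Fin d → ZMod L) → Prop :=
    fun ω A => Gd σ q K Z r₁ Z (2 * ((Z - 1) / 2)) ω A with hBdef
  set Λ : ℝ := (Z : ℝ) ^ mL * (K : ℝ) ^ (-(3 / 8) : ℝ) with hΛ
  have hΛ0 : 0 ≤ Λ := by rw [hΛ, hKy]; positivity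
  set η' : ℝ := (Z : ℝ) ^ mL / (r₁ : ℝ) ^ d with hη'
  have hr₁r' : (1 : ℝ) ≤ r₁ := by exact_mod_cast hr₁pos
  have hη'0 : 0 ≤ η' := by positivity
  have hη'1 : η' ≤ 1 / 2 := by
    rw [hη', div_le_div_iff₀ (by positivity) (by norm_num)]
    have e1 : 2 * (Z : ℝ) ^ mL ≤ r₁ := by exact_mod_cast P.ZrL
    have e2 : (r₁ : ℝ) ≤ (r₁ : ℝ) ^ d := le_self_pow₀ hr₁r' (by omega)
    linarith
  set S : (Fin d → ZMod L) → (ℕ → Bool) → Finset (Fin d → ZMod L) → ℝ := fun z ω A =>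
    if B ω A then ∑ x ∈ univ \ A, ((∑ y ∈ cyc (gp (ed ∘ σ) ω n) x,
      phz r A z y) / ((cyc (gp (ed ∘ σ) ω n) x).card : ℝ)) ^ 2 else 0
    with hS
  have hSz : ∀ z, PE (ed ∘ σ) n δ w (S z) ≤ (1 - w) * Λ := by
    intro z
    refine hRES _ (ed ∘ σ) n δ w Λ B (fun ω A => phz r A z) hδ0 hδ1 hw0 hw1
      hΛ0 (fun A => (hGDM d L σ q K Z r₁ Z _).1 A) ?_ ?_ ?_
    · intro A ω ω' _
      rfl
    · intro ω A a ha
      exact phz_zero r _ z a ha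
    · intro ω A _ hBA
      exact (hq₂ q hqq₂ σ hσ δ h1 h2 ω A hBA).2.2 z w hwh hw1
  obtain ⟨NB, hNB⟩ : ∃ NB : (ℕ → Bool) → Finset (Fin d → ZMod L) → Prop,
    NB = fun ω A => ¬ B ω A := ⟨_, rfl⟩
  obtain ⟨XB, hXB⟩ : ∃ XB : (Fin d → ZMod L) → (ℕ → Bool) → Finset (Fin d → ZMod L) → Prop,
    XB = fun x ω A => x ∈ A ∧ B ω A := ⟨_, rfl⟩
  have hNB' : ∀ ω A, NB ω A ↔ ¬ B ω A := fun ω A => by rw [hNB]
  have hXB' : ∀ x ω A, XB x ω A ↔ (x ∈ A ∧ B ω A) := fun x ω A => by rw [hXB]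
  -- pointwise inequality
  have hpt : ∀ ω A, Inv (gp (ed ∘ σ) ω n) A →
      Qb r (gp (ed ∘ σ) ω n) - Qv (gp (ed ∘ σ) ω n) ≤
      3 * (∑ z, S z ω A) + (24 * η' ^ 2 + ((2 / (L : ℝ) ^ d) *
        (∑ x : Fin d → ZMod L, (if XB x ω A then (1 : ℝ) else 0)) +
        (if NB ω A then 1 else 0))) := by
    intro ω A hInv
    by_cases hBA : B ω A
    · obtain ⟨-, e1, -⟩ := hq₂ q hqq₂ σ hσ δ h1 h2 ω A hBA
      have e2 := hDVA d L (by omega) (gp (ed ∘ σ) ω n) A A r η' hr1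
        hrL' hInv (Finset.Subset.refl A) hη'0 hη'1 e1
      have e3 : (∑ x : Fin d → ZMod L, (if XB x ω A then (1 : ℝ) else 0)) = A.card := by
        have : ∀ x : Fin d → ZMod L, (if XB x ω A then (1 : ℝ) else 0) =
            if x ∈ A then 1 else 0 := by
          intro x
          by_cases hx : x ∈ A
          · rw [if_pos hx, if_pos ((hXB' x ω A).2 ⟨hx, hBA⟩)]
          · rw [if_neg hx, if_neg (fun hh => hx ((hXB' x ω A).1 hh).1)]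
        simp only [this]
        rw [Finset.sum_ite_mem, Finset.univ_inter, Finset.sum_const, nsmul_eq_mul, mul_one]
      have e4 : ∀ z, S z ω A = ∑ x ∈ univ \ A, ((∑ y ∈ cyc (gp (ed ∘ σ) ω n) x,
          phz r A z y) / ((cyc (gp (ed ∘ σ) ω n) x).card : ℝ)) ^ 2 := by
        intro z
        rw [hS]
        simp only
        rw [if_pos hBA]
      simp only [e4]
      rw [e3, if_neg (fun hh => (hNB' ω A).1 hh hBA), add_zero]
      have e5 : 2 / (L : ℝ) ^ d * (A.card : ℝ) = 2 * A.card / (L : ℝ) ^ d := by ring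
      rw [e5]
      linarith
    · rw [if_pos ((hNB' ω A).2 hBA)]
      have e1 := Qb_le hr1 hrL' (gp (ed ∘ σ) ω n)
      have e2 := Qv_nonneg (gp (ed ∘ σ) ω n)
      have e3 : 0 ≤ ∑ z, S z ω A := by
        refine Finset.sum_nonneg fun z _ => ?_
        rw [hS]
        simp only
        rw [if_neg hBA]
      have e4 : 0 ≤ (∑ x : Fin d → ZMod L, (if XB x ω A then (1 : ℝ) else 0)) :=
        Finset.sum_nonneg fun x _ => by split_ifs <;> norm_num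
      have e5 : 0 ≤ 2 / (L : ℝ) ^ d * (∑ x : Fin d → ZMod L,
        (if XB x ω A then (1 : ℝ) else 0)) := mul_nonneg (by positivity) e4
      have e6 : 0 ≤ 24 * η' ^ 2 := by positivity
      linarith
  have hPE := p4 _ _ hpt
  rw [p1 (fun ω => Qb r (gp (ed ∘ σ) ω n) - Qv (gp (ed ∘ σ) ω n)), p2, p2, p2,
    p3 3 (fun ω A => ∑ z, S z ω A), p3 (2 / (L : ℝ) ^ d) (fun ω A =>
      ∑ x : Fin d → ZMod L, (if XB x ω A then (1 : ℝ) else 0)),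
    p1 (fun _ => 24 * η' ^ 2), Pool.Agent.Q68.LC.EE_const,
    PE_sum hPEB _ _ _ _ hδ0 hδ1 hw0 hw1, PE_sum hPEB _ _ _ _ hδ0 hδ1 hw0 hw1,
    p5 NB] at hPE
  refine hPE.trans ?_
  obtain ⟨b1', b2'⟩ := hq₁ q hqq₁ σ hσ δ h1 h2 w hw0 hw1 κ hκ hκZ
  rw [hKy']
  -- the four terms
  have t1 : 3 * ∑ z, PE (ed ∘ σ) n δ w (S z) ≤ 1 / 4 * (1 / y) := by
    have e1 : ∑ z, PE (ed ∘ σ) n δ w (S z) ≤ (L : ℝ) ^ d * ((1 - w) * Λ) := by
      refine (Finset.sum_le_card_nsmul _ _ _ fun z _ => hSz z).trans ?_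
      rw [card_V, nsmul_eq_mul]
      push_cast
      exact le_rfl
    have e2 : (L : ℝ) ^ d * ((1 - w) * Λ) = y ^ 4 * Λ := by rw [← hwL]; ring
    rw [e2, hΛ, hKy] at e1
    have e3 : y ^ 4 * ((Z : ℝ) ^ mL * (1 / y ^ 6)) = (Z : ℝ) ^ mL / y ^ 2 := by
      field_simp
    rw [e3] at e1
    have e4 : 3 * ((Z : ℝ) ^ mL / y ^ 2) ≤ 1 / 4 * (1 / y) := by
      rw [← mul_div_assoc, ← mul_div_assoc, mul_one, div_le_div_iff₀ (by positivity) hy0]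
      nlinarith
    linarith
  have t2 : 24 * η' ^ 2 ≤ 1 / 4 * (1 / y) := by
    have e1 : η' ≤ 2 ^ d * (Z : ℝ) ^ mL / y ^ 2 := by
      rw [hη', div_le_div_iff₀ (by positivity) (by positivity)]
      calc (Z : ℝ) ^ mL * y ^ 2 ≤ (Z : ℝ) ^ mL * (2 ^ d * (r₁ : ℝ) ^ d) := by
            gcongr
            exact P.rd'
        _ = 2 ^ d * (Z : ℝ) ^ mL * (r₁ : ℝ) ^ d := by ring
    have e2 : η' ^ 2 ≤ (2 ^ d * (Z : ℝ) ^ mL / y ^ 2) ^ 2 := pow_le_pow_left₀ hη'0 e1 2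
    have e3 : (2 ^ d * (Z : ℝ) ^ mL / y ^ 2) ^ 2 = 4 ^ d * (Z : ℝ) ^ (2 * mL) / y ^ 4 := by
      rw [div_pow, mul_pow, ← pow_mul, ← pow_mul, ← pow_mul, Nat.mul_comm d 2, pow_mul,
        Nat.mul_comm mL 2]
      norm_num
    rw [e3] at e2
    have e4 : 24 * (4 ^ d * (Z : ℝ) ^ (2 * mL) / y ^ 4) ≤ 1 / 4 * (1 / y) := by
      rw [← mul_div_assoc, ← mul_div_assoc, mul_one, div_le_div_iff₀ (by positivity) hy0]
      have e5 : 96 * 4 ^ d * (Z : ℝ) ^ (2 * mL) * y ≤ y * y := by gcongr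
      have e6 : y * y ≤ y ^ 4 := by
        have : y * y = y ^ 2 := by ring
        rw [this]
        exact pow_le_pow_right₀ hy1 (by norm_num)
      linarith
    linarith
  have t3 : 2 / (L : ℝ) ^ d * ∑ x : Fin d → ZMod L,
      PE (ed ∘ σ) n δ w (fun ω A => if XB x ω A then (1 : ℝ) else 0) ≤ 1 / 4 * (1 / y) := by
    have e1 : ∑ x : Fin d → ZMod L,
        PE (ed ∘ σ) n δ w (fun ω A => if XB x ω A then (1 : ℝ) else 0) ≤
        (L : ℝ) ^ d * κ := by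
      refine (Finset.sum_le_card_nsmul _ _ κ fun x _ => ?_).trans ?_
      · rw [p5 (XB x), hXB]
        exact b2' x
      · rw [card_V, nsmul_eq_mul]
        push_cast
        exact le_rfl
    have e2 : 2 / (L : ℝ) ^ d * ((L : ℝ) ^ d * κ) = 2 * κ := by field_simp
    have e3 : 2 * κ ≤ 1 / 4 * (1 / y) := by
      have e4 : 2 * (2 * (Z : ℝ) ^ (m₁ + 1) / y ^ 4) ≤ 1 / 4 * (1 / y) := by
        rw [← mul_div_assoc, ← mul_div_assoc, mul_one, div_le_div_iff₀ (by positivity) hy0]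
        have e5 : 16 * (Z : ℝ) ^ (m₁ + 1) * y ≤ y * y := by gcongr
        have e6 : y * y ≤ y ^ 4 := by
          have : y * y = y ^ 2 := by ring
          rw [this]
          exact pow_le_pow_right₀ hy1 (by norm_num)
        linarith
      linarith
    have e6 := mul_le_mul_of_nonneg_left e1 (by positivity : (0 : ℝ) ≤ 2 / (L : ℝ) ^ d)
    linarith
  have t4 : PW (ed ∘ σ) n δ w NB ≤ 1 / 4 * (1 / y) := by
    rw [hNB]
    have hKL : K ≤ L ^ d := P.KLd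
    have e1 := fail_bound2 (d := d) (C₁ := C₁) (D := C₁ * (1 + Nat.log 2 K)) (L := L) (K := K)
      (Z := Z) (r := r₁) (κ := κ) (by omega) hC₁ (Nat.mul_pos hC₁ (by omega)) hLpos P.Zlog hKL
      hrL hκ0 hkey
    refine (b1'.trans e1).trans ?_
    have e2 : y ^ 4 ≤ (L : ℝ) ^ d := P.yL.trans (le_self_pow₀ (by linarith) (by omega))
    have e5 : (5 * (C₁ : ℝ) + 1) * (1 / (L : ℝ) ^ d) ≤ (5 * C₁ + 1) * (1 / y ^ 4) := by
      refine mul_le_mul_of_nonneg_left (one_div_le_one_div_of_le (by positivity) e2)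
        (by positivity)
    have e6 : (5 * (C₁ : ℝ) + 1) * (1 / y ^ 4) ≤ 1 / 4 * (1 / y) := by
      rw [← mul_div_assoc, ← mul_div_assoc, mul_one, mul_one,
        div_le_div_iff₀ (by positivity) hy0]
      have e5 : 4 * (5 * (C₁ : ℝ) + 1) * y ≤ y * y := by gcongr
      have e6 : y * y ≤ y ^ 4 := by
        have : y * y = y ^ 2 := by ring
        rw [this]
        exact pow_le_pow_right₀ hy1 (by norm_num)
      linarith
    linarith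
  linarith

theorem dvt (hBTT : S_BTT) (hLMT : S_LMT) : S_DVT :=
  dvt_of hBTT hLMT Pool.Agent.Q277.LC.res Pool.Agent.Q277.LC.dva Pool.Agent.Q277.LC.peb
    Pool.Agent.Q154.LC.gdm

end Pool.Agent.Q176.L2.Dvt
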