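import Pool.Agent.Q176.L2.Tlt

/-!
# Project LC2, job L2-DVT, part A: parameters
-/

set_option autoImplicit false

namespace Pool.Agent.Q176.L2.Dvt

open Finset Equiv Matrix Q292.LC Q295.PL
open Pool.Agent.Q297.LC (exists_root pow_exp)
open Pool.Agent.Q176.L2.Tlt (div_bound)

/-- all numerical facts about the parameters -/
structure Pars2 (d C₁ m₁ CL mL : ℕ) (L K Z r₁ : ℕ) (y : ℝ) : Prop where
  L3 : 3 ≤ L
  Z1 : 1 ≤ Z
  ZC : C₁ ≤ Z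
  ZCL : CL ≤ Z
  Zlog : 100 * d * ((C₁ * (1 + Nat.log 2 K) : ℕ) : ℝ) * Real.log L ≤ Z
  LZ : 1 + d * Real.log L ≤ Z
  ZL : 8 * Z ^ m₁ ≤ L
  ZK : Z ^ m₁ ≤ K
  ZKL : Z ^ mL ≤ K
  K8 : 8 ≤ K
  KLd : K ≤ L ^ d
  Zr : Z ^ m₁ ≤ r₁
  ZrL : 2 * Z ^ mL ≤ r₁
  r16 : r₁ ^ 16 ≤ K
  y1 : 1 ≤ y
  y16 : y ^ 16 = K
  rd : (r₁ : ℝ) ^ d ≤ y ^ 2
  rd' : y ^ 2 ≤ 2 ^ d * (r₁ : ℝ) ^ d
  yL : y ^ 4 ≤ L
  big : 96 * 12 ^ d * (5 * C₁ + 1) * (Z : ℝ) ^ (2 * mL + 2 * m₁ + 9) ≤ y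

lemma exists_pars2 (d C₁ m₁ CL mL : ℕ) (hd : 2 ≤ d) (hC₁ : 1 ≤ C₁) : ∃ L₀ : ℕ, ∀ L K : ℕ,
    L₀ ≤ L → (Real.log L) ^ (3 * (16 * d * (2 * mL + 2 * m₁ + 10))) ≤ K → K ^ 4 ≤ L ^ 7 →
    ∃ (Z r₁ : ℕ) (y : ℝ), Pars2 d C₁ m₁ CL mL L K Z r₁ y := by
  set P : ℕ := 2 * mL + 2 * m₁ + 10 with hP
  set m₂ : ℕ := 16 * d * P with hm₂
  set C₂ : ℕ := 300 * d ^ 2 * C₁ with hC₂
  set Cst : ℕ := 96 * 12 ^ d * (5 * C₁ + 1) with hCst
  set Z₀ : ℕ := Cst + CL + C₁ + C₂ + 8 with hZ₀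
  refine ⟨⌈Real.exp ((Z₀ : ℝ) + 1)⌉₊ + 3, fun L K hL hlog hK4 => ?_⟩
  have hd' : (2 : ℝ) ≤ d := by exact_mod_cast hd
  have hC₁' : (1 : ℝ) ≤ C₁ := by exact_mod_cast hC₁
  have hL3 : 3 ≤ L := by omega
  have hLpos : 1 ≤ L := by omega
  have hLr1 : (1 : ℝ) ≤ L := by exact_mod_cast hLpos
  have hLr : (0 : ℝ) < L := by linarith
  have hm₂1 : 1 ≤ m₂ := by
    rw [hm₂]
    have : 0 < 16 * d * P := by positivity
    exact this
  set ℓ := Real.log L with hℓ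
  have hℓbig : (Z₀ : ℝ) + 1 ≤ ℓ := by
    have h1 : Real.exp ((Z₀ : ℝ) + 1) ≤ L := by
      have h2 := Nat.le_ceil (Real.exp ((Z₀ : ℝ) + 1))
      have h3 : ((⌈Real.exp ((Z₀ : ℝ) + 1)⌉₊ : ℕ) : ℝ) ≤ L := by
        have : ⌈Real.exp ((Z₀ : ℝ) + 1)⌉₊ ≤ L := by omega
        exact_mod_cast this
      linarith
    have := Real.log_le_log (Real.exp_pos _) h1
    rwa [Real.log_exp] at this
  have hZ₀0 : (0 : ℝ) ≤ Z₀ := Nat.cast_nonneg _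
  have hℓ1 : 1 ≤ ℓ := by linarith
  -- the number Z
  obtain ⟨Z, hZ1, hZ2⟩ := exists_root m₂ K hm₂1
  have hℓZ : ℓ ^ 3 < (Z : ℝ) + 1 := by
    have h1 : (ℓ ^ 3) ^ m₂ < ((Z : ℝ) + 1) ^ m₂ := by
      rw [← pow_mul]
      have h3 : (K : ℝ) < ((Z : ℝ) + 1) ^ m₂ := by exact_mod_cast hZ2
      linarith
    exact lt_of_pow_lt_pow_left₀ m₂ (by positivity) h1
  have hℓ2 : 1 ≤ ℓ ^ 2 := one_le_pow₀ hℓ1
  have hZZ₀ : Z₀ ≤ Z := by
    have h1 : ℓ ≤ ℓ ^ 3 := le_self_pow₀ hℓ1 (by norm_num)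
    have h2 : (Z₀ : ℝ) < Z := by linarith
    exact_mod_cast h2.le
  have hZℓ : (C₂ : ℝ) * ℓ ^ 2 ≤ Z := by
    have h1 : (C₂ : ℝ) + 1 ≤ ℓ := by
      have : C₂ ≤ Z₀ := by omega
      have h2 : (C₂ : ℝ) ≤ Z₀ := by exact_mod_cast this
      linarith
    have h6 : ((C₂ : ℝ) + 1) * ℓ ^ 2 ≤ ℓ * ℓ ^ 2 := by gcongr
    have h7 : ℓ * ℓ ^ 2 = ℓ ^ 3 := by ring
    nlinarith
  have hZpos : 1 ≤ Z := by omega
  have hZ8 : 8 ≤ Z := by omega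
  have hZr : (1 : ℝ) ≤ Z := by exact_mod_cast hZpos
  -- powers
  have hZpow : ∀ a : ℕ, a ≤ m₂ → Z ^ a ≤ K := fun a ha =>
    (Nat.pow_le_pow_right hZpos ha).trans hZ1
  have h16P : 16 * P ≤ m₂ := by
    rw [hm₂]
    have : 16 * P * 1 ≤ 16 * P * d := Nat.mul_le_mul_left _ (by omega)
    calc 16 * P = 16 * P * 1 := by ring
      _ ≤ 16 * P * d := this
      _ = 16 * d * P := by ring
  have hPm : P ≤ m₂ := by omega
  have hK8 : 8 ≤ K := by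
    have h1 : Z ^ 1 ≤ K := hZpow 1 hm₂1
    rw [pow_one] at h1
    omega
  have hK1 : 1 ≤ K := by omega
  have hKr : (1 : ℝ) ≤ K := by exact_mod_cast hK1
  have hKL2 : K ≤ L ^ 2 := by
    have h1 : K ^ 4 ≤ (L ^ 2) ^ 4 := by
      refine hK4.trans ?_
      rw [← pow_mul]
      exact Nat.pow_le_pow_right hLpos (by norm_num)
    exact le_of_pow_le_pow_left₀ (by norm_num) (Nat.zero_le _) h1
  have hKLd : K ≤ L ^ d := hKL2.trans (Nat.pow_le_pow_right hLpos hd)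
  -- the sixteenth root
  set y : ℝ := (K : ℝ) ^ ((1 : ℝ) / 16) with hy
  have hy16 : y ^ 16 = K := by
    rw [hy, ← Real.rpow_natCast, ← Real.rpow_mul (by linarith)]
    norm_num
  have hy0 : 0 ≤ y := Real.rpow_nonneg (by linarith) _
  have hy1 : 1 ≤ y := by
    rw [← pow_le_pow_iff_left₀ (by norm_num) hy0 (show 16 ≠ 0 by norm_num), hy16, one_pow]
    linarith
  clear_value y
  have hyP : (Z : ℝ) ^ P ≤ y := by
    rw [← pow_le_pow_iff_left₀ (by positivity) hy0 (show 16 ≠ 0 by norm_num), hy16, ← pow_mul]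
    have := hZpow (P * 16) (by omega)
    exact_mod_cast this
  have hyL : y ^ 4 ≤ L := by
    have h1 : (y ^ 4) ^ 16 ≤ (L : ℝ) ^ 16 := by
      have h2 : (y ^ 4) ^ 16 = (K : ℝ) ^ 4 := by rw [← hy16]; ring
      rw [h2]
      have h3 : (K : ℝ) ^ 4 ≤ (L : ℝ) ^ 7 := by exact_mod_cast hK4
      exact h3.trans (pow_le_pow_right₀ hLr1 (by norm_num))
    exact (pow_le_pow_iff_left₀ (by positivity) (by positivity) (by norm_num)).1 h1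
  -- the radius
  have h8d : 1 ≤ 8 * d := by omega
  obtain ⟨r₁, hr1, hr2⟩ := exists_root (8 * d) K h8d
  have hrbig : ∀ a : ℕ, a + 1 ≤ P → 2 * Z ^ a ≤ r₁ := by
    intro a ha
    have h1 : (2 * Z ^ a + 1) ^ (8 * d) ≤ K := by
      have h2 : 2 * Z ^ a + 1 ≤ Z ^ (a + 1) := by
        rw [pow_succ]
        have : 1 ≤ Z ^ a := Nat.one_le_pow _ _ hZpos
        nlinarith
      refine (Nat.pow_le_pow_left h2 _).trans ?_
      rw [← pow_mul]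
      apply hZpow
      rw [hm₂]
      calc (a + 1) * (8 * d) ≤ P * (8 * d) := Nat.mul_le_mul_right _ ha
        _ ≤ P * (16 * d) := Nat.mul_le_mul_left _ (by omega)
        _ = 16 * d * P := by ring
    have h3 : (2 * Z ^ a + 1) ^ (8 * d) < (r₁ + 1) ^ (8 * d) := lt_of_le_of_lt h1 hr2
    have h4 := lt_of_pow_lt_pow_left₀ (8 * d) (Nat.zero_le _) h3
    omega
  have hr₁pos : 1 ≤ r₁ := by
    have := hrbig 0 (by omega)
    rw [pow_zero] at this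
    omega
  have hbigR : (Cst : ℝ) * (Z : ℝ) ^ (2 * mL + 2 * m₁ + 9) ≤ y := by
    refine le_trans ?_ hyP
    have h1 : (Cst : ℝ) ≤ Z := by
      have : Cst ≤ Z := by omega
      exact_mod_cast this
    calc (Cst : ℝ) * (Z : ℝ) ^ (2 * mL + 2 * m₁ + 9) ≤ Z * (Z : ℝ) ^ (2 * mL + 2 * m₁ + 9) := by
          gcongr
      _ = (Z : ℝ) ^ P := by
          rw [hP, ← pow_succ']
  refine ⟨Z, r₁, y, ?_⟩
  refine
    { L3 := hL3, Z1 := hZpos, ZC := by omega, ZCL := by omega, Zlog := ?_, LZ := ?_, ZL := ?_,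
      ZK := hZpow _ (by omega), ZKL := hZpow _ (by omega), K8 := hK8, KLd := hKLd,
      Zr := ?_, ZrL := hrbig mL (by omega), r16 := ?_, y1 := hy1, y16 := hy16, rd := ?_,
      rd' := ?_, yL := hyL, big := ?_ }
  · refine le_trans ?_ hZℓ
    have h1 := div_bound (C₁ := C₁) (by omega : 1 ≤ d) hLpos hℓ1 hK1 hKLd
    calc (100 : ℝ) * d * ((C₁ * (1 + Nat.log 2 K) : ℕ) : ℝ) * ℓ
        ≤ 100 * d * (3 * d * C₁ * ℓ) * ℓ := by gcongr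
      _ = C₂ * ℓ ^ 2 := by rw [hC₂]; push_cast; ring
  · refine le_trans ?_ hZℓ
    have h1 : (2 : ℝ) * d ≤ C₂ := by
      rw [hC₂]; push_cast
      have : (0 : ℝ) ≤ d := by linarith
      nlinarith [mul_le_mul hd' hC₁' (by norm_num) this]
    have h2 : (1 : ℝ) ≤ d * ℓ := by nlinarith
    have h3 : ℓ ≤ ℓ ^ 2 := by nlinarith
    have h4 : (d : ℝ) * ℓ ≤ d * ℓ ^ 2 := by gcongr
    have h5 : 2 * (d : ℝ) * ℓ ^ 2 ≤ C₂ * ℓ ^ 2 := by gcongr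
    linarith
  · have h1 : (8 : ℝ) * (Z : ℝ) ^ m₁ ≤ L := by
      calc (8 : ℝ) * (Z : ℝ) ^ m₁ ≤ Z * (Z : ℝ) ^ m₁ := by
            gcongr
            exact_mod_cast hZ8
        _ = (Z : ℝ) ^ (m₁ + 1) := by rw [pow_succ']
        _ ≤ (Z : ℝ) ^ P := pow_le_pow_right₀ hZr (by omega)
        _ ≤ y := hyP
        _ ≤ y ^ 4 := le_self_pow₀ hy1 (by norm_num)
        _ ≤ L := hyL
    exact_mod_cast h1
  · have := hrbig m₁ (by omega)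
    omega
  · refine le_trans (Nat.pow_le_pow_right hr₁pos (by omega)) hr1
  · rw [← pow_le_pow_iff_left₀ (by positivity) (by positivity) (show 8 ≠ 0 by norm_num)]
    have h1 : (y ^ 2) ^ 8 = (K : ℝ) := by rw [← hy16]; ring
    rw [h1, ← pow_mul, Nat.mul_comm]
    exact_mod_cast hr1
  · rw [← mul_pow]
    rw [← pow_le_pow_iff_left₀ (by positivity) (by positivity) (show 8 ≠ 0 by norm_num)]
    have h1 : (y ^ 2) ^ 8 = (K : ℝ) := by rw [← hy16]; ring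
    rw [h1, ← pow_mul, Nat.mul_comm]
    have h2 : (K : ℝ) ≤ ((r₁ : ℝ) + 1) ^ (8 * d) := by exact_mod_cast hr2.le
    refine h2.trans ?_
    have h3 : (r₁ : ℝ) + 1 ≤ 2 * r₁ := by
      have : (1 : ℝ) ≤ r₁ := by exact_mod_cast hr₁pos
      linarith
    gcongr
  · rw [hCst] at hbigR
    push_cast at hbigR
    exact hbigR

end Pool.Agent.Q176.L2.Dvt
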