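import Pool.Agent.Q176.L2.GMCd

/-!
# Project L2M (helper255), job GMC: all mixed moments over all intervals, almost surely
-/

set_option autoImplicit false

namespace Pool.Agent.Q176.L2.GMC

open Filter Topology MeasureTheory Finset
open Pool.Agent.Q255.IC Pool.Agent.Q255.IR Pool.Agent.Q255.EP Pool.Agent.Q255.L2 Pool.Agent.Q65.L2

theorem ph_contx {T y₀ y B : ℝ} {a f : ℕ → ℝ} (b : Bool) (hy₀ : 0 < y₀) (hy : y₀ ≤ y)
    (ha : ∀ n : ℕ, 1 ≤ n → |a n| ≤ B * (n : ℝ) ^ 2) (hf : ∀ n, |f n| ≤ 1) :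
    Continuous fun x => ph b f T a x y := by
  have h1 := Pool.Agent.Q195.L2.ph_cont (T := T) b hy₀ ha hf
  have h2 : Continuous fun x : ℝ => (x, y) := by fun_prop
  rw [← continuousOn_univ] at h2 ⊢
  exact h1.comp h2 fun x _ => hy

/-- the exponents -/
theorem numf (k J q : ℕ) (hk : 1 ≤ k) (B₀ E : ℝ) :
    (k : ℝ) * (B₀ * (2 : ℝ) ^ (1 / (4 * (k : ℝ)) * J)) ^ k * (E * 2 ^ q * (2 : ℝ) ^ (-(J : ℝ))) =
      k * B₀ ^ k * E * 2 ^ q * (2 : ℝ) ^ (-(3 / 4 * (J : ℝ))) ∧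
    (B₀ * (2 : ℝ) ^ (1 / (4 * (k : ℝ)) * J)) ^ k / √((2 : ℝ) ^ J) = B₀ ^ k * (2 : ℝ) ^ (-(1 / 4 * (J : ℝ))) := by
  have hk0 : (k : ℝ) ≠ 0 := by
    have : (0 : ℝ) < k := by exact_mod_cast hk
    exact this.ne'
  have h1 : ((2 : ℝ) ^ (1 / (4 * (k : ℝ)) * J)) ^ k = (2 : ℝ) ^ (1 / 4 * (J : ℝ)) := by
    rw [← Real.rpow_natCast, ← Real.rpow_mul (by norm_num)]
    congr 1
    field_simp
  have h2 : √((2 : ℝ) ^ J) = (2 : ℝ) ^ (1 / 2 * (J : ℝ)) := by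
    rw [Real.sqrt_eq_rpow, ← Real.rpow_natCast, ← Real.rpow_mul (by norm_num), mul_comm (J : ℝ)]
  constructor
  · rw [mul_pow, h1]
    have h3 : (2 : ℝ) ^ (-(3 / 4 * (J : ℝ))) = (2 : ℝ) ^ (1 / 4 * (J : ℝ)) * (2 : ℝ) ^ (-(J : ℝ)) := by
      rw [← Real.rpow_add (by norm_num)]
      congr 1
      ring
    rw [h3]
    ring
  · rw [mul_pow, h1, h2, mul_div_assoc, ← Real.rpow_sub (by norm_num)]
    congr 2
    ring

theorem gmc (hA : S_GMA) (hWC : S_WC) (hKN : S_KN2) (hFou : S_FOU) (hSN : S_SN2) (hK : S_KODE) (hB : S_KBB)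
    (hKW : S_KW) : S_GMC := by
  intro ν _ hν ι T a A hF hC
  filter_upwards [ts_as hA (gmbV hWC hKW hKN) hB ν hν T a A hF hC, hSN ν hν ι T a A hF hC] with ω h1 h2
  intro y₀ y₁ k q hy₀ hy₁ hk
  have hT := hF.1
  have hf := fun n => Pool.Agent.Q13.EP.abs_cm_le ω n
  obtain ⟨M, hM⟩ : ∃ M : ℕ, M = ⌈1 / y₀⌉₊ + 1 := ⟨_, rfl⟩
  have hMc : (M : ℝ) = (⌈1 / y₀⌉₊ : ℝ) + 1 := by
    rw [hM]
    push_cast
    ring
  have hM1 : 1 ≤ M := by omega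
  have hM1' : (1 : ℝ) ≤ M := by exact_mod_cast hM1
  have hce : 1 / y₀ ≤ (⌈1 / y₀⌉₊ : ℝ) := Nat.le_ceil _
  have hce1 : y₁ ≤ (⌈y₁⌉₊ : ℝ) := Nat.le_ceil _
  have hMy : 1 ≤ (M : ℝ) * y₀ := by
    rw [hMc]
    have h3 : 1 / y₀ * y₀ = 1 := by field_simp
    have h4 := mul_le_mul_of_nonneg_right hce hy₀.le
    nlinarith
  obtain ⟨s, hs1, hs2⟩ := Pool.Agent.Q68.L2.exists_scale1 (M : ℝ) hM1'
  have hs1' : M ≤ 2 ^ s := by exact_mod_cast hs1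
  have hs2' : 2 ^ s ≤ 2 * M + 2 := by
    have h3 : 2 ^ s ≤ 2 * M := by exact_mod_cast hs2
    omega
  obtain ⟨n, hn⟩ : ∃ n : ℕ, n = ⌈1 / y₀⌉₊ + ⌈y₁⌉₊ + 1 := ⟨_, rfl⟩
  have hn1 : 1 ≤ n := by omega
  have hnc : (n : ℝ) = (⌈1 / y₀⌉₊ : ℝ) + ⌈y₁⌉₊ + 1 := by
    rw [hn]
    push_cast
    ring
  have hn0 : (0 : ℝ) < n := by exact_mod_cast hn1
  have hny : 1 / (n : ℝ) ≤ y₀ := by
    rw [div_le_iff₀ hn0, hnc]
    have h3 : 1 / y₀ * y₀ = 1 := by field_simp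
    have h4 := mul_le_mul_of_nonneg_right hce hy₀.le
    have h5 : 0 ≤ y₀ * ((⌈y₁⌉₊ : ℝ) + 1) := by positivity
    nlinarith
  have hny1 : y₁ ≤ n := by
    rw [hnc]
    linarith [Nat.cast_nonneg (α := ℝ) ⌈1 / y₀⌉₊]
  obtain ⟨c₁, C₁, hc₁, hC₁, hTS⟩ := h1 n M k q s hn1 hM1 hk hs1' hs2'
  have hk0 : (0 : ℝ) < k := by exact_mod_cast hk
  obtain ⟨C₂, hC₂⟩ := h2 y₀ y₁ hy₀ hy₁ (1 / (4 * (k : ℝ))) (by positivity)
  obtain ⟨C₃, hC₃0, hcoef⟩ := Pool.Agent.Q68.L2.coef_pt hT hC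
  obtain ⟨C₄, hC₄, hfou⟩ := hFou
  obtain ⟨K, hK0, hpe⟩ := poly_exp (c₁ / 2) (by positivity)
  obtain ⟨E, hE⟩ : ∃ E, E = |C₃| * y₀ * St y₀ := ⟨_, rfl⟩
  have hE0 : 0 ≤ E := by
    rw [hE]
    exact mul_nonneg (by positivity) (St_nonneg _)
  obtain ⟨B₀, hB₀⟩ : ∃ B₀, B₀ = |C₂| + E + 1 := ⟨_, rfl⟩
  have hB₀1 : 1 ≤ B₀ := by
    rw [hB₀]
    linarith [abs_nonneg C₂]
  obtain ⟨c, hc⟩ : ∃ c, c = min (1 / 4) (c₁ / 2) := ⟨_, rfl⟩
  have hc0 : 0 < c := by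
    rw [hc]
    exact lt_min (by norm_num) (by positivity)
  have hc4 : c ≤ 1 / 4 := by
    rw [hc]
    exact min_le_left _ _
  have hcc : c ≤ c₁ / 2 := by
    rw [hc]
    exact min_le_right _ _
  refine ⟨c, k * B₀ ^ k * E * 2 ^ q + C₄ * (B₀ ^ k + C₁ * K) + C₁, hc0, by positivity, ?_⟩
  intro J i b y α β hi hy hyy hα hαβ hβ
  rw [← hMc, ← hM]
  have hJ0 : (0 : ℝ) ≤ J := Nat.cast_nonneg J
  have h2J : (1 : ℝ) ≤ 2 ^ J := one_le_pow₀ (by norm_num)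
  obtain ⟨β', hβ'⟩ : ∃ β' : Fin k → ℤ → ℂ, β' = fun j => bt (T (i j)) (a (i j)) (M * T (i j)) (b j) y := ⟨_, rfl⟩
  have hMT : ∀ j, (M : ℝ) * T (i j) ≤ ((2 ^ (J + s) : ℕ) : ℝ) := by
    intro j
    have h3 : ((2 ^ (J + s) : ℕ) : ℝ) = 2 ^ s * 2 ^ J := by
      push_cast
      rw [pow_add]
      ring
    rw [h3]
    exact mul_le_mul hs1 (hi j).1 (by linarith [hT (i j)]) (by positivity)
  have hDBe : DB k (M * 2 ^ J) β' = DB k (2 ^ (J + s)) β' := by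
    symm
    apply DB_supp
    · rw [pow_add, mul_comm]
      exact Nat.mul_le_mul_left _ hs1'
    · intro j m hm
      rw [hβ']
      refine bt_supp ?_ hm
      push_cast
      exact mul_le_mul_of_nonneg_left (hi j).1 (by linarith)
  -- the two products
  obtain ⟨g, hg⟩ : ∃ g : ℝ → ℝ, g = fun x => ∏ j, ph (b j) (cm ω) (T (i j)) (a (i j)) x y := ⟨_, rfl⟩
  obtain ⟨g', hg'⟩ : ∃ g' : ℝ → ℝ, g' = fun x => ∏ j, pt (cm ω) (T (i j)) (a (i j)) (M * T (i j)) (b j) x y := ⟨_, rfl⟩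
  obtain ⟨R, hR⟩ : ∃ R : ℝ, R = B₀ * (2 : ℝ) ^ (1 / (4 * (k : ℝ)) * J) := ⟨_, rfl⟩
  have hPε : (1 : ℝ) ≤ (2 : ℝ) ^ (1 / (4 * (k : ℝ)) * J) := Real.one_le_rpow (by norm_num) (by positivity)
  have hR1 : 1 ≤ R := by
    rw [hR]
    nlinarith
  obtain ⟨D, hD⟩ : ∃ D : ℝ, D = E * 2 ^ q * (2 : ℝ) ^ (-(J : ℝ)) := ⟨_, rfl⟩
  have hD0 : 0 ≤ D := by
    rw [hD]
    positivity
  have hph : ∀ j x, |ph (b j) (cm ω) (T (i j)) (a (i j)) x y| ≤ |C₂| * (2 : ℝ) ^ (1 / (4 * (k : ℝ)) * J) := by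
    intro j x
    have h3 := hC₂ (i j) x y hy hyy
    have h4 : |ph (b j) (cm ω) (T (i j)) (a (i j)) x y| ≤ C₂ * T (i j) ^ (1 / (4 * (k : ℝ))) := by
      unfold ph
      split_ifs
      · exact h3.1
      · exact h3.2
    refine h4.trans ?_
    have h5 : T (i j) ^ (1 / (4 * (k : ℝ))) ≤ (2 : ℝ) ^ (1 / (4 * (k : ℝ)) * J) := by
      rw [mul_comm (1 / (4 * (k : ℝ))), Real.rpow_mul (by norm_num), Real.rpow_natCast]
      exact Real.rpow_le_rpow (by linarith [hT (i j)]) (hi j).1 (by positivity)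
    have hTp : 0 ≤ T (i j) ^ (1 / (4 * (k : ℝ))) := Real.rpow_nonneg (by linarith [hT (i j)]) _
    calc C₂ * T (i j) ^ (1 / (4 * (k : ℝ))) ≤ |C₂| * T (i j) ^ (1 / (4 * (k : ℝ))) :=
          mul_le_mul_of_nonneg_right (le_abs_self _) hTp
      _ ≤ _ := mul_le_mul_of_nonneg_left h5 (abs_nonneg _)
  have htl : ∀ j x, |ph (b j) (cm ω) (T (i j)) (a (i j)) x y - pt (cm ω) (T (i j)) (a (i j)) (M * T (i j)) (b j) x y| ≤
      E * Real.exp (-T (i j)) := by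
    intro j x
    rw [hE]
    exact pt_tail hK (b j) (hT (i j)) hy₀ hy hMy (hcoef (i j)) hf
  have hexp : ∀ j, Real.exp (-T (i j)) ≤ 2 ^ q * (2 : ℝ) ^ (-(J : ℝ)) ∧ Real.exp (-T (i j)) ≤ 1 := by
    intro j
    have hT1 := hT (i j)
    constructor
    · have h3 : T (i j) ≤ Real.exp (T (i j)) := by
        have := Real.add_one_le_exp (T (i j))
        linarith
      rw [Real.exp_neg, ← two_pow_inv, ← div_eq_mul_one_div]
      calc (Real.exp (T (i j)))⁻¹ ≤ (T (i j))⁻¹ := inv_anti₀ (by linarith) h3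
        _ ≤ 2 ^ q / 2 ^ J := by
            rw [inv_eq_one_div, div_le_div_iff₀ (by linarith) (by positivity), one_mul]
            exact (hi j).2
    · rw [Real.exp_le_one_iff]
      linarith
  have hphR : ∀ j x, |ph (b j) (cm ω) (T (i j)) (a (i j)) x y| ≤ R := by
    intro j x
    refine (hph j x).trans ?_
    rw [hR]
    refine mul_le_mul_of_nonneg_right ?_ (by positivity)
    rw [hB₀]
    linarith
  have hptR : ∀ j x, |pt (cm ω) (T (i j)) (a (i j)) (M * T (i j)) (b j) x y| ≤ R := by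
    intro j x
    have h3 := abs_sub_abs_le_abs_sub (pt (cm ω) (T (i j)) (a (i j)) (M * T (i j)) (b j) x y)
      (ph (b j) (cm ω) (T (i j)) (a (i j)) x y)
    rw [abs_sub_comm] at h3
    have h4 := htl j x
    have h5 := mul_le_mul_of_nonneg_left (hexp j).2 hE0
    have h6 := hph j x
    have h7 : |pt (cm ω) (T (i j)) (a (i j)) (M * T (i j)) (b j) x y| ≤
        |C₂| * (2 : ℝ) ^ (1 / (4 * (k : ℝ)) * J) + E := by linarith
    refine h7.trans ?_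
    rw [hR, hB₀]
    nlinarith
  have hdD : ∀ j x, |ph (b j) (cm ω) (T (i j)) (a (i j)) x y - pt (cm ω) (T (i j)) (a (i j)) (M * T (i j)) (b j) x y| ≤ D := by
    intro j x
    refine (htl j x).trans ?_
    rw [hD, mul_assoc]
    exact mul_le_mul_of_nonneg_left (hexp j).1 hE0
  have hgg : ∀ x, |g x - g' x| ≤ k * R ^ k * D := by
    intro x
    rw [hg, hg']
    have h3 := prod_diff (univ : Finset (Fin k)) (fun j => ph (b j) (cm ω) (T (i j)) (a (i j)) x y)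
      (fun j => pt (cm ω) (T (i j)) (a (i j)) (M * T (i j)) (b j) x y) hR1 hD0 (fun j _ => hphR j x)
      (fun j _ => hptR j x) (fun j _ => hdD j x)
    rw [card_univ, Fintype.card_fin] at h3
    exact h3
  have hg'R : ∀ x, |g' x| ≤ R ^ k := by
    intro x
    rw [hg']
    simp only
    rw [abs_prod]
    have h3 : ∏ j : Fin k, |pt (cm ω) (T (i j)) (a (i j)) (M * T (i j)) (b j) x y| ≤ ∏ _j : Fin k, R :=
      prod_le_prod (fun j _ => abs_nonneg _) fun j _ => hptR j x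
    rw [prod_const, card_univ, Fintype.card_fin] at h3
    exact h3
  have hg'c : Continuous g' := by
    rw [hg']
    exact continuous_finsetProd _ fun j _ => pt_cont _ _ _ _ _ _
  have hgc : Continuous g := by
    rw [hg]
    refine continuous_finsetProd _ fun j _ => ?_
    obtain ⟨B, hB'⟩ := Pool.Agent.Q195.L2.coef_bd hC (i j) (hT (i j))
    exact ph_contx (b j) hy₀ hy hB' hf
  -- the Fourier coefficients
  have hgtp : ∀ x, ((g' x : ℝ) : ℂ) = ∏ j, tp (cm ω) (2 ^ (J + s)) (β' j) x := by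
    intro x
    rw [hg', hβ']
    push_cast
    refine prod_congr rfl fun j _ => ?_
    rw [tp_bt _ _ _ _ _ _ _ _ (by have := hT (i j); positivity) (hMT j)]
  have hgint : ∀ h : ℤ, ∫ x in (0 : ℝ)..1, ((g' x : ℝ) : ℂ) * ee (-(h * x)) = TS (cm ω) k (2 ^ (J + s)) h β' := by
    intro h
    rw [← tp_int]
    simp only [hgtp]
  have hTS' := fun h => hTS J i b y h hi (hny.trans hy) (hyy.trans hny1)
  rw [← hβ'] at hTS'
  obtain ⟨δ, hδ⟩ : ∃ δ : ℝ, δ = C₁ * (2 : ℝ) ^ (-(c₁ * J)) := ⟨_, rfl⟩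
  have hδ0 : 0 ≤ δ := by
    rw [hδ]
    positivity
  have hF1 := hfou g' (R ^ k) δ α β (2 ^ J) hg'c hg'R Nat.one_le_two_pow hα hαβ hβ (by
    intro h hh0 hh
    rw [hgint]
    have h3 := hTS' h (by exact_mod_cast hh)
    rw [if_neg hh0, sub_zero, ← hδ] at h3
    exact h3)
  have hF2 : |(∫ x in (0 : ℝ)..1, g' x) - (DB k (2 ^ (J + s)) β').re| ≤ δ := by
    have h3 := hTS' 0 (by rw [abs_zero]; positivity)
    rw [if_pos rfl, ← hδ, ← hgint 0] at h3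
    have h4 : ∫ x in (0 : ℝ)..1, ((g' x : ℝ) : ℂ) * ee (-(((0 : ℤ) : ℝ) * x)) = ((∫ x in (0 : ℝ)..1, g' x : ℝ) : ℂ) := by
      rw [← intervalIntegral.integral_ofReal]
      refine intervalIntegral.integral_congr fun x _ => ?_
      rw [Int.cast_zero, zero_mul, neg_zero, ee_zero, mul_one]
    rw [h4] at h3
    have h5 := Complex.abs_re_le_norm (((∫ x in (0 : ℝ)..1, g' x : ℝ) : ℂ) - DB k (2 ^ (J + s)) β')
    rw [Complex.sub_re, Complex.ofReal_re] at h5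
    exact h5.trans h3
  have hF3 : |(∫ x in α..β, g x) - ∫ x in α..β, g' x| ≤ k * R ^ k * D := by
    rw [← intervalIntegral.integral_sub (hgc.intervalIntegrable _ _) (hg'c.intervalIntegrable _ _)]
    have h3 := intervalIntegral.norm_integral_le_of_norm_le_const (a := α) (b := β) (f := fun x => g x - g' x)
      (C := k * R ^ k * D) fun x _ => hgg x
    rw [abs_of_nonneg (by linarith : 0 ≤ β - α)] at h3
    have h4 : 0 ≤ k * R ^ k * D := by positivity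
    calc |∫ x in α..β, (g x - g' x)| ≤ k * R ^ k * D * (β - α) := h3
      _ ≤ k * R ^ k * D * 1 := mul_le_mul_of_nonneg_left (by linarith) h4
      _ = _ := mul_one _
  -- the numbers
  obtain ⟨hn3, hn4⟩ := numf k J q hk B₀ E
  rw [← hR, ← hD] at hn3
  rw [← hR] at hn4
  rw [hn3] at hF3
  have hsq : (((2 ^ J : ℕ) : ℝ)) = (2 : ℝ) ^ J := by push_cast; ring
  rw [hsq, hn4] at hF1
  have hP0 : (0 : ℝ) < 2 ^ (-(c * J)) := by positivity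
  have hcJ := mul_le_mul_of_nonneg_right hc4 hJ0
  have hcJ' := mul_le_mul_of_nonneg_right hcc hJ0
  have hq1 : (2 : ℝ) ^ (-(3 / 4 * (J : ℝ))) ≤ 2 ^ (-(c * J)) := two_rpow_le (by linarith)
  have hq2 : (2 : ℝ) ^ (-(1 / 4 * (J : ℝ))) ≤ 2 ^ (-(c * J)) := two_rpow_le (by linarith)
  have hc1J : 0 ≤ c₁ * J := by positivity
  have hq3 : (2 : ℝ) ^ (-(c₁ * J)) ≤ 2 ^ (-(c * J)) := two_rpow_le (by linarith)
  have hlog : δ * (1 + Real.log ((2 : ℝ) ^ J)) ≤ C₁ * K * 2 ^ (-(c * J)) := by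
    have h3 : 1 + Real.log ((2 : ℝ) ^ J) ≤ ((J : ℝ) + 1) ^ 2 := by
      rw [Real.log_pow]
      have h4 : Real.log 2 ≤ 1 := by
        have := Real.log_two_lt_d9
        linarith
      have h5 := mul_le_mul_of_nonneg_left h4 hJ0
      nlinarith
    have h6 : δ * (1 + Real.log ((2 : ℝ) ^ J)) ≤ δ * (K * (2 : ℝ) ^ (c₁ / 2 * J)) :=
      mul_le_mul_of_nonneg_left (h3.trans (hpe J)) hδ0
    refine h6.trans ?_
    rw [hδ]
    have h7 : C₁ * (2 : ℝ) ^ (-(c₁ * J)) * (K * (2 : ℝ) ^ (c₁ / 2 * J)) =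
        C₁ * K * (2 : ℝ) ^ (-(c₁ / 2 * J)) := by
      have h8 : (2 : ℝ) ^ (-(c₁ / 2 * J)) = (2 : ℝ) ^ (-(c₁ * J)) * (2 : ℝ) ^ (c₁ / 2 * J) := by
        rw [← Real.rpow_add (by norm_num)]
        congr 1
        ring
      rw [h8]
      ring
    rw [h7]
    exact mul_le_mul_of_nonneg_left (two_rpow_le (by linarith)) (by positivity)
  have hδ' : δ ≤ C₁ * 2 ^ (-(c * J)) := by
    rw [hδ]
    exact mul_le_mul_of_nonneg_left hq3 hC₁
  have hF4 : |(β - α) * ((∫ x in (0 : ℝ)..1, g' x) - (DB k (2 ^ (J + s)) β').re)| ≤ δ := by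
    rw [abs_mul, abs_of_nonneg (by linarith : 0 ≤ β - α)]
    calc (β - α) * |(∫ x in (0 : ℝ)..1, g' x) - (DB k (2 ^ (J + s)) β').re| ≤ 1 * δ :=
          mul_le_mul (by linarith) hF2 (abs_nonneg _) zero_le_one
      _ = δ := one_mul _
  have hfin : (∫ x in α..β, g x) - (β - α) * (DB k (2 ^ (J + s)) β').re =
      ((∫ x in α..β, g x) - ∫ x in α..β, g' x) + ((∫ x in α..β, g' x) - (β - α) * ∫ x in (0 : ℝ)..1, g' x) +
        (β - α) * ((∫ x in (0 : ℝ)..1, g' x) - (DB k (2 ^ (J + s)) β').re) := by ring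
  have hgoal : |(∫ x in α..β, g x) - (β - α) * (DB k (2 ^ (J + s)) β').re| ≤
      (k * B₀ ^ k * E * 2 ^ q + C₄ * (B₀ ^ k + C₁ * K) + C₁) * 2 ^ (-(c * J)) := by
    rw [hfin]
    refine (abs_add_three _ _ _).trans ?_
    have h3 : (k : ℝ) * B₀ ^ k * E * 2 ^ q * (2 : ℝ) ^ (-(3 / 4 * (J : ℝ))) ≤ k * B₀ ^ k * E * 2 ^ q * 2 ^ (-(c * J)) :=
      mul_le_mul_of_nonneg_left hq1 (by positivity)
    have h4 : C₄ * (B₀ ^ k * (2 : ℝ) ^ (-(1 / 4 * (J : ℝ))) + δ * (1 + Real.log ((2 : ℝ) ^ J))) ≤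
        C₄ * (B₀ ^ k * 2 ^ (-(c * J)) + C₁ * K * 2 ^ (-(c * J))) :=
      mul_le_mul_of_nonneg_left (add_le_add (mul_le_mul_of_nonneg_left hq2 (by positivity)) hlog) hC₄
    have h5 : (k * B₀ ^ k * E * 2 ^ q + C₄ * (B₀ ^ k + C₁ * K) + C₁) * (2 : ℝ) ^ (-(c * J)) =
        k * B₀ ^ k * E * 2 ^ q * 2 ^ (-(c * J)) + C₄ * (B₀ ^ k * 2 ^ (-(c * J)) + C₁ * K * 2 ^ (-(c * J))) +
          C₁ * 2 ^ (-(c * J)) := by ring
    rw [h5]
    linarith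
  rw [← hDBe] at hgoal
  rw [hg, hβ'] at hgoal
  exact hgoal

end Pool.Agent.Q176.L2.GMC
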