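import Pool.Agent.Q65.L2.Fou
import Pool.Agent.Q195.L2.GME
import Pool.Agent.Q68.L2.SN2

/-!
# Project L2M (helper255), job GMC, part 2: products of trigonometric polynomials
-/

set_option autoImplicit false

namespace Pool.Agent.Q176.L2.GMC

open Filter Topology MeasureTheory Finset
open Pool.Agent.Q255.IC Pool.Agent.Q255.IR Pool.Agent.Q255.EP Pool.Agent.Q255.L2 Pool.Agent.Q65.L2
open Pool.Agent.Q65.L2.Fou

/-- the trigonometric polynomial with the coefficients `β χ` -/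
noncomputable def tp (χ : ℕ → ℝ) (X : ℕ) (β : ℤ → ℂ) (x : ℝ) : ℂ :=
  ∑ m ∈ Bx X, (β m * (χ m.natAbs : ℂ)) * ee (m * x)

theorem ee_zero : ee 0 = 1 := by
  have := ee_int 0
  rwa [Int.cast_zero] at this

theorem ee_prod {κ : Type} (s : Finset κ) (f : κ → ℝ) : ∏ j ∈ s, ee (f j) = ee (∑ j ∈ s, f j) := by
  classical
  induction s using Finset.induction_on with
  | empty => rw [prod_empty, sum_empty, ee_zero]
  | insert a s ha ih => rw [prod_insert ha, sum_insert ha, ee_add, ih]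

theorem tp_prod (χ : ℕ → ℝ) (k X : ℕ) (β : Fin k → ℤ → ℂ) (x : ℝ) :
    ∏ j, tp χ X (β j) x = ∑ m ∈ Fintype.piFinset (fun _ : Fin k => Bx X),
      (∏ j, (β j (m j) * (χ (m j).natAbs : ℂ))) * ee (((∑ j, m j : ℤ) : ℝ) * x) := by
  classical
  unfold tp
  rw [Finset.prod_univ_sum]
  refine sum_congr rfl fun m _ => ?_
  rw [prod_mul_distrib, ee_prod]
  congr 2
  push_cast
  rw [sum_mul]

theorem tp_int (χ : ℕ → ℝ) (k X : ℕ) (β : Fin k → ℤ → ℂ) (h : ℤ) :
    ∫ x in (0 : ℝ)..1, (∏ j, tp χ X (β j) x) * ee (-(h * x)) = TS χ k X h β := by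
  classical
  have h1 : ∀ x : ℝ, (∏ j, tp χ X (β j) x) * ee (-(h * x)) =
      ∑ m ∈ Fintype.piFinset (fun _ : Fin k => Bx X),
        (∏ j, (β j (m j) * (χ (m j).natAbs : ℂ))) *
          (ee (((-h : ℤ) : ℝ) * x) * ee (((∑ j, m j : ℤ) : ℝ) * x)) := by
    intro x
    rw [tp_prod, sum_mul]
    refine sum_congr rfl fun m _ => ?_
    have h2 : -((h : ℝ) * x) = ((-h : ℤ) : ℝ) * x := by
      push_cast
      ring
    rw [h2]
    ring
  simp only [h1]
  rw [intervalIntegral.integral_finsetSum]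
  · unfold TS
    rw [sum_filter]
    refine sum_congr rfl fun m _ => ?_
    rw [intervalIntegral.integral_const_mul, int_ee_mul]
    by_cases hm : ∑ j, m j = h
    · rw [if_pos hm, if_pos hm, mul_one]
    · rw [if_neg hm, if_neg hm, mul_zero]
  · intro m _
    refine Continuous.intervalIntegrable ?_ _ _
    exact continuous_const.mul ((ee_cont.comp (continuous_const.mul continuous_id)).mul
      (ee_cont.comp (continuous_const.mul continuous_id)))

theorem tp_cont (χ : ℕ → ℝ) (X : ℕ) (β : ℤ → ℂ) : Continuous (tp χ X β) := by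
  unfold tp
  refine continuous_finsetSum _ fun m _ => continuous_const.mul ?_
  exact ee_cont.comp (continuous_const.mul continuous_id)

theorem mem_Bx {X : ℕ} {m : ℤ} : m ∈ Bx X ↔ m ≠ 0 ∧ m.natAbs ≤ X := by
  unfold Bx
  rw [mem_erase, mem_Icc]
  constructor
  · rintro ⟨h1, h2, h3⟩
    exact ⟨h1, by omega⟩
  · rintro ⟨h1, h2⟩
    exact ⟨h1, by omega, by omega⟩

theorem card_Bx (X : ℕ) : (Bx X).card = 2 * X := by
  unfold Bx
  rw [card_erase_of_mem (by rw [mem_Icc]; omega), Int.card_Icc]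
  omega

/-- `DB` does not depend on the cut-off -/
theorem DB_supp (k : ℕ) {X X' : ℕ} (hX : X ≤ X') (β : Fin k → ℤ → ℂ)
    (hβ : ∀ j m, m ∉ Bx X → β j m = 0) : DB k X' β = DB k X β := by
  classical
  unfold DB
  symm
  refine sum_subset ?_ ?_
  · intro m hm
    rw [mem_filter, Fintype.mem_piFinset] at hm ⊢
    refine ⟨fun j => ?_, hm.2⟩
    have := mem_Bx.1 (hm.1 j)
    exact mem_Bx.2 ⟨this.1, this.2.trans hX⟩
  · intro m hm hm'
    rw [mem_filter, Fintype.mem_piFinset] at hm hm'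
    have h1 : ∃ j, m j ∉ Bx X := by
      by_contra hcon
      push Not at hcon
      exact hm' ⟨hcon, hm.2⟩
    obtain ⟨j, hj⟩ := h1
    exact prod_eq_zero (mem_univ j) (hβ j _ hj)

/-- differences of products -/
theorem prod_diff {𝕜 : Type} [NormedField 𝕜] {κ : Type} (s : Finset κ) (u v : κ → 𝕜) {B D : ℝ} (hB : 1 ≤ B)
    (hD : 0 ≤ D) (hu : ∀ j ∈ s, ‖u j‖ ≤ B) (hv : ∀ j ∈ s, ‖v j‖ ≤ B) (huv : ∀ j ∈ s, ‖u j - v j‖ ≤ D) :
    ‖∏ j ∈ s, u j - ∏ j ∈ s, v j‖ ≤ s.card * B ^ s.card * D := by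
  classical
  induction s using Finset.induction_on with
  | empty => simp
  | insert a s ha ih =>
    have h1 := ih (fun j hj => hu j (mem_insert_of_mem hj)) (fun j hj => hv j (mem_insert_of_mem hj))
      (fun j hj => huv j (mem_insert_of_mem hj))
    rw [prod_insert ha, prod_insert ha, card_insert_of_notMem ha]
    have h2 : u a * ∏ j ∈ s, u j - v a * ∏ j ∈ s, v j =
        (u a - v a) * ∏ j ∈ s, u j + v a * (∏ j ∈ s, u j - ∏ j ∈ s, v j) := by ring
    have h3 : ‖∏ j ∈ s, u j‖ ≤ B ^ s.card := by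
      rw [norm_prod, ← prod_const]
      exact prod_le_prod (fun j _ => norm_nonneg _) fun j hj => hu j (mem_insert_of_mem hj)
    rw [h2]
    refine (norm_add_le _ _).trans ?_
    rw [norm_mul, norm_mul]
    have h4 : ‖u a - v a‖ * ‖∏ j ∈ s, u j‖ ≤ D * B ^ s.card :=
      mul_le_mul (huv a (mem_insert_self _ _)) h3 (norm_nonneg _) hD
    have h5 : ‖v a‖ * ‖∏ j ∈ s, u j - ∏ j ∈ s, v j‖ ≤ B * (s.card * B ^ s.card * D) :=
      mul_le_mul (hv a (mem_insert_self _ _)) h1 (norm_nonneg _) (by linarith)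
    have h6 : B ^ s.card ≤ B ^ (s.card + 1) := pow_le_pow_right₀ hB (Nat.le_succ _)
    have h7 : D * B ^ s.card ≤ D * B ^ (s.card + 1) := mul_le_mul_of_nonneg_left h6 hD
    have h8 : B * (s.card * B ^ s.card * D) = s.card * B ^ (s.card + 1) * D := by ring
    push_cast
    nlinarith

theorem card_pi (k X : ℕ) : ((Fintype.piFinset fun _ : Fin k => Bx X).card : ℝ) = (2 * (X : ℝ)) ^ k := by
  rw [Fintype.card_piFinset_const, card_Bx]
  push_cast
  rfl

/-- differences of `TS` -/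
theorem TS_diff {χ : ℕ → ℝ} (hχ : ∀ n, |χ n| ≤ 1) (k X : ℕ) (h : ℤ) (β β' : Fin k → ℤ → ℂ) {B D : ℝ}
    (hB : 1 ≤ B) (hD : 0 ≤ D) (h1 : ∀ j, ∀ m ∈ Bx X, ‖β j m‖ ≤ B) (h2 : ∀ j, ∀ m ∈ Bx X, ‖β' j m‖ ≤ B)
    (h3 : ∀ j, ∀ m ∈ Bx X, ‖β j m - β' j m‖ ≤ D) :
    ‖TS χ k X h β - TS χ k X h β'‖ ≤ (2 * (X : ℝ)) ^ k * (k * B ^ k * D) := by
  classical
  unfold TS
  rw [← sum_sub_distrib]
  refine (norm_sum_le _ _).trans ?_
  have h4 : ∀ m ∈ (Fintype.piFinset fun _ : Fin k => Bx X).filter (fun m => ∑ j, m j = h),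
      ‖∏ j, (β j (m j) * (χ (m j).natAbs : ℂ)) - ∏ j, (β' j (m j) * (χ (m j).natAbs : ℂ))‖ ≤ k * B ^ k * D := by
    intro m hm
    rw [mem_filter, Fintype.mem_piFinset] at hm
    have hc : ∀ n : ℕ, ‖(χ n : ℂ)‖ ≤ 1 := fun n => by
      rw [Complex.norm_real]
      exact hχ n
    have h5 := prod_diff (univ : Finset (Fin k)) (fun j => β j (m j) * (χ (m j).natAbs : ℂ))
      (fun j => β' j (m j) * (χ (m j).natAbs : ℂ)) hB hD
      (fun j _ => by
        show ‖β j (m j) * (χ (m j).natAbs : ℂ)‖ ≤ B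
        rw [norm_mul]
        have := mul_le_mul (h1 j _ (hm.1 j)) (hc (m j).natAbs) (norm_nonneg _) (by linarith)
        linarith)
      (fun j _ => by
        show ‖β' j (m j) * (χ (m j).natAbs : ℂ)‖ ≤ B
        rw [norm_mul]
        have := mul_le_mul (h2 j _ (hm.1 j)) (hc (m j).natAbs) (norm_nonneg _) (by linarith)
        linarith)
      (fun j _ => by
        show ‖β j (m j) * (χ (m j).natAbs : ℂ) - β' j (m j) * (χ (m j).natAbs : ℂ)‖ ≤ D
        rw [← sub_mul, norm_mul]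
        have := mul_le_mul (h3 j _ (hm.1 j)) (hc (m j).natAbs) (norm_nonneg _) hD
        linarith)
    rwa [card_univ, Fintype.card_fin] at h5
  refine (sum_le_sum h4).trans ?_
  rw [sum_const, nsmul_eq_mul, ← card_pi]
  refine mul_le_mul_of_nonneg_right ?_ (by positivity)
  exact_mod_cast card_filter_le _ _

/-- differences of `DB` -/
theorem DB_diff (k X : ℕ) (β β' : Fin k → ℤ → ℂ) {B D : ℝ}
    (hB : 1 ≤ B) (hD : 0 ≤ D) (h1 : ∀ j, ∀ m ∈ Bx X, ‖β j m‖ ≤ B) (h2 : ∀ j, ∀ m ∈ Bx X, ‖β' j m‖ ≤ B)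
    (h3 : ∀ j, ∀ m ∈ Bx X, ‖β j m - β' j m‖ ≤ D) :
    ‖DB k X β - DB k X β'‖ ≤ (2 * (X : ℝ)) ^ k * (k * B ^ k * D) := by
  classical
  unfold DB
  rw [← sum_sub_distrib]
  refine (norm_sum_le _ _).trans ?_
  have h4 : ∀ m ∈ (Fintype.piFinset fun _ : Fin k => Bx X).filter BalZ,
      ‖∏ j, β j (m j) - ∏ j, β' j (m j)‖ ≤ k * B ^ k * D := by
    intro m hm
    rw [mem_filter, Fintype.mem_piFinset] at hm
    have h5 := prod_diff (univ : Finset (Fin k)) (fun j => β j (m j)) (fun j => β' j (m j)) hB hD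
      (fun j _ => h1 j _ (hm.1 j)) (fun j _ => h2 j _ (hm.1 j)) (fun j _ => h3 j _ (hm.1 j))
    rwa [card_univ, Fintype.card_fin] at h5
  refine (sum_le_sum h4).trans ?_
  rw [sum_const, nsmul_eq_mul, ← card_pi]
  refine mul_le_mul_of_nonneg_right ?_ (by positivity)
  exact_mod_cast card_filter_le _ _

/-! ## The coefficients -/

/-- the sign or `1` -/
noncomputable def un (b : Bool) (m : ℤ) : ℂ := if b then 1 else -Complex.I * (m.sign : ℂ)

theorem un_norm (b : Bool) (m : ℤ) : ‖un b m‖ ≤ 1 := by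
  unfold un
  cases b
  · rw [if_neg (by simp), norm_mul, norm_neg, Complex.norm_I, one_mul]
    rcases Int.sign_trichotomy m with h | h | h <;> rw [h] <;> simp
  · simp

theorem bt_eq (T : ℝ) (a : ℕ → ℝ) (M : ℝ) (b : Bool) (y : ℝ) (m : ℤ) :
    bt T a M b y m = if m ≠ 0 ∧ (m.natAbs : ℝ) ≤ M then ((tm T a true 0 y m.natAbs / 2 : ℝ) : ℂ) * un b m else 0 := by
  unfold bt un
  by_cases h : m ≠ 0 ∧ (m.natAbs : ℝ) ≤ M
  · rw [if_pos h, if_pos h]
    congr 2
    unfold tm sh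
    rw [if_pos rfl, mul_zero, sub_zero, Real.cos_zero]
    ring
  · rw [if_neg h, if_neg h]

theorem bt_supp {T : ℝ} {a : ℕ → ℝ} {M : ℝ} {b : Bool} {y : ℝ} {X : ℕ} (hX : M ≤ X) {m : ℤ} (hm : m ∉ Bx X) :
    bt T a M b y m = 0 := by
  rw [bt_eq, if_neg]
  rintro ⟨h1, h2⟩
  apply hm
  rw [mem_Bx]
  refine ⟨h1, ?_⟩
  exact_mod_cast h2.trans hX

/-- sums over `Bx` -/
theorem sum_Bx (f : ℤ → ℂ) (X : ℕ) : ∑ m ∈ Bx X, f m = ∑ n ∈ Icc 1 X, (f n + f (-n)) := by
  induction X with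
  | zero =>
    have : Bx 0 = ∅ := by
      rw [← card_eq_zero, card_Bx]
    rw [this]
    simp
  | succ X ih =>
    have h1 : Bx (X + 1) = insert ((X : ℤ) + 1) (insert (-((X : ℤ) + 1)) (Bx X)) := by
      ext m
      rw [mem_insert, mem_insert, mem_Bx, mem_Bx]
      omega
    rw [h1, sum_insert, sum_insert, ih, sum_Icc_succ_top (by omega)]
    · push_cast
      ring
    · rw [mem_Bx]
      omega
    · rw [mem_insert, mem_Bx]
      omega

theorem ee_cos (u : ℝ) : ee u + ee (-u) = ((2 * Real.cos (2 * Real.pi * u) : ℝ) : ℂ) := by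
  unfold ee
  push_cast
  rw [Complex.cos]
  ring_nf

theorem ee_sin (u : ℝ) : -Complex.I * ee u + Complex.I * ee (-u) = ((2 * Real.sin (2 * Real.pi * u) : ℝ) : ℂ) := by
  unfold ee
  push_cast
  rw [Complex.sin]
  ring_nf

/-- the truncated expansion -/
noncomputable def pt (f : ℕ → ℝ) (T : ℝ) (a : ℕ → ℝ) (M : ℝ) (b : Bool) (x y : ℝ) : ℝ :=
  ∑ n ∈ Icc 1 ⌊M⌋₊, tm T a b x y n * f n

theorem tm_pair (T : ℝ) (a : ℕ → ℝ) (b : Bool) (x y : ℝ) (n : ℕ) (hn : 1 ≤ n) :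
    ((tm T a true 0 y n / 2 : ℝ) : ℂ) * un b n * ee (n * x) +
      ((tm T a true 0 y n / 2 : ℝ) : ℂ) * un b (-n) * ee (-(n * x)) = ((tm T a b x y n : ℝ) : ℂ) := by
  have hs : ((n : ℤ).sign) = 1 := Int.sign_eq_one_of_pos (by omega)
  have h0 : tm T a true 0 y n = Real.exp (Real.pi * T / 2) * √y * (a n * KB T (2 * Real.pi * n * y)) := by
    unfold tm sh
    rw [if_pos rfl, mul_zero, sub_zero, Real.cos_zero]
    ring
  have h1 : tm T a b x y n = tm T a true 0 y n * Real.cos (2 * Real.pi * n * x - sh b) := by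
    rw [h0]
    unfold tm
    ring
  rw [h1]
  cases b
  · unfold un
    rw [if_neg (by simp), if_neg (by simp), Int.sign_neg, hs]
    have h2 := ee_sin ((n : ℝ) * x)
    have h3 : Real.cos (2 * Real.pi * n * x - sh false) = Real.sin (2 * Real.pi * (n * x)) := by
      unfold sh
      rw [if_neg (by simp), Real.cos_sub_pi_div_two]
      congr 1
      ring
    rw [h3]
    have h4 : ((tm T a true 0 y n * Real.sin (2 * Real.pi * (n * x)) : ℝ) : ℂ) =
        ((tm T a true 0 y n / 2 : ℝ) : ℂ) * ((2 * Real.sin (2 * Real.pi * (n * x)) : ℝ) : ℂ) := by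
      push_cast
      ring
    rw [h4, ← h2]
    push_cast
    ring
  · unfold un
    rw [if_pos rfl, if_pos rfl]
    have h2 := ee_cos ((n : ℝ) * x)
    have h3 : Real.cos (2 * Real.pi * n * x - sh true) = Real.cos (2 * Real.pi * (n * x)) := by
      unfold sh
      rw [if_pos rfl, sub_zero]
      congr 1
      ring
    rw [h3]
    have h4 : ((tm T a true 0 y n * Real.cos (2 * Real.pi * (n * x)) : ℝ) : ℂ) =
        ((tm T a true 0 y n / 2 : ℝ) : ℂ) * ((2 * Real.cos (2 * Real.pi * (n * x)) : ℝ) : ℂ) := by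
      push_cast
      ring
    rw [h4, ← h2]
    ring

/-- the truncated expansion as a trigonometric polynomial -/
theorem tp_bt (f : ℕ → ℝ) (T : ℝ) (a : ℕ → ℝ) (M : ℝ) (b : Bool) (x y : ℝ) (X : ℕ) (hM : 0 ≤ M) (hX : M ≤ X) :
    tp f X (bt T a M b y) x = ((pt f T a M b x y : ℝ) : ℂ) := by
  unfold tp pt
  rw [sum_Bx]
  have h1 : Icc 1 ⌊M⌋₊ ⊆ Icc 1 X := by
    apply Icc_subset_Icc_right
    exact (Nat.floor_le_floor hX).trans (by rw [Nat.floor_natCast])
  push_cast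
  rw [← sum_subset h1]
  · refine sum_congr rfl fun n hn => ?_
    rw [mem_Icc] at hn
    have hnM : (n : ℝ) ≤ M := (Nat.le_floor_iff hM).1 hn.2
    have hn0 : (n : ℤ) ≠ 0 := by omega
    rw [bt_eq, bt_eq, if_pos ⟨hn0, by rw [Int.natAbs_natCast]; exact hnM⟩,
      if_pos ⟨neg_ne_zero.2 hn0, by rw [Int.natAbs_neg, Int.natAbs_natCast]; exact hnM⟩,
      Int.natAbs_neg, Int.natAbs_natCast, ← tm_pair T a b x y n hn.1]
    push_cast
    rw [neg_mul]
    ring
  · intro n hn hn'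
    rw [mem_Icc] at hn hn'
    have hnM : ¬ (n : ℝ) ≤ M := fun h => hn' ⟨hn.1, Nat.le_floor h⟩
    rw [bt_eq, bt_eq, if_neg, if_neg]
    · simp
    · rintro ⟨-, h⟩
      rw [Int.natAbs_neg, Int.natAbs_natCast] at h
      exact hnM h
    · rintro ⟨-, h⟩
      rw [Int.natAbs_natCast] at h
      exact hnM h

theorem pt_cont (f : ℕ → ℝ) (T : ℝ) (a : ℕ → ℝ) (M : ℝ) (b : Bool) (y : ℝ) : Continuous fun x => pt f T a M b x y := by
  unfold pt tm
  fun_prop

end Pool.Agent.Q176.L2.GMC
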