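import Pool.Agent.Q176.L2.GMCb
import Pool.Agent.Q255.L2.SNT

/-!
# Project L2M (helper255), job GMC, part 3: tails, sizes and Lipschitz bounds
-/

set_option autoImplicit false

namespace Pool.Agent.Q176.L2.GMC

open Filter Topology MeasureTheory Finset
open Pool.Agent.Q255.IC Pool.Agent.Q255.IR Pool.Agent.Q255.EP Pool.Agent.Q255.L2 Pool.Agent.Q65.L2

/-- the sum in the bound for the tail -/
noncomputable def St (y₀ : ℝ) : ℝ := ∑' n : ℕ, (n : ℝ) ^ 2 * Real.exp (-(Real.pi * y₀ / 2) * n)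

theorem St_sum {y₀ : ℝ} (hy₀ : 0 < y₀) : Summable fun n : ℕ => (n : ℝ) ^ 2 * Real.exp (-(Real.pi * y₀ / 2) * n) := by
  have hpi := Real.pi_pos
  exact Real.summable_pow_mul_exp_neg_nat_mul 2 (by positivity : 0 < Real.pi * y₀ / 2)

theorem St_nonneg (y₀ : ℝ) : 0 ≤ St y₀ := tsum_nonneg fun n => by positivity

theorem pt_tail (hK : S_KODE) {m : ℕ} {T C y₀ y x : ℝ} {a f : ℕ → ℝ} (b : Bool) (hT : 1 ≤ T) (hy₀ : 0 < y₀)
    (hy : y₀ ≤ y) (hm : 1 ≤ m * y₀) (ha : ∀ n : ℕ, 1 ≤ n → |a n| ≤ C * (n * T)) (hf : ∀ n, |f n| ≤ 1) :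
    |ph b f T a x y - pt f T a (m * T) b x y| ≤ |C| * y₀ * St y₀ * Real.exp (-T) := by
  have hpi := Real.pi_pos
  have hpi3 := Real.pi_gt_three
  set N := ⌊(m : ℝ) * T⌋₊ with hN
  set F : ℕ → ℝ := fun n => tm T a b x y n * f n with hF
  set g : ℕ → ℝ := fun n => (n : ℝ) ^ 2 * Real.exp (-(Real.pi * y₀ / 2) * n) with hg
  set E := |C| * y₀ * Real.exp (-T) with hE
  have hE0 : 0 ≤ E := by positivity
  have hg0 : ∀ n, 0 ≤ g n := fun n => by
    rw [hg]
    positivity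
  have hgs : Summable g := St_sum hy₀
  have htail : ∀ n : ℕ, |F (n + N + 1)| ≤ E * g (n + (N + 1)) := by
    intro n
    have hfar : (m : ℝ) * T < ((n + N + 1 : ℕ) : ℝ) := by
      have h1 := Nat.lt_floor_add_one ((m : ℝ) * T)
      rw [← hN] at h1
      push_cast
      linarith [Nat.cast_nonneg (α := ℝ) n]
    have h2 := far (x := x) (C := C) (θ := 0) (K := 2) (y := y) (a := a) hK b le_rfl hT hy₀ hy hm (by norm_num)
      (n := n + N + 1) (by omega) (by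
        rw [Real.rpow_zero, mul_one]
        exact ha _ (by omega)) hfar
    have h3 : |F (n + N + 1)| ≤ |tm T a b x y (n + N + 1)| := by
      rw [hF]
      show |tm T a b x y (n + N + 1) * f (n + N + 1)| ≤ _
      rw [abs_mul]
      have := mul_le_mul_of_nonneg_left (hf (n + N + 1)) (abs_nonneg (tm T a b x y (n + N + 1)))
      linarith
    refine h3.trans (h2.trans ?_)
    have h4 : Real.exp (-(Real.pi * y₀) * ((n + N + 1 : ℕ) : ℝ)) ≤
        Real.exp (-T) * Real.exp (-(Real.pi * y₀ / 2) * ((n + (N + 1) : ℕ) : ℝ)) := by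
      rw [← Real.exp_add]
      apply Real.exp_le_exp.2
      have h5 : ((n + (N + 1) : ℕ) : ℝ) = ((n + N + 1 : ℕ) : ℝ) := by push_cast; ring
      rw [h5]
      have h6 : T ≤ y₀ * ((n + N + 1 : ℕ) : ℝ) := by
        have h7 : y₀ * (m * T) ≤ y₀ * ((n + N + 1 : ℕ) : ℝ) := mul_le_mul_of_nonneg_left hfar.le hy₀.le
        nlinarith
      nlinarith
    have h5 : ((n + (N + 1) : ℕ) : ℝ) = ((n + N + 1 : ℕ) : ℝ) := by push_cast; ring
    calc |C| * y₀ * (((n + N + 1 : ℕ) : ℝ) ^ 2 * Real.exp (-(Real.pi * y₀) * ((n + N + 1 : ℕ) : ℝ)))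
        ≤ |C| * y₀ * (((n + N + 1 : ℕ) : ℝ) ^ 2 *
            (Real.exp (-T) * Real.exp (-(Real.pi * y₀ / 2) * ((n + (N + 1) : ℕ) : ℝ)))) := by
          gcongr
      _ = E * g (n + (N + 1)) := by
          rw [hE, hg]
          simp only
          rw [h5]
          ring
  have hs1 : Summable fun n : ℕ => E * g (n + (N + 1)) := ((summable_nat_add_iff (N + 1)).2 hgs).mul_left E
  have hs2 : Summable fun n : ℕ => |F (n + N + 1)| := Summable.of_nonneg_of_le (fun _ => abs_nonneg _) htail hs1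
  have hs3 : Summable fun n : ℕ => F (n + 1) := by
    rw [← summable_nat_add_iff N]
    exact hs2.of_abs
  have hsplit := hs3.sum_add_tsum_nat_add N
  rw [sum_range_Icc F] at hsplit
  have h7 : ph b f T a x y = ∑' n : ℕ, F (n + 1) := Pool.Agent.Q195.L2.ph_eq b f T a x y
  have h8 : pt f T a (m * T) b x y = ∑ n ∈ Icc 1 N, F n := rfl
  rw [h7, h8, ← hsplit, add_sub_cancel_left]
  have h9 : |∑' n : ℕ, F (n + N + 1)| ≤ ∑' n : ℕ, |F (n + N + 1)| := by
    have := norm_tsum_le_tsum_norm (f := fun n : ℕ => F (n + N + 1)) hs2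
    exact this
  refine h9.trans ((hs2.tsum_le_tsum htail hs1).trans ?_)
  rw [tsum_mul_left]
  have h10 := hgs.sum_add_tsum_nat_add (N + 1)
  have h11 : 0 ≤ ∑ n ∈ range (N + 1), g n := sum_nonneg fun n _ => hg0 n
  have h12 : ∑' n, g (n + (N + 1)) ≤ St y₀ := by
    unfold St
    linarith
  calc E * ∑' n, g (n + (N + 1)) ≤ E * St y₀ := mul_le_mul_of_nonneg_left h12 hE0
    _ = |C| * y₀ * St y₀ * Real.exp (-T) := by
        rw [hE]
        ring

/-- the size of the coefficients and their dependence on the height -/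
theorem bt_bds (hB : S_KBB) {y₀ Y C₁ : ℝ} (hy₀ : 0 < y₀) (hC₁ : 0 ≤ C₁) : ∃ K : ℝ, 1 ≤ K ∧
    ∀ (T : ℝ) (a : ℕ → ℝ) (M : ℝ) (b : Bool) (X : ℝ), 1 ≤ T → 1 ≤ X → (∀ n : ℕ, 1 ≤ n → |a n| ≤ C₁ * (n * T)) →
      T ≤ X → M ≤ X → (∀ (y : ℝ) (m : ℤ), y₀ ≤ y → y ≤ Y → ‖bt T a M b y m‖ ≤ K * X ^ 2) ∧
      ∀ (y y' δ : ℝ) (m : ℤ), y₀ ≤ y → y ≤ Y → y₀ ≤ y' → y' ≤ Y → |y - y'| ≤ δ →
        ‖bt T a M b y m - bt T a M b y' m‖ ≤ K * X ^ 4 * δ := by
  obtain ⟨CB, hCB0, hamp⟩ := amp hB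
  set K₂ := CB * (1 / √y₀ + √Y / y₀ + √Y * (2 * Real.pi)) with hK₂
  have hpi := Real.pi_pos
  have hK₂0 : 0 ≤ K₂ := by positivity
  refine ⟨1 + √Y * C₁ * CB + C₁ * K₂, by linarith [(by positivity : 0 ≤ √Y * C₁ * CB), mul_nonneg hC₁ hK₂0], ?_⟩
  intro T a M b X hT hX1 ha hTX hMX
  have hp1 : 0 ≤ √Y * C₁ * CB := by positivity
  have hp2 : 0 ≤ C₁ * K₂ := mul_nonneg hC₁ hK₂0
  have hX0 : 0 < X := by linarith
  -- single coefficients
  have haX : ∀ n : ℕ, 1 ≤ n → (n : ℝ) ≤ M → |a n| ≤ C₁ * X ^ 2 := by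
    intro n hn hnM
    refine (ha n hn).trans (mul_le_mul_of_nonneg_left ?_ hC₁)
    have hn0 : (0 : ℝ) ≤ n := Nat.cast_nonneg n
    nlinarith
  constructor
  · intro y m hy hyY
    rw [bt_eq]
    split_ifs with h
    · have hn : 1 ≤ m.natAbs := Int.natAbs_pos.2 h.1
      have h1 := tm_bd CB T (hamp T hT).1 a true 0 y Y (hy₀.trans_le hy) hyY m.natAbs hn
      have h2 : √Y * |a m.natAbs| * CB / √(1 + |T - 2 * Real.pi * m.natAbs * y|) ≤ √Y * |a m.natAbs| * CB := by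
        apply div_le_self (by positivity)
        exact Real.one_le_sqrt.2 (by linarith [abs_nonneg (T - 2 * Real.pi * m.natAbs * y)])
      have h3 := haX m.natAbs hn h.2
      have h4 : √Y * |a m.natAbs| * CB ≤ √Y * C₁ * CB * X ^ 2 := by
        have h5 : √Y * |a m.natAbs| * CB ≤ √Y * (C₁ * X ^ 2) * CB :=
          mul_le_mul_of_nonneg_right (mul_le_mul_of_nonneg_left h3 (Real.sqrt_nonneg _)) hCB0
        linarith
      rw [norm_mul, Complex.norm_real, Real.norm_eq_abs, abs_div, abs_of_pos (two_pos : (0 : ℝ) < 2)]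
      have h5 := mul_le_mul_of_nonneg_left (un_norm b m)
        (by positivity : 0 ≤ |tm T a true 0 y m.natAbs| / 2)
      have h6 : 0 ≤ |tm T a true 0 y m.natAbs| := abs_nonneg _
      have h7 : 0 ≤ X ^ 2 := by positivity
      nlinarith [mul_nonneg hp2 h7]
    · rw [norm_zero]
      have : 0 ≤ 1 + √Y * C₁ * CB + C₁ * K₂ := by linarith
      positivity
  · intro y y' δ m hy hyY hy' hyY' hδ
    have hδ0 : 0 ≤ δ := (abs_nonneg _).trans hδ
    rw [bt_eq, bt_eq]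
    split_ifs with h
    · have hn : 1 ≤ m.natAbs := Int.natAbs_pos.2 h.1
      have h1 := tm_lip CB T hCB0 hT (hamp T hT).1 (hamp T hT).2 a true 0 y 0 y' y₀ Y δ hy₀ hy hy' hyY'
        (by rw [sub_zero, abs_zero]; exact hδ0) hδ m.natAbs hn
      rw [← hK₂] at h1
      have h3 := haX m.natAbs hn h.2
      rw [← sub_mul, norm_mul]
      have h4 : (((tm T a true 0 y m.natAbs / 2 : ℝ) : ℂ) - ((tm T a true 0 y' m.natAbs / 2 : ℝ) : ℂ)) =
          (((tm T a true 0 y m.natAbs - tm T a true 0 y' m.natAbs) / 2 : ℝ) : ℂ) := by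
        push_cast
        ring
      rw [h4, Complex.norm_real, Real.norm_eq_abs, abs_div, abs_of_pos (two_pos : (0 : ℝ) < 2)]
      have h5 := mul_le_mul_of_nonneg_left (un_norm b m)
        (by positivity : 0 ≤ |tm T a true 0 y m.natAbs - tm T a true 0 y' m.natAbs| / 2)
      have h6 : 0 ≤ |tm T a true 0 y m.natAbs - tm T a true 0 y' m.natAbs| := abs_nonneg _
      have hn0 : (0 : ℝ) ≤ m.natAbs := Nat.cast_nonneg _
      have h7 : |a m.natAbs| * K₂ * (T * m.natAbs * δ) ≤ C₁ * X ^ 2 * K₂ * (X * X * δ) := by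
        refine mul_le_mul (mul_le_mul_of_nonneg_right h3 hK₂0) ?_ (by positivity) (by positivity)
        refine mul_le_mul_of_nonneg_right ?_ hδ0
        exact mul_le_mul hTX (h.2.trans hMX) hn0 hX0.le
      have h8 : 0 ≤ X ^ 4 * δ := by positivity
      have h9 : C₁ * X ^ 2 * K₂ * (X * X * δ) = C₁ * K₂ * (X ^ 4 * δ) := by ring
      rw [h9] at h7
      have h10 : (1 + √Y * C₁ * CB + C₁ * K₂) * X ^ 4 * δ = (X ^ 4 * δ) + √Y * C₁ * CB * (X ^ 4 * δ) +
          C₁ * K₂ * (X ^ 4 * δ) := by ring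
      rw [h10]
      have h11 := mul_nonneg hp1 h8
      linarith
    · rw [sub_zero, norm_zero]
      have : 0 ≤ 1 + √Y * C₁ * CB + C₁ * K₂ := by linarith
      positivity

/-- the number of the functions -/
theorem card_all (A : ℝ) (n L : ℕ) : ∃ A' : ℝ, ∀ J N : ℕ, (N : ℝ) ≤ A * ((2 : ℝ) ^ J) ^ A →
    ((N * ((n * 2 ^ (L * J) + 1) * 2) : ℕ) : ℝ) ≤ Real.exp (A' * ((J : ℝ) + 1)) := by
  set B := max A 1 with hB
  have hB1 : 1 ≤ B := le_max_right _ _
  have hBA : A ≤ B := le_max_left _ _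
  have hn : (0 : ℝ) ≤ n := Nat.cast_nonneg n
  have hl1 : 1 ≤ 2 * ((n : ℝ) + 1) * B := by nlinarith
  set l := Real.log (2 * ((n : ℝ) + 1) * B) with hl
  have hl0 : 0 ≤ l := Real.log_nonneg hl1
  have hlog2 : 0 < Real.log 2 := Real.log_pos (by norm_num)
  have hL : (0 : ℝ) ≤ L := Nat.cast_nonneg L
  refine ⟨l + B * Real.log 2 + L * Real.log 2, fun J N hN => ?_⟩
  have hJ : (0 : ℝ) ≤ J := Nat.cast_nonneg J
  have h2J : (1 : ℝ) ≤ 2 ^ J := one_le_pow₀ (by norm_num)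
  have h2L : (1 : ℝ) ≤ 2 ^ (L * J) := one_le_pow₀ (by norm_num)
  have h1 : (N : ℝ) ≤ B * ((2 : ℝ) ^ J) ^ B := by
    refine hN.trans (mul_le_mul hBA (Real.rpow_le_rpow_of_exponent_le h2J hBA) (by positivity)
      (by linarith))
  have h2 : ((2 : ℝ) ^ J) ^ B = Real.exp (B * Real.log 2 * J) := by
    rw [Real.rpow_def_of_pos (by positivity), Real.log_pow]
    congr 1
    ring
  have h3 : ((2 : ℝ) ^ (L * J)) = Real.exp (L * Real.log 2 * J) := by
    have h31 : (2 : ℝ) ^ (L * J) = Real.exp (((L * J : ℕ) : ℝ) * Real.log 2) := by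
      rw [Real.exp_nat_mul, Real.exp_log (by norm_num)]
    rw [h31]
    congr 1
    push_cast
    ring
  have h4 : 2 * ((n : ℝ) + 1) * B = Real.exp l := by
    rw [hl, Real.exp_log (by linarith)]
  push_cast
  calc (N : ℝ) * ((n * 2 ^ (L * J) + 1) * 2)
      ≤ (B * ((2 : ℝ) ^ J) ^ B) * (((n + 1) * 2 ^ (L * J)) * 2) := by
        refine mul_le_mul h1 (mul_le_mul_of_nonneg_right (by linarith) (by norm_num)) (by positivity) (by positivity)
    _ = 2 * ((n : ℝ) + 1) * B * ((2 : ℝ) ^ J) ^ B * 2 ^ (L * J) := by ring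
    _ = Real.exp (l + B * Real.log 2 * J + L * Real.log 2 * J) := by
        rw [h4, h2, h3, ← Real.exp_add, ← Real.exp_add]
    _ ≤ Real.exp ((l + B * Real.log 2 + L * Real.log 2) * ((J : ℝ) + 1)) := by
        rw [Real.exp_le_exp]
        have h5 : 0 ≤ l * J := by positivity
        have h6 : 0 ≤ B * Real.log 2 := by positivity
        have h7 : 0 ≤ L * Real.log 2 := by positivity
        nlinarith

end Pool.Agent.Q176.L2.GMC
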