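import Pool.Agent.Q176.L2.GMCa
import Pool.Agent.Q176.L2.GMCc

/-!
# Project L2M (helper255), job GMC, part 4: the Fourier coefficients of the truncated products, almost surely
-/

set_option autoImplicit false

namespace Pool.Agent.Q176.L2.GMC

open Filter Topology MeasureTheory Finset
open Pool.Agent.Q255.IC Pool.Agent.Q255.IR Pool.Agent.Q255.EP Pool.Agent.Q255.L2 Pool.Agent.Q65.L2

/-- the functions: all members of the right size, all heights of a net -/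
noncomputable def BB {ι : Type} (T : ι → ℝ) (a : ι → ℕ → ℝ) (hfin : ∀ X : ℝ, 1 ≤ X → {i | T i ≤ X}.Finite)
    (n M q s L J : ℕ) : Finset (ℤ → ℂ) := by
  classical
  exact if s ≤ J then
    Finset.image (fun p : ι × ℕ × Bool => bt (T p.1) (a p.1) (M * T p.1) p.2.2 (1 / (n : ℝ) + p.2.1 / 2 ^ (L * J)))
      (((hfin (2 ^ J) (one_le_pow₀ (by norm_num))).toFinset.filter
        (fun i => T i ≤ 2 ^ (J - s) ∧ 2 ^ (J - s) ≤ 2 ^ q * T i)) ×ˢ (range (n * 2 ^ (L * J) + 1) ×ˢ univ))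
  else ∅

theorem mem_BB {ι : Type} {T : ι → ℝ} {a : ι → ℕ → ℝ} {hfin : ∀ X : ℝ, 1 ≤ X → {i | T i ≤ X}.Finite}
    {n M q s L J : ℕ} {β : ℤ → ℂ} (h : β ∈ BB T a hfin n M q s L J) : s ≤ J ∧ ∃ (i : ι) (b : Bool) (l : ℕ),
      T i ≤ 2 ^ (J - s) ∧ 2 ^ (J - s) ≤ 2 ^ q * T i ∧ l < n * 2 ^ (L * J) + 1 ∧
        β = bt (T i) (a i) (M * T i) b (1 / (n : ℝ) + l / 2 ^ (L * J)) := by
  classical
  unfold BB at h
  by_cases hs : s ≤ J
  · rw [if_pos hs, mem_image] at h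
    obtain ⟨⟨i, l, b⟩, h1, h2⟩ := h
    rw [mem_product, mem_product, mem_filter, mem_range] at h1
    exact ⟨hs, i, b, l, h1.1.2.1, h1.1.2.2, h1.2.1, h2.symm⟩
  · rw [if_neg hs] at h
    simp at h

theorem BB_mem {ι : Type} {T : ι → ℝ} (a : ι → ℕ → ℝ) (hfin : ∀ X : ℝ, 1 ≤ X → {i | T i ≤ X}.Finite)
    {n q s L J : ℕ} (M : ℕ) (hs : s ≤ J) (i : ι) (b : Bool) (l : ℕ) (h1 : T i ≤ 2 ^ (J - s))
    (h2 : 2 ^ (J - s) ≤ 2 ^ q * T i) (h3 : l < n * 2 ^ (L * J) + 1) :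
    bt (T i) (a i) (M * T i) b (1 / (n : ℝ) + l / 2 ^ (L * J)) ∈ BB T a hfin n M q s L J := by
  classical
  unfold BB
  rw [if_pos hs, mem_image]
  refine ⟨(i, l, b), ?_, rfl⟩
  rw [mem_product, mem_product, mem_filter, mem_range]
  refine ⟨⟨?_, h1, h2⟩, h3, mem_univ _⟩
  rw [Set.Finite.mem_toFinset]
  show T i ≤ 2 ^ J
  exact h1.trans (pow_le_pow_right₀ (by norm_num) (Nat.sub_le _ _))

theorem card_BB {ι : Type} (T : ι → ℝ) (a : ι → ℕ → ℝ) (hfin : ∀ X : ℝ, 1 ≤ X → {i | T i ≤ X}.Finite)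
    (n M q s L J : ℕ) : (BB T a hfin n M q s L J).card ≤
      ({i | T i ≤ 2 ^ J}.ncard) * ((n * 2 ^ (L * J) + 1) * 2) := by
  classical
  unfold BB
  by_cases hs : s ≤ J
  · rw [if_pos hs]
    refine card_image_le.trans ?_
    rw [card_product, card_product, card_range, card_univ, Fintype.card_bool]
    refine Nat.mul_le_mul_right _ ?_
    rw [Set.ncard_eq_toFinset_card _ (hfin (2 ^ J) (one_le_pow₀ (by norm_num)))]
    exact card_filter_le _ _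
  · rw [if_neg hs, card_empty]
    exact Nat.zero_le _

theorem net {n L J : ℕ} {y : ℝ} (hn : 1 ≤ n) (h1 : 1 / (n : ℝ) ≤ y) (h2 : y ≤ n) :
    ∃ l : ℕ, l < n * 2 ^ (L * J) + 1 ∧ 1 / (n : ℝ) + l / 2 ^ (L * J) ≤ y ∧
      |y - (1 / (n : ℝ) + l / 2 ^ (L * J))| ≤ 1 / 2 ^ (L * J) := by
  have hn0 : (0 : ℝ) < n := by exact_mod_cast hn
  obtain ⟨P, hP⟩ : ∃ P : ℝ, P = 2 ^ (L * J) := ⟨_, rfl⟩
  have hP0 : 0 < P := by
    rw [hP]
    positivity
  obtain ⟨l, hl⟩ : ∃ l : ℕ, l = ⌊(y - 1 / (n : ℝ)) * P⌋₊ := ⟨_, rfl⟩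
  have h3 : 0 ≤ (y - 1 / (n : ℝ)) * P := mul_nonneg (by linarith) hP0.le
  have h4 : (l : ℝ) ≤ (y - 1 / (n : ℝ)) * P := by
    rw [hl]
    exact Nat.floor_le h3
  have h5 : (y - 1 / (n : ℝ)) * P < l + 1 := by
    rw [hl]
    exact Nat.lt_floor_add_one _
  have h6 : (l : ℝ) / P ≤ y - 1 / (n : ℝ) := by
    rw [div_le_iff₀ hP0]
    exact h4
  have h7 : y - 1 / (n : ℝ) ≤ (l + 1) / P := by
    rw [le_div_iff₀ hP0]
    exact h5.le
  refine ⟨l, ?_, ?_, ?_⟩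
  · have h8 : (l : ℝ) ≤ n * P := by
      refine h4.trans (mul_le_mul_of_nonneg_right ?_ hP0.le)
      have : 0 ≤ 1 / (n : ℝ) := by positivity
      linarith
    rw [hP] at h8
    have h9 : l ≤ n * 2 ^ (L * J) := by exact_mod_cast h8
    omega
  · rw [← hP]
    linarith
  · rw [← hP, abs_le]
    rw [add_div] at h7
    constructor
    · have : 0 ≤ 1 / P := by positivity
      linarith
    · linarith

/-- the final arithmetic of the net -/
theorem net_num (k J : ℕ) (K : ℝ) :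
    (2 * ((2 ^ J : ℕ) : ℝ)) ^ k * (k * (K * ((2 : ℝ) ^ J) ^ 2) ^ k * (K * ((2 : ℝ) ^ J) ^ 4 * (1 / 2 ^ ((3 * k + 5) * J)))) =
      2 ^ k * k * K ^ (k + 1) * (1 / 2 ^ J) := by
  obtain ⟨x, hx⟩ : ∃ x : ℝ, x = 2 ^ J := ⟨_, rfl⟩
  have hx0 : x ≠ 0 := by
    rw [hx]
    positivity
  have h1 : (2 : ℝ) ^ ((3 * k + 5) * J) = x ^ (3 * k + 5) := by
    rw [hx, ← pow_mul]
    congr 1
    ring
  push_cast
  rw [h1, ← hx, mul_pow, mul_pow, ← pow_mul]
  have h2 : x ^ (3 * k + 5) = x ^ k * x ^ (2 * k) * x ^ 4 * x := by ring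
  rw [h2]
  field_simp
  ring

theorem two_rpow_le {u v : ℝ} (h : u ≤ v) : (2 : ℝ) ^ u ≤ (2 : ℝ) ^ v :=
  Real.rpow_le_rpow_of_exponent_le (by norm_num) h

theorem two_pow_inv (J : ℕ) : 1 / (2 : ℝ) ^ J = (2 : ℝ) ^ (-(J : ℝ)) := by
  rw [Real.rpow_neg (by norm_num), Real.rpow_natCast, one_div]

theorem ts_as (hA : S_GMA) (hV : S_GMBV) (hB : S_KBB) (ν : Measure (ℕ → Bool)) [IsProbabilityMeasure ν]
    (hν : Sml ν) {ι : Type} (T : ι → ℝ) (a : ι → ℕ → ℝ) (A : ℝ) (hF : Fam T A) (hC : Coef T a) :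
    ∀ᵐ ω ∂ν, ∀ n M k q s : ℕ, 1 ≤ n → 1 ≤ M → 1 ≤ k → M ≤ 2 ^ s → 2 ^ s ≤ 2 * M + 2 →
      ∃ c C : ℝ, 0 < c ∧ 0 ≤ C ∧ ∀ (J : ℕ) (i : Fin k → ι) (b : Fin k → Bool) (y : ℝ) (h : ℤ),
        (∀ j, T (i j) ≤ 2 ^ J ∧ 2 ^ J ≤ 2 ^ q * T (i j)) → 1 / (n : ℝ) ≤ y → y ≤ n → |h| ≤ 2 ^ J →
          ‖TS (cm ω) k (2 ^ (J + s)) h (fun j => bt (T (i j)) (a (i j)) (M * T (i j)) (b j) y) -
            if h = 0 then DB k (2 ^ (J + s)) (fun j => bt (T (i j)) (a (i j)) (M * T (i j)) (b j) y) else 0‖ ≤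
              C * (2 : ℝ) ^ (-(c * J)) := by
  obtain ⟨hT, hfc⟩ := hF
  have hfin : ∀ X : ℝ, 1 ≤ X → {i | T i ≤ X}.Finite := fun X hX => (hfc X hX).1
  obtain ⟨C₁, hC₁0, hC₁⟩ := Pool.Agent.Q68.L2.coef_pt hT hC
  rw [ae_all_iff]
  intro n
  rw [ae_all_iff]
  intro M
  rw [ae_all_iff]
  intro k
  rw [ae_all_iff]
  intro q
  rw [ae_all_iff]
  intro s
  refine Filter.eventually_imp_distrib_left.2 fun hn => ?_
  refine Filter.eventually_imp_distrib_left.2 fun hM => ?_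
  refine Filter.eventually_imp_distrib_left.2 fun hk => ?_
  refine Filter.eventually_imp_distrib_left.2 fun hs1 => ?_
  refine Filter.eventually_imp_distrib_left.2 fun hs2 => ?_
  have hn1 : (1 : ℝ) ≤ n := by exact_mod_cast hn
  have hn0 : (0 : ℝ) < n := by linarith
  have hni : 0 < 1 / (n : ℝ) := by positivity
  have hni1 : 1 / (n : ℝ) ≤ 1 := by
    rw [div_le_one hn0]
    exact hn1
  have hM1 : (1 : ℝ) ≤ M := by exact_mod_cast hM
  have hs1' : (M : ℝ) ≤ 2 ^ s := by exact_mod_cast hs1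
  have hs2' : (2 : ℝ) ^ s ≤ 2 * M + 2 := by exact_mod_cast hs2
  obtain ⟨c₁, C₂, hc₁, hC₂, hV'⟩ := hV ι T a hT hC (1 / n) (n + 1) M k q hni (by linarith) hM1 hk
  set L := 3 * k + 5 with hL
  obtain ⟨A', hA'⟩ := card_all A n L
  obtain ⟨K, hK1, hK⟩ := bt_bds hB (y₀ := 1 / (n : ℝ)) (Y := n + 1) hni hC₁0
  have hmain := hA ν hν k hk (BB T a hfin n M q s L) A' c₁ (C₂ * 2 ^ (c₁ * s)) hc₁ ?_ ?_ ?_
  · filter_upwards [hmain] with ω hω
    obtain ⟨C₃, hC₃⟩ := hω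
    refine ⟨min (c₁ / 4) 1, |C₃| + 2 * (2 ^ k * k * K ^ (k + 1)), lt_min (by positivity) one_pos, by positivity, ?_⟩
    intro J i b y h hi hy hyn hh
    have hsJ : s ≤ J + s := Nat.le_add_left _ _
    have hJs : J + s - s = J := Nat.add_sub_cancel _ _
    obtain ⟨l, hl1, hl2, hl3⟩ := net (L := L) (J := J + s) hn hy hyn
    set y' := 1 / (n : ℝ) + l / 2 ^ (L * (J + s)) with hy'
    have hy'1 : 1 / (n : ℝ) ≤ y' := by
      rw [hy']
      have : (0 : ℝ) ≤ l / 2 ^ (L * (J + s)) := by positivity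
      linarith
    have hmem : ∀ j, bt (T (i j)) (a (i j)) (M * T (i j)) (b j) y' ∈ BB T a hfin n M q s L (J + s) := by
      intro j
      refine BB_mem a hfin M hsJ (i j) (b j) l ?_ ?_ hl1
      · rw [hJs]
        exact (hi j).1
      · rw [hJs]
        exact (hi j).2
    have hh' : |h| ≤ 2 ^ (J + s) := hh.trans (pow_le_pow_right₀ (by norm_num) (Nat.le_add_right _ _))
    have h1 := hC₃ (J + s) _ hmem h hh'
    -- the differences
    obtain ⟨X, hX⟩ : ∃ X : ℝ, X = 2 ^ (J + s) := ⟨_, rfl⟩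
    have hX1 : 1 ≤ X := by
      rw [hX]
      exact one_le_pow₀ (by norm_num)
    have hTX : ∀ j, T (i j) ≤ X ∧ (M : ℝ) * T (i j) ≤ X := by
      intro j
      have h2 := (hi j).1
      have h3 := hT (i j)
      have h4 : (2 : ℝ) ^ (J + s) = 2 ^ s * 2 ^ J := by rw [pow_add]; ring
      have h5 : (M : ℝ) * T (i j) ≤ 2 ^ s * 2 ^ J := mul_le_mul hs1' h2 (by linarith) (by positivity)
      rw [hX, h4]
      refine ⟨?_, h5⟩
      refine le_trans ?_ h5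
      nlinarith
    have hb := fun j => hK (T (i j)) (a (i j)) (M * T (i j)) (b j) X (hT _) hX1 (hC₁ (i j)) (hTX j).1 (hTX j).2
    have hKX : 1 ≤ K * X ^ 2 := by
      have : 1 ≤ X ^ 2 := one_le_pow₀ hX1
      nlinarith
    have hD : 0 ≤ K * X ^ 4 * (1 / 2 ^ (L * (J + s))) := by positivity
    have hbb1 : ∀ j, ∀ m ∈ Bx (2 ^ (J + s)), ‖bt (T (i j)) (a (i j)) (M * T (i j)) (b j) y m‖ ≤ K * X ^ 2 :=
      fun j m _ => (hb j).1 y m hy (by linarith)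
    have hbb2 : ∀ j, ∀ m ∈ Bx (2 ^ (J + s)), ‖bt (T (i j)) (a (i j)) (M * T (i j)) (b j) y' m‖ ≤ K * X ^ 2 :=
      fun j m _ => (hb j).1 y' m hy'1 (by linarith)
    have hbb3 : ∀ j, ∀ m ∈ Bx (2 ^ (J + s)), ‖bt (T (i j)) (a (i j)) (M * T (i j)) (b j) y m -
        bt (T (i j)) (a (i j)) (M * T (i j)) (b j) y' m‖ ≤ K * X ^ 4 * (1 / 2 ^ (L * (J + s))) :=
      fun j m _ => (hb j).2 y y' _ m hy (by linarith) hy'1 (by linarith) hl3
    have hTS := TS_diff (fun n => Pool.Agent.Q13.EP.abs_cm_le ω n) k (2 ^ (J + s)) h _ _ hKX hD hbb1 hbb2 hbb3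
    have hDB := DB_diff k (2 ^ (J + s)) _ _ hKX hD hbb1 hbb2 hbb3
    rw [hX, hL, net_num] at hTS hDB
    set E := 2 ^ k * k * K ^ (k + 1) with hE
    have hE0 : 0 ≤ E := by positivity
    rw [two_pow_inv] at hTS hDB
    -- the exponents
    obtain ⟨c, hc⟩ : ∃ c, c = min (c₁ / 4) 1 := ⟨_, rfl⟩
    have hc0 : 0 < c := by
      rw [hc]
      exact lt_min (by positivity) one_pos
    have hcc : c ≤ c₁ / 4 := by
      rw [hc]
      exact min_le_left _ _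
    have hc1 : c ≤ 1 := by
      rw [hc]
      exact min_le_right _ _
    rw [← hc]
    have hJ0 : (0 : ℝ) ≤ J := Nat.cast_nonneg J
    have hs0 : (0 : ℝ) ≤ s := Nat.cast_nonneg s
    have hP1 : (2 : ℝ) ^ (-((J + s : ℕ) : ℝ)) ≤ 2 ^ (-(c * J)) := by
      apply two_rpow_le
      push_cast
      have := mul_le_mul_of_nonneg_right hc1 hJ0
      linarith
    have hP2 : (2 : ℝ) ^ (-(c₁ / 4 * ((J + s : ℕ) : ℝ))) ≤ 2 ^ (-(c * J)) := by
      apply two_rpow_le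
      push_cast
      have h5 := mul_le_mul_of_nonneg_right hcc hJ0
      have h6 : 0 ≤ c₁ / 4 * s := by positivity
      linarith
    have hP0 : (0 : ℝ) < 2 ^ (-(c * J)) := by positivity
    have hTS' := hTS.trans (mul_le_mul_of_nonneg_left hP1 hE0)
    have hDB' := hDB.trans (mul_le_mul_of_nonneg_left hP1 hE0)
    have h1' : ‖TS (cm ω) k (2 ^ (J + s)) h (fun j => bt (T (i j)) (a (i j)) (M * T (i j)) (b j) y') -
        if h = 0 then DB k (2 ^ (J + s)) (fun j => bt (T (i j)) (a (i j)) (M * T (i j)) (b j) y') else 0‖ ≤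
          |C₃| * 2 ^ (-(c * J)) := by
      refine h1.trans ?_
      calc C₃ * (2 : ℝ) ^ (-(c₁ / 4 * ((J + s : ℕ) : ℝ))) ≤ |C₃| * (2 : ℝ) ^ (-(c₁ / 4 * ((J + s : ℕ) : ℝ))) :=
            mul_le_mul_of_nonneg_right (le_abs_self _) (by positivity)
        _ ≤ |C₃| * 2 ^ (-(c * J)) := mul_le_mul_of_nonneg_left hP2 (abs_nonneg _)
    by_cases hh0 : h = 0
    · rw [if_pos hh0] at h1' ⊢
      have h7 := norm_add₃_le (a := TS (cm ω) k (2 ^ (J + s)) h (fun j => bt (T (i j)) (a (i j)) (M * T (i j)) (b j) y) -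
          TS (cm ω) k (2 ^ (J + s)) h (fun j => bt (T (i j)) (a (i j)) (M * T (i j)) (b j) y'))
        (b := TS (cm ω) k (2 ^ (J + s)) h (fun j => bt (T (i j)) (a (i j)) (M * T (i j)) (b j) y') -
          DB k (2 ^ (J + s)) (fun j => bt (T (i j)) (a (i j)) (M * T (i j)) (b j) y'))
        (c := DB k (2 ^ (J + s)) (fun j => bt (T (i j)) (a (i j)) (M * T (i j)) (b j) y') -
          DB k (2 ^ (J + s)) (fun j => bt (T (i j)) (a (i j)) (M * T (i j)) (b j) y))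
      rw [norm_sub_rev (DB k (2 ^ (J + s)) (fun j => bt (T (i j)) (a (i j)) (M * T (i j)) (b j) y'))] at h7
      have h8 : ∀ u v w z : ℂ, (u - v) + (v - w) + (w - z) = u - z := fun u v w z => by ring
      rw [h8] at h7
      linarith
    · rw [if_neg hh0, sub_zero] at h1' ⊢
      have h7 := norm_add_le (TS (cm ω) k (2 ^ (J + s)) h (fun j => bt (T (i j)) (a (i j)) (M * T (i j)) (b j) y) -
          TS (cm ω) k (2 ^ (J + s)) h (fun j => bt (T (i j)) (a (i j)) (M * T (i j)) (b j) y'))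
        (TS (cm ω) k (2 ^ (J + s)) h (fun j => bt (T (i j)) (a (i j)) (M * T (i j)) (b j) y'))
      rw [sub_add_cancel] at h7
      have h9 : 0 ≤ E * (2 : ℝ) ^ (-(c * J)) := by positivity
      linarith
  · -- the supports
    intro J β hβ m hm
    obtain ⟨hsJ, i, b, l, h1, h2, h3, h4⟩ := mem_BB hβ
    rw [h4]
    refine bt_supp ?_ hm
    push_cast
    have h5 : (2 : ℝ) ^ J = 2 ^ s * 2 ^ (J - s) := by
      rw [← pow_add]
      congr 1
      omega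
    rw [h5]
    exact mul_le_mul hs1' h1 (by linarith [hT i]) (by positivity)
  · -- the number
    intro J
    refine le_trans ?_ (hA' J ({i | T i ≤ 2 ^ J}.ncard) (hfc (2 ^ J) (one_le_pow₀ (by norm_num))).2)
    exact_mod_cast card_BB T a hfin n M q s L J
  · -- the counts
    intro J β hβ h
    have hβ' := fun j => mem_BB (hβ j)
    obtain ⟨hsJ, -⟩ := hβ' ⟨0, by omega⟩
    have hβ'' := fun j => (hβ' j).2
    choose i b l h1 h2 h3 h4 using hβ''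
    have hβe : β = fun j => bt (T (i j)) (a (i j)) (M * T (i j)) (b j) (1 / (n : ℝ) + l j / 2 ^ (L * J)) :=
      funext h4
    have hz : ∀ j, 1 / (n : ℝ) ≤ 1 / (n : ℝ) + l j / 2 ^ (L * J) ∧ 1 / (n : ℝ) + l j / 2 ^ (L * J) ≤ n + 1 := by
      intro j
      constructor
      · have : (0 : ℝ) ≤ l j / 2 ^ (L * J) := by positivity
        linarith
      · have h5 : (l j : ℝ) / 2 ^ (L * J) ≤ n := by
          rw [div_le_iff₀ (by positivity)]
          have h6 : l j ≤ n * 2 ^ (L * J) := by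
            have := h3 j
            omega
          exact_mod_cast h6
        linarith
    have h5 : (2 : ℝ) ^ J = 2 ^ s * 2 ^ (J - s) := by
      rw [← pow_add]
      congr 1
      omega
    have hX1 : (M : ℝ) * 2 ^ (J - s) ≤ ((2 ^ J : ℕ) : ℝ) := by
      push_cast
      rw [h5]
      exact mul_le_mul_of_nonneg_right hs1' (by positivity)
    have hX2 : ((2 ^ J : ℕ) : ℝ) ≤ (2 * M + 2) * 2 ^ (J - s) := by
      push_cast
      rw [h5]
      exact mul_le_mul_of_nonneg_right hs2' (by positivity)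
    have h6 := hV' (J - s) (2 ^ J) i b (fun j => 1 / (n : ℝ) + l j / 2 ^ (L * J)) h (fun j => ⟨h1 j, h2 j⟩) hz hX1 hX2
    have h7 : C₂ * (2 : ℝ) ^ (-(c₁ * ((J - s : ℕ) : ℝ))) = C₂ * 2 ^ (c₁ * s) * 2 ^ (-(c₁ * J)) := by
      rw [mul_assoc, ← Real.rpow_add (by norm_num)]
      congr 2
      rw [Nat.cast_sub hsJ]
      ring
    rw [h7] at h6
    rw [hβe]
    exact h6

end Pool.Agent.Q176.L2.GMC
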