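import Pool.Agent.Q255.L2.StmM

set_option autoImplicit false

/-!
# Project L2M: the sharp uniform bound for the Bessel function near the transition
-/

namespace Pool.Agent.Q176.L2.KW

open Filter Topology MeasureTheory Set
open Pool.Agent.Q255.L2

/-- the energy (the beginning of `Pool.Agent.Q241.L2.kbb`) -/
lemma energy (h1 : S_KODE) (h2 : S_KINT) {T : ℝ} (hT : 1 ≤ T) : ∃ E₀ : ℝ, Real.exp (Real.pi * T) * E₀ ≤ 13 * T ∧
    (∀ u : ℝ, 0 < u → HasDerivAt (fun u => u ^ 2 * KB1 T u ^ 2 + (T ^ 2 - u ^ 2) * KB T u ^ 2) (-(2 * (u * KB T u ^ 2))) u) ∧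
    (∀ u : ℝ, 0 < u → 0 ≤ u ^ 2 * KB1 T u ^ 2 + (T ^ 2 - u ^ 2) * KB T u ^ 2 ∧
      u ^ 2 * KB1 T u ^ 2 + (T ^ 2 - u ^ 2) * KB T u ^ 2 ≤ E₀) ∧
    AntitoneOn (fun u => KB T u ^ 2) (Ici T) := by
  obtain ⟨hode, hdec0, C1, hC1, hdec1⟩ := h1
  have hT0 : 0 < T := by linarith
  obtain ⟨hint, htot⟩ := h2 T hT0
  obtain ⟨k, hk⟩ : ∃ k : ℝ → ℝ, k = KB T := ⟨_, rfl⟩
  obtain ⟨k1, hk1⟩ : ∃ k1 : ℝ → ℝ, k1 = KB1 T := ⟨_, rfl⟩
  obtain ⟨k2, hk2⟩ : ∃ k2 : ℝ → ℝ, k2 = KB2 T := ⟨_, rfl⟩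
  have hd : ∀ u : ℝ, 0 < u → HasDerivAt k (k1 u) u := fun u hu => by
    rw [hk, hk1]; exact (hode T u hu).1
  have hd1 : ∀ u : ℝ, 0 < u → HasDerivAt k1 (k2 u) u := fun u hu => by
    rw [hk1, hk2]; exact (hode T u hu).2.1
  have heq : ∀ u : ℝ, 0 < u → u ^ 2 * k2 u + u * k1 u = (u ^ 2 - T ^ 2) * k u := fun u hu => by
    rw [hk, hk1, hk2]; exact (hode T u hu).2.2
  have hb0 : ∀ u : ℝ, 1 ≤ u → |k u| ≤ 2 * Real.exp (-u) := fun u hu => by
    rw [hk]
    refine (hdec0 T u (by linarith)).trans ?_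
    apply mul_le_mul_of_nonneg_right _ (Real.exp_pos _).le
    rw [Real.sqrt_le_left (by norm_num), div_le_iff₀ (by linarith)]
    have := Real.pi_lt_d2
    nlinarith
  have hb1 : ∀ u : ℝ, 1 ≤ u → |k1 u| ≤ C1 * Real.exp (-u) := fun u hu => by
    rw [hk1]; exact hdec1 T u hu
  rw [← hk] at hint htot ⊢
  rw [← hk1]
  -- the total energy
  obtain ⟨e, he⟩ : ∃ e, e = Real.exp (Real.pi * T) := ⟨_, rfl⟩
  obtain ⟨E₀, hE₀⟩ : ∃ E₀, E₀ = Real.pi * T / Real.sinh (Real.pi * T) := ⟨_, rfl⟩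
  have hepos : 0 < e := by rw [he]; exact Real.exp_pos _
  have hpi := Real.pi_gt_three
  have hpi2 := Real.pi_lt_d2
  have hsinh : e / 4 ≤ Real.sinh (Real.pi * T) := by
    rw [Real.sinh_eq, ← he]
    have h3 : Real.exp (-(Real.pi * T)) ≤ e / 2 := by
      rw [Real.exp_neg, ← he, inv_le_comm₀ hepos (by positivity)]
      rw [inv_div]
      rw [div_le_iff₀ hepos]
      have h4 : 1 + Real.pi * T ≤ e := by
        rw [he]; linarith [Real.add_one_le_exp (Real.pi * T)]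
      have h5 : 4 ≤ e := by nlinarith
      nlinarith
    linarith
  have hM : e * E₀ ≤ 13 * T := by
    rw [hE₀, ← mul_div_assoc, div_le_iff₀ (by linarith [show 0 < e / 4 by positivity])]
    have h3 : 13 * T * (e / 4) ≤ 13 * T * Real.sinh (Real.pi * T) := by gcongr
    nlinarith [mul_pos hepos hT0]
  -- the energy
  obtain ⟨En, hEn⟩ : ∃ En : ℝ → ℝ, En = fun u => u ^ 2 * k1 u ^ 2 + (T ^ 2 - u ^ 2) * k u ^ 2 := ⟨_, rfl⟩
  have hdE : ∀ u : ℝ, 0 < u → HasDerivAt En (-(2 * (u * k u ^ 2))) u := by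
    intro u hu
    rw [hEn]
    have e1 : HasDerivAt (fun u : ℝ => u ^ 2) (2 * u) u := by simpa using hasDerivAt_pow 2 u
    have e2 : HasDerivAt (fun u : ℝ => k u ^ 2) (2 * k u * k1 u) u := by
      have := (hd u hu).pow 2
      refine this.congr_deriv ?_
      push_cast
      ring
    have e3 : HasDerivAt (fun u : ℝ => k1 u ^ 2) (2 * k1 u * k2 u) u := by
      have := (hd1 u hu).pow 2
      refine this.congr_deriv ?_
      push_cast
      ring
    have e4 := (e1.mul e3).add ((e1.const_sub (T ^ 2)).mul e2)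
    refine e4.congr_deriv ?_
    have := heq u hu
    linear_combination (2 * k1 u) * this
  have hexp : Tendsto (fun u : ℝ => u ^ 2 * Real.exp (-u)) atTop (𝓝 0) :=
    Real.tendsto_pow_mul_exp_neg_atTop_nhds_zero 2
  have hlimE : Tendsto En atTop (𝓝 0) := by
    have h3 : Tendsto (fun u : ℝ => (C1 ^ 2 + 8 * T ^ 2 + 8) * (u ^ 2 * Real.exp (-u))) atTop (𝓝 0) := by
      have := hexp.const_mul (C1 ^ 2 + 8 * T ^ 2 + 8)
      rwa [mul_zero] at this
    apply squeeze_zero_norm' _ h3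
    filter_upwards [eventually_ge_atTop 1] with u hu
    rw [hEn, Real.norm_eq_abs]
    have f1 := hb0 u hu
    have f2 := hb1 u hu
    have hx : 0 < Real.exp (-u) := Real.exp_pos _
    have hx1 : Real.exp (-u) ≤ 1 := Real.exp_le_one_iff.2 (by linarith)
    have g1 : k u ^ 2 ≤ 4 * Real.exp (-u) := by
      rw [← sq_abs]
      calc |k u| ^ 2 ≤ (2 * Real.exp (-u)) ^ 2 := by gcongr
        _ = 4 * Real.exp (-u) * Real.exp (-u) := by ring
        _ ≤ 4 * Real.exp (-u) * 1 := by gcongr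
        _ = _ := by ring
    have g2 : k1 u ^ 2 ≤ C1 ^ 2 * Real.exp (-u) := by
      rw [← sq_abs]
      calc |k1 u| ^ 2 ≤ (C1 * Real.exp (-u)) ^ 2 := by gcongr
        _ = C1 ^ 2 * Real.exp (-u) * Real.exp (-u) := by ring
        _ ≤ C1 ^ 2 * Real.exp (-u) * 1 := by gcongr
        _ = _ := by ring
    have hu2 : 1 ≤ u ^ 2 := one_le_pow₀ hu
    refine (abs_add_le _ _).trans ?_
    rw [abs_mul, abs_mul, abs_of_nonneg (sq_nonneg u), abs_of_nonneg (sq_nonneg (k1 u)),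
      abs_of_nonneg (sq_nonneg (k u))]
    have g3 : |T ^ 2 - u ^ 2| ≤ (T ^ 2 + 1) * u ^ 2 := by
      rw [abs_le]
      constructor
      · nlinarith [sq_nonneg T]
      · nlinarith [sq_nonneg T]
    calc u ^ 2 * k1 u ^ 2 + |T ^ 2 - u ^ 2| * k u ^ 2 ≤
          u ^ 2 * (C1 ^ 2 * Real.exp (-u)) + ((T ^ 2 + 1) * u ^ 2) * (4 * Real.exp (-u)) := by
          gcongr
      _ = (C1 ^ 2 + 4 * T ^ 2 + 4) * (u ^ 2 * Real.exp (-u)) := by ring
      _ ≤ _ := by
          apply mul_le_mul_of_nonneg_right _ (by positivity)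
          nlinarith [sq_nonneg T]
  have hint2 : IntegrableOn (fun u => 2 * (u * k u ^ 2)) (Ioi 0) := hint.const_mul 2
  have hEint : ∀ u : ℝ, 0 < u → En u = ∫ v in Ioi u, 2 * (v * k v ^ 2) := by
    intro u hu
    have h3 := integral_Ioi_of_hasDerivAt_of_tendsto' (a := u) (fun v hv => hdE v (hu.trans_le hv))
      ((hint2.mono_set (Ioi_subset_Ioi hu.le)).neg) hlimE
    rw [integral_neg] at h3
    linarith
  have hE0 : ∀ u : ℝ, 0 < u → 0 ≤ En u := by
    intro u hu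
    rw [hEint u hu]
    apply setIntegral_nonneg measurableSet_Ioi
    intro v hv
    have : 0 < v := hu.trans hv
    positivity
  have hE1 : ∀ u : ℝ, 0 < u → En u ≤ E₀ := by
    intro u hu
    rw [hEint u hu, hE₀, ← htot]
    apply setIntegral_mono_set hint2 _ (Ioi_subset_Ioi hu.le).eventuallyLE
    filter_upwards [ae_restrict_mem measurableSet_Ioi] with v hv
    have : 0 < v := hv
    positivity
  -- monotonicity to the right of `T`
  have hP : ∀ u : ℝ, T ≤ u → k u * k1 u ≤ 0 := by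
    have hdP : ∀ u : ℝ, 0 < u → HasDerivAt (fun u => u * (k u * k1 u)) (1 * (k u * k1 u) + u * (k1 u * k1 u + k u * k2 u)) u :=
      fun u hu => (hasDerivAt_id u).mul ((hd u hu).mul (hd1 u hu))
    have hmono : MonotoneOn (fun u => u * (k u * k1 u)) (Ici T) := by
      apply monotoneOn_of_deriv_nonneg (convex_Ici T)
      · intro u hu
        exact (hdP u (hT0.trans_le hu)).continuousAt.continuousWithinAt
      · intro u hu
        rw [interior_Ici] at hu
        exact (hdP u (hT0.trans hu)).differentiableAt.differentiableWithinAt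
      · intro u hu
        rw [interior_Ici] at hu
        have hu0 : 0 < u := hT0.trans hu
        have huT : T < u := hu
        rw [(hdP u hu0).deriv]
        have h3 := heq u hu0
        have h4 : u * (1 * (k u * k1 u) + u * (k1 u * k1 u + k u * k2 u)) =
            u ^ 2 * k1 u ^ 2 + (u ^ 2 - T ^ 2) * k u ^ 2 := by
          linear_combination (k u) * h3
        have h5 : 0 ≤ u ^ 2 * k1 u ^ 2 + (u ^ 2 - T ^ 2) * k u ^ 2 := by
          have : 0 ≤ u ^ 2 - T ^ 2 := by nlinarith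
          positivity
        rw [← h4] at h5
        exact nonneg_of_mul_nonneg_right h5 hu0
    have hlimP : Tendsto (fun u => u * (k u * k1 u)) atTop (𝓝 0) := by
      have h3 : Tendsto (fun u : ℝ => (2 * C1) * (u ^ 2 * Real.exp (-u))) atTop (𝓝 0) := by
        have := hexp.const_mul (2 * C1)
        rwa [mul_zero] at this
      apply squeeze_zero_norm' _ h3
      filter_upwards [eventually_ge_atTop 1] with u hu
      have f1 := hb0 u hu
      have f2 := hb1 u hu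
      have hx1 : Real.exp (-u) ≤ 1 := Real.exp_le_one_iff.2 (by linarith)
      rw [norm_mul, norm_mul, Real.norm_of_nonneg (by linarith : (0 : ℝ) ≤ u), Real.norm_eq_abs, Real.norm_eq_abs]
      calc u * (|k u| * |k1 u|) ≤ u * ((2 * Real.exp (-u)) * (C1 * Real.exp (-u))) := by gcongr
        _ = (2 * C1) * (u * (Real.exp (-u) * Real.exp (-u))) := by ring
        _ ≤ (2 * C1) * (u ^ 2 * (1 * Real.exp (-u))) := by
            gcongr
            nlinarith
        _ = _ := by ring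
    intro u hu
    have h3 : u * (k u * k1 u) ≤ 0 := by
      apply ge_of_tendsto hlimP
      filter_upwards [eventually_ge_atTop u] with v hv
      exact hmono hu (hu.trans hv) hv
    by_contra h4
    push Not at h4
    have : 0 < u := hT0.trans_le hu
    nlinarith [mul_pos this h4]
  have hdk2 : ∀ u : ℝ, 0 < u → HasDerivAt (fun u : ℝ => k u ^ 2) (2 * (k u * k1 u)) u := by
    intro u hu
    have := (hd u hu).pow 2
    refine this.congr_deriv ?_
    push_cast
    ring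
  have hanti : AntitoneOn (fun u => k u ^ 2) (Ici T) := by
    apply antitoneOn_of_deriv_nonpos (convex_Ici T)
    · intro u hu
      exact (hdk2 u (hT0.trans_le hu)).continuousAt.continuousWithinAt
    · intro u hu
      rw [interior_Ici] at hu
      exact (hdk2 u (hT0.trans hu)).differentiableAt.differentiableWithinAt
    · intro u hu
      rw [interior_Ici] at hu
      rw [(hdk2 u (hT0.trans hu)).deriv]
      have := hP u (le_of_lt hu)
      linarith
  refine ⟨E₀, by rw [← he]; exact hM, fun u hu => ?_, fun u hu => ?_, hanti⟩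
  · have := hdE u hu
    rw [hEn] at this
    exact this
  · have h3 := hE0 u hu
    have h4 := hE1 u hu
    rw [hEn] at h3 h4
    exact ⟨h3, h4⟩

/-- the derivative of the energy of Liouville and Green -/
lemma lg_deriv {T u : ℝ} (hu : 0 < u) (huT : u < T) {k k1 : ℝ → ℝ} {k2 : ℝ} (hd : HasDerivAt k (k1 u) u)
    (hd1 : HasDerivAt k1 k2 u) (heq : u ^ 2 * k2 + u * k1 u = (u ^ 2 - T ^ 2) * k u) :
    HasDerivAt (fun u => √(T ^ 2 - u ^ 2) * k u ^ 2 + (u * k1 u - u ^ 2 / (2 * (T ^ 2 - u ^ 2)) * k u) ^ 2 / √(T ^ 2 - u ^ 2))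
      (-(u * (4 * T ^ 2 + u ^ 2) / (2 * √(T ^ 2 - u ^ 2) ^ 5)) * (k u * (u * k1 u - u ^ 2 / (2 * (T ^ 2 - u ^ 2)) * k u))) u := by
  have hQ : 0 < T ^ 2 - u ^ 2 := by nlinarith
  have e1 : HasDerivAt (fun u : ℝ => u ^ 2) (2 * u) u := by simpa using hasDerivAt_pow 2 u
  have eQ : HasDerivAt (fun u : ℝ => T ^ 2 - u ^ 2) (-(2 * u)) u := e1.const_sub (T ^ 2)
  have eS : HasDerivAt (fun u : ℝ => √(T ^ 2 - u ^ 2)) (-(2 * u) / (2 * √(T ^ 2 - u ^ 2))) u := eQ.sqrt hQ.ne'
  have e2 : HasDerivAt (fun u : ℝ => k u ^ 2) (2 * k u * k1 u) u := by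
    have := hd.pow 2
    refine this.congr_deriv ?_
    push_cast
    ring
  have eP : HasDerivAt (fun u : ℝ => u * k1 u) (1 * k1 u + u * k2) u := (hasDerivAt_id u).mul hd1
  have eq : HasDerivAt (fun u : ℝ => u ^ 2 / (2 * (T ^ 2 - u ^ 2)))
      ((2 * u * (2 * (T ^ 2 - u ^ 2)) - u ^ 2 * (2 * -(2 * u))) / (2 * (T ^ 2 - u ^ 2)) ^ 2) u :=
    e1.div (eQ.const_mul 2) (by positivity)
  have ew := eP.sub (eq.mul hd)
  have ew2 := ew.pow 2
  have hS : 0 < √(T ^ 2 - u ^ 2) := Real.sqrt_pos.2 hQ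
  have eF := (eS.mul e2).add (ew2.div eS hS.ne')
  refine eF.congr_deriv ?_
  obtain ⟨S, hSd⟩ : ∃ S, S = √(T ^ 2 - u ^ 2) := ⟨_, rfl⟩
  have hS2 : T ^ 2 - u ^ 2 = S ^ 2 := by rw [hSd, Real.sq_sqrt hQ.le]
  have hT2 : T ^ 2 = S ^ 2 + u ^ 2 := by linarith
  have hk2 : k2 = -(S ^ 2 * k u + u * k1 u) / u ^ 2 := by
    rw [eq_div_iff (by positivity)]
    have : (u ^ 2 - T ^ 2) * k u = -(S ^ 2) * k u := by rw [← hS2]; ring
    rw [this] at heq
    linarith
  rw [← hSd] at hS ⊢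
  simp only [Pi.sub_apply, Pi.mul_apply, Pi.pow_apply, Nat.cast_ofNat, Nat.add_one_sub_one, pow_one]
  rw [hS2, hT2, hk2]
  have hS' := hS.ne'
  have hu' := hu.ne'
  field_simp
  ring

/-- the energy of Liouville and Green -/
noncomputable def FF (T : ℝ) (k k1 : ℝ → ℝ) (u : ℝ) : ℝ :=
  √(T ^ 2 - u ^ 2) * k u ^ 2 + (u * k1 u - u ^ 2 / (2 * (T ^ 2 - u ^ 2)) * k u) ^ 2 / √(T ^ 2 - u ^ 2)

lemma FF_nonneg (T : ℝ) (k k1 : ℝ → ℝ) (u : ℝ) : 0 ≤ FF T k k1 u := by
  unfold FF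
  positivity

lemma lg_bound {T a b : ℝ} (ha : 0 < a) (hab : a ≤ b) (hb : b < T) (hbS : T ^ 2 ≤ √(T ^ 2 - b ^ 2) ^ 3)
    {k k1 k2 : ℝ → ℝ} (hd : ∀ u : ℝ, 0 < u → HasDerivAt k (k1 u) u) (hd1 : ∀ u : ℝ, 0 < u → HasDerivAt k1 (k2 u) u)
    (heq : ∀ u : ℝ, 0 < u → u ^ 2 * k2 u + u * k1 u = (u ^ 2 - T ^ 2) * k u) :
    FF T k k1 b ≤ 12 / 7 * FF T k k1 a := by
  have hT0 : 0 < T := by linarith
  have hSb : ∀ u ∈ Icc a b, 0 < √(T ^ 2 - u ^ 2) ∧ T ^ 2 ≤ √(T ^ 2 - u ^ 2) ^ 3 := by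
    intro u hu
    have hu0 : 0 < u := ha.trans_le hu.1
    have h1 : 0 < T ^ 2 - u ^ 2 := by nlinarith [hu.2]
    refine ⟨Real.sqrt_pos.2 h1, hbS.trans ?_⟩
    have h2 : √(T ^ 2 - b ^ 2) ≤ √(T ^ 2 - u ^ 2) := Real.sqrt_le_sqrt (by nlinarith [hu.2])
    exact pow_le_pow_left₀ (Real.sqrt_nonneg _) h2 3
  have hdΦ : ∀ u : ℝ, 0 < u → u < T → HasDerivAt (fun u : ℝ => 5 * T ^ 2 / (12 * √(T ^ 2 - u ^ 2) ^ 3))
      (5 * T ^ 2 * u / (4 * √(T ^ 2 - u ^ 2) ^ 5)) u := by
    intro u hu huT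
    have hQ : 0 < T ^ 2 - u ^ 2 := by nlinarith
    have e1 : HasDerivAt (fun u : ℝ => u ^ 2) (2 * u) u := by simpa using hasDerivAt_pow 2 u
    have eQ : HasDerivAt (fun u : ℝ => T ^ 2 - u ^ 2) (-(2 * u)) u := e1.const_sub (T ^ 2)
    have eS : HasDerivAt (fun u : ℝ => √(T ^ 2 - u ^ 2)) (-(2 * u) / (2 * √(T ^ 2 - u ^ 2))) u := eQ.sqrt hQ.ne'
    have hS : 0 < √(T ^ 2 - u ^ 2) := Real.sqrt_pos.2 hQ
    have hne : (12 : ℝ) * √(T ^ 2 - u ^ 2) ^ 3 ≠ 0 := by positivity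
    have e3 := (hasDerivAt_const u (5 * T ^ 2)).div ((eS.pow 3).const_mul 12) hne
    refine e3.congr_deriv ?_
    simp only [Pi.pow_apply, Nat.cast_ofNat, Nat.add_one_sub_one]
    have hS' := hS.ne'
    field_simp
    ring
  have hmono : AntitoneOn (fun u => FF T k k1 u * (1 - 5 * T ^ 2 / (12 * √(T ^ 2 - u ^ 2) ^ 3))) (Icc a b) := by
    have hdG : ∀ u ∈ Icc a b, HasDerivAt (fun u => FF T k k1 u * (1 - 5 * T ^ 2 / (12 * √(T ^ 2 - u ^ 2) ^ 3)))
        ((-(u * (4 * T ^ 2 + u ^ 2) / (2 * √(T ^ 2 - u ^ 2) ^ 5)) * (k u * (u * k1 u - u ^ 2 / (2 * (T ^ 2 - u ^ 2)) * k u))) *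
          (1 - 5 * T ^ 2 / (12 * √(T ^ 2 - u ^ 2) ^ 3)) +
          FF T k k1 u * (-(5 * T ^ 2 * u / (4 * √(T ^ 2 - u ^ 2) ^ 5)))) u := by
      intro u hu
      have hu0 : 0 < u := ha.trans_le hu.1
      have huT : u < T := hu.2.trans_lt hb
      have h1 := lg_deriv hu0 huT (hd u hu0) (hd1 u hu0) (heq u hu0)
      exact HasDerivAt.mul (c := FF T k k1) h1 ((hdΦ u hu0 huT).const_sub 1)
    apply antitoneOn_of_deriv_nonpos (convex_Icc a b)
    · intro u hu
      exact (hdG u hu).continuousAt.continuousWithinAt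
    · intro u hu
      rw [interior_Icc] at hu
      exact (hdG u (Ioo_subset_Icc_self hu)).differentiableAt.differentiableWithinAt
    · intro u hu
      rw [interior_Icc] at hu
      have hu' : u ∈ Icc a b := Ioo_subset_Icc_self hu
      rw [(hdG u hu').deriv]
      obtain ⟨hS, hS3⟩ := hSb u hu'
      have hu0 : 0 < u := ha.trans_le hu'.1
      have huT : u < T := hu'.2.trans_lt hb
      obtain ⟨S, hSd⟩ : ∃ S, S = √(T ^ 2 - u ^ 2) := ⟨_, rfl⟩
      obtain ⟨w, hw⟩ : ∃ w, w = u * k1 u - u ^ 2 / (2 * (T ^ 2 - u ^ 2)) * k u := ⟨_, rfl⟩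
      have hF : FF T k k1 u = S * k u ^ 2 + w ^ 2 / S := by
        unfold FF
        rw [hSd, hw]
      rw [← hw, ← hSd]
      rw [← hSd] at hS hS3
      have hF0 := FF_nonneg T k k1 u
      obtain ⟨F, hFd⟩ : ∃ F, F = FF T k k1 u := ⟨_, rfl⟩
      rw [← hFd] at hF hF0 ⊢
      obtain ⟨Φ, hΦ⟩ : ∃ Φ, Φ = 5 * T ^ 2 / (12 * S ^ 3) := ⟨_, rfl⟩
      obtain ⟨Ψ, hΨ⟩ : ∃ Ψ, Ψ = 5 * T ^ 2 * u / (4 * S ^ 5) := ⟨_, rfl⟩
      rw [← hΦ, ← hΨ]
      have hΦ0 : 0 ≤ Φ := by rw [hΦ]; positivity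
      have hΦ1 : Φ ≤ 1 := by
        rw [hΦ, div_le_one (by positivity)]
        linarith [sq_nonneg T]
      have hΨ0 : 0 ≤ Ψ := by rw [hΨ]; positivity
      have hkw : -(k u * w) ≤ F / 2 := by
        have h1 : 0 ≤ (S * k u + w) ^ 2 / S := by positivity
        have h2 : (S * k u + w) ^ 2 / S = S * k u ^ 2 + w ^ 2 / S + 2 * (k u * w) := by
          field_simp
          ring
        rw [h2, ← hF] at h1
        linarith
      have hc : u * (4 * T ^ 2 + u ^ 2) / (2 * S ^ 5) ≤ 2 * Ψ := by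
        have h1 : 2 * Ψ = u * (5 * T ^ 2) / (2 * S ^ 5) := by
          rw [hΨ]
          field_simp
          ring
        rw [h1]
        apply div_le_div_of_nonneg_right _ (by positivity)
        apply mul_le_mul_of_nonneg_left _ hu0.le
        nlinarith
      have hc0 : 0 ≤ u * (4 * T ^ 2 + u ^ 2) / (2 * S ^ 5) := by positivity
      have hF' : -(u * (4 * T ^ 2 + u ^ 2) / (2 * S ^ 5)) * (k u * w) ≤ Ψ * F := by
        have h1 : -(u * (4 * T ^ 2 + u ^ 2) / (2 * S ^ 5)) * (k u * w) = u * (4 * T ^ 2 + u ^ 2) / (2 * S ^ 5) * (-(k u * w)) := by ring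
        rw [h1]
        calc u * (4 * T ^ 2 + u ^ 2) / (2 * S ^ 5) * (-(k u * w)) ≤ u * (4 * T ^ 2 + u ^ 2) / (2 * S ^ 5) * (F / 2) :=
              mul_le_mul_of_nonneg_left hkw hc0
          _ ≤ 2 * Ψ * (F / 2) := mul_le_mul_of_nonneg_right hc (by positivity)
          _ = Ψ * F := by ring
      have h3 := mul_le_mul_of_nonneg_right hF' (sub_nonneg.2 hΦ1)
      have h4 : 0 ≤ Φ * (Ψ * F) := by positivity
      nlinarith
  have h1 := hmono (left_mem_Icc.2 hab) (right_mem_Icc.2 hab) hab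
  simp only at h1
  obtain ⟨hSa, hSa3⟩ := hSb a (left_mem_Icc.2 hab)
  obtain ⟨hSb', -⟩ := hSb b (right_mem_Icc.2 hab)
  have h2 : 5 * T ^ 2 / (12 * √(T ^ 2 - b ^ 2) ^ 3) ≤ 5 / 12 := by
    rw [div_le_div_iff₀ (by positivity) (by norm_num)]
    nlinarith
  have h3 : 0 ≤ 5 * T ^ 2 / (12 * √(T ^ 2 - a ^ 2) ^ 3) := by positivity
  have h4 := FF_nonneg T k k1 a
  have h5 := FF_nonneg T k k1 b
  have h6 : FF T k k1 b * (7 / 12) ≤ FF T k k1 b * (1 - 5 * T ^ 2 / (12 * √(T ^ 2 - b ^ 2) ^ 3)) :=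
    mul_le_mul_of_nonneg_left (by linarith) h5
  have h7 : FF T k k1 a * (1 - 5 * T ^ 2 / (12 * √(T ^ 2 - a ^ 2) ^ 3)) ≤ FF T k k1 a * 1 :=
    mul_le_mul_of_nonneg_left (by linarith) h4
  linarith

/-- Job KW. -/
theorem kw (h1 : S_KODE) (h2 : S_KINT) (h3 : S_KBB) : S_KW := by
  obtain ⟨C0, hC0, hKBB⟩ := h3
  refine ⟨3000 + 2 * C0, by positivity, fun T u hT hu => ?_⟩
  have hT0 : 0 < T := by linarith
  have hx0 := abs_nonneg (T - u)
  rw [le_div_iff₀ (Real.sqrt_pos.2 (by positivity))]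
  rcases lt_or_ge T 2 with hT2 | hT2
  · -- small `T`
    have h4 := (hKBB T hT).1 u hu
    have h5 : √(T * (1 + |T - u|)) ≤ 2 * (1 + |T - u|) := by
      rw [Real.sqrt_le_left (by positivity)]
      nlinarith
    calc Real.exp (Real.pi * T) * KB T u ^ 2 * √(T * (1 + |T - u|)) ≤ C0 / (1 + |T - u|) * (2 * (1 + |T - u|)) :=
          mul_le_mul h4 h5 (Real.sqrt_nonneg _) (by positivity)
      _ = 2 * C0 := by field_simp
      _ ≤ _ := by linarith
  · -- large `T`
    suffices hmain : Real.exp (Real.pi * T) * KB T u ^ 2 * √(T * (1 + |T - u|)) ≤ 3000 by linarith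
    obtain ⟨E₀, hM, hdE, hEE, hanti⟩ := energy h1 h2 hT
    obtain ⟨hode, -, -⟩ := h1
    obtain ⟨k, hk⟩ : ∃ k : ℝ → ℝ, k = KB T := ⟨_, rfl⟩
    obtain ⟨k1, hk1⟩ : ∃ k1 : ℝ → ℝ, k1 = KB1 T := ⟨_, rfl⟩
    obtain ⟨k2, hk2⟩ : ∃ k2 : ℝ → ℝ, k2 = KB2 T := ⟨_, rfl⟩
    have hd : ∀ u : ℝ, 0 < u → HasDerivAt k (k1 u) u := fun u hu => by
      rw [hk, hk1]; exact (hode T u hu).1
    have hd1 : ∀ u : ℝ, 0 < u → HasDerivAt k1 (k2 u) u := fun u hu => by
      rw [hk1, hk2]; exact (hode T u hu).2.1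
    have heq : ∀ u : ℝ, 0 < u → u ^ 2 * k2 u + u * k1 u = (u ^ 2 - T ^ 2) * k u := fun u hu => by
      rw [hk, hk1, hk2]; exact (hode T u hu).2.2
    rw [← hk, ← hk1] at hdE hEE
    rw [← hk] at hanti ⊢
    obtain ⟨s, hs⟩ : ∃ s, s = Real.exp (Real.pi * T / 2) := ⟨_, rfl⟩
    have hs0 : 0 < s := by rw [hs]; exact Real.exp_pos _
    obtain ⟨e, he⟩ : ∃ e, e = Real.exp (Real.pi * T) := ⟨_, rfl⟩
    have hepos : 0 < e := by rw [he]; exact Real.exp_pos _
    have hse : s ^ 2 = e := by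
      rw [hs, he, ← Real.exp_nat_mul]
      congr 1
      push_cast
      ring
    rw [← he] at hM ⊢
    -- the cube root
    obtain ⟨τ, hτd⟩ : ∃ τ, τ = T ^ (1 / 3 : ℝ) := ⟨_, rfl⟩
    have hτ0 : 0 < τ := by rw [hτd]; exact Real.rpow_pos_of_pos hT0 _
    have hτ3 : τ ^ 3 = T := by
      rw [hτd, ← Real.rpow_natCast, ← Real.rpow_mul hT0.le]
      norm_num
    have hτ2 : 4 / 3 ≤ τ ^ 2 := by
      by_contra hcon
      push Not at hcon
      have h4 : 2 ≤ τ * τ ^ 2 := by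
        have : τ * τ ^ 2 = τ ^ 3 := by ring
        rw [this, hτ3]; exact hT2
      have h5 : τ * τ ^ 2 < τ * (4 / 3) := mul_lt_mul_of_pos_left hcon hτ0
      nlinarith
    have hτ1 : 1 ≤ τ := by nlinarith
    -- the energy
    have hE1 : ∀ u : ℝ, 0 < u → (T ^ 2 - u ^ 2) * k u ^ 2 ≤ E₀ := by
      intro u hu
      have := (hEE u hu).2
      nlinarith [sq_nonneg (u * k1 u)]
    have hEanti : ∀ a b : ℝ, 0 < a → a ≤ b → b ^ 2 * k1 b ^ 2 + (T ^ 2 - b ^ 2) * k b ^ 2 ≤
        a ^ 2 * k1 a ^ 2 + (T ^ 2 - a ^ 2) * k a ^ 2 := by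
      intro a b ha hab
      have hmono : AntitoneOn (fun u => u ^ 2 * k1 u ^ 2 + (T ^ 2 - u ^ 2) * k u ^ 2) (Icc a b) := by
        apply antitoneOn_of_deriv_nonpos (convex_Icc a b)
        · intro v hv
          exact (hdE v (ha.trans_le hv.1)).continuousAt.continuousWithinAt
        · intro v hv
          rw [interior_Icc] at hv
          exact (hdE v (ha.trans hv.1)).differentiableAt.differentiableWithinAt
        · intro v hv
          rw [interior_Icc] at hv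
          have hv0 : 0 < v := ha.trans hv.1
          rw [(hdE v hv0).deriv]
          have : 0 ≤ v * k v ^ 2 := by positivity
          linarith
      exact hmono (left_mem_Icc.2 hab) (right_mem_Icc.2 hab) hab
    -- the value at `T / 2`
    have hFa : e * FF T k k1 (T / 2) ≤ 35 := by
      obtain ⟨S, hSd⟩ : ∃ S, S = √(T ^ 2 - (T / 2) ^ 2) := ⟨_, rfl⟩
      have hQ : T ^ 2 - (T / 2) ^ 2 = 3 / 4 * T ^ 2 := by ring
      have hS2 : S ^ 2 = 3 / 4 * T ^ 2 := by rw [hSd, Real.sq_sqrt (by rw [hQ]; positivity), hQ]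
      have hS0 : 0 < S := by rw [hSd]; exact Real.sqrt_pos.2 (by rw [hQ]; positivity)
      have hS1 : 4 / 5 * T ≤ S := by
        rw [hSd]
        apply Real.le_sqrt_of_sq_le
        nlinarith
      have h4 := (hEE (T / 2) (by positivity)).2
      rw [hQ, ← hS2] at h4
      have hq : (T / 2) ^ 2 / (2 * (T ^ 2 - (T / 2) ^ 2)) = 1 / 6 := by
        rw [hQ]
        field_simp
        norm_num
      have h5 : S * FF T k k1 (T / 2) = S ^ 2 * k (T / 2) ^ 2 + (T / 2 * k1 (T / 2) - 1 / 6 * k (T / 2)) ^ 2 := by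
        unfold FF
        rw [← hSd, hq]
        field_simp
      have h6 : S * FF T k k1 (T / 2) ≤ 2 * E₀ := by
        rw [h5]
        have h7 : k (T / 2) ^ 2 ≤ S ^ 2 * k (T / 2) ^ 2 := by
          apply le_mul_of_one_le_left (sq_nonneg _)
          rw [hS2]
          nlinarith
        nlinarith only [h4, h7, sq_nonneg (T / 2 * k1 (T / 2) + 1 / 6 * k (T / 2))]
      have h7 : e * (S * FF T k k1 (T / 2)) ≤ 26 * T := by
        have := mul_le_mul_of_nonneg_left h6 hepos.le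
        nlinarith only [this, hM]
      have h8 : 0 ≤ e * FF T k k1 (T / 2) := mul_nonneg hepos.le (FF_nonneg _ _ _ _)
      have h9 : (4 / 5 * T) * (e * FF T k k1 (T / 2)) ≤ 26 * T := by
        calc (4 / 5 * T) * (e * FF T k k1 (T / 2)) ≤ S * (e * FF T k k1 (T / 2)) := mul_le_mul_of_nonneg_right hS1 h8
          _ = e * (S * FF T k k1 (T / 2)) := by ring
          _ ≤ _ := h7
      nlinarith only [h9, hT0]
    have hF : ∀ b : ℝ, T / 2 ≤ b → b < T → T ^ 2 ≤ √(T ^ 2 - b ^ 2) ^ 3 → e * FF T k k1 b ≤ 60 := by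
      intro b hb1 hb2 hb3
      have h4 := lg_bound (by positivity : 0 < T / 2) hb1 hb2 hb3 hd hd1 heq
      have h5 := mul_le_mul_of_nonneg_left h4 hepos.le
      nlinarith only [h5, hFa]
    -- the end of the first range
    obtain ⟨u₁, hu₁⟩ : ∃ u₁, u₁ = τ ^ 2 * √(τ ^ 2 - 1) := ⟨_, rfl⟩
    have hτ21 : 0 < τ ^ 2 - 1 := by linarith
    have hu₁2 : u₁ ^ 2 = T ^ 2 - τ ^ 4 := by
      rw [hu₁, mul_pow, Real.sq_sqrt hτ21.le, ← hτ3]
      ring
    have hu₁0 : 0 < u₁ := by rw [hu₁]; exact mul_pos (by positivity) (Real.sqrt_pos.2 hτ21)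
    have hu₁T : u₁ < T := by
      have : 0 < τ ^ 4 := by positivity
      nlinarith only [this, hu₁2, hT0, hu₁0]
    have hu₁h : T / 2 ≤ u₁ := by
      have h4 : (T / 2) ^ 2 ≤ u₁ ^ 2 := by
        rw [hu₁2]
        have h5 : T ^ 2 = τ ^ 4 * τ ^ 2 := by rw [← hτ3]; ring
        have h6 : 0 < τ ^ 4 := by positivity
        nlinarith only [h5, mul_le_mul_of_nonneg_left hτ2 h6.le]
      exact (pow_le_pow_iff_left₀ (by positivity) hu₁0.le two_ne_zero).1 h4
    have hτ4 : T ^ 2 - u₁ ^ 2 = (τ ^ 2) ^ 2 := by rw [hu₁2]; ring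
    have hS1 : √(T ^ 2 - u₁ ^ 2) = τ ^ 2 := by
      rw [hτ4, Real.sqrt_sq (by positivity)]
    have hdist : T - u₁ ≤ τ := by
      have h4 : (T - u₁) * (T + u₁) = τ * T := by
        have : (T - u₁) * (T + u₁) = T ^ 2 - u₁ ^ 2 := by ring
        rw [this, hτ4, ← hτ3]
        ring
      have h5 : (T - u₁) * T ≤ τ * T := by
        have h6 : 0 ≤ (T - u₁) * u₁ := mul_nonneg (by linarith) hu₁0.le
        linarith
      exact le_of_mul_le_mul_right h5 hT0
    -- region 2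
    have hreg2 : ∀ u : ℝ, T / 2 ≤ u → u ≤ u₁ → e * k u ^ 2 * √(T * (1 + |T - u|)) ≤ 120 := by
      intro u hu1 hu2
      have huT : u < T := hu2.trans_lt hu₁T
      have hu0 : 0 < u := by linarith
      have hQ : 0 < T ^ 2 - u ^ 2 := by nlinarith
      have hS : 0 < √(T ^ 2 - u ^ 2) := Real.sqrt_pos.2 hQ
      have hSτ : τ ^ 2 ≤ √(T ^ 2 - u ^ 2) := by
        rw [← hS1]
        exact Real.sqrt_le_sqrt (by nlinarith)
      have hS2 : √(T ^ 2 - u ^ 2) ^ 2 = T ^ 2 - u ^ 2 := Real.sq_sqrt hQ.le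
      have h4 : T ^ 2 ≤ √(T ^ 2 - u ^ 2) ^ 3 := by
        have h5 : T ^ 2 = (τ ^ 2) ^ 3 := by rw [← hτ3]; ring
        exact h5.le.trans (pow_le_pow_left₀ (by positivity) hSτ 3)
      have h5 := hF u hu1 huT h4
      have h6 : √(T ^ 2 - u ^ 2) * k u ^ 2 ≤ FF T k k1 u := by
        unfold FF
        have : 0 ≤ (u * k1 u - u ^ 2 / (2 * (T ^ 2 - u ^ 2)) * k u) ^ 2 / √(T ^ 2 - u ^ 2) := by positivity
        linarith
      have h7 : √(T * (1 + |T - u|)) ≤ 2 * √(T ^ 2 - u ^ 2) := by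
        rw [Real.sqrt_le_left (by positivity), mul_pow, hS2, abs_of_pos (by linarith)]
        have h8 : T ^ 2 - u ^ 2 = (T - u) * (T + u) := by ring
        have h9 : τ * T ≤ (T - u) * (2 * T) := by
          have h10 : τ * T = (τ ^ 2) ^ 2 := by
            rw [← hτ3]
            ring
          have h11 : (τ ^ 2) ^ 2 ≤ T ^ 2 - u ^ 2 := by
            rw [← hS2]
            exact pow_le_pow_left₀ (by positivity) hSτ 2
          rw [h10]
          refine h11.trans ?_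
          rw [h8]
          exact mul_le_mul_of_nonneg_left (by linarith) (by linarith)
        have h10 : 1 / 2 ≤ T - u := by
          have h11 : τ ≤ (T - u) * 2 := by
            apply le_of_mul_le_mul_right _ hT0
            linarith
          linarith
        rw [h8]
        nlinarith only [h10, hT0, hu0, mul_le_mul_of_nonneg_left h10 hT0.le, mul_pos hu0 (by linarith : 0 < T - u)]
      calc e * k u ^ 2 * √(T * (1 + |T - u|)) ≤ e * k u ^ 2 * (2 * √(T ^ 2 - u ^ 2)) :=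
            mul_le_mul_of_nonneg_left h7 (by positivity)
        _ = 2 * (e * (√(T ^ 2 - u ^ 2) * k u ^ 2)) := by ring
        _ ≤ 2 * (e * FF T k k1 u) := by
            have := mul_le_mul_of_nonneg_left h6 hepos.le
            linarith
        _ ≤ _ := by linarith
    -- the energy at the end of the first range
    have hF1 := hF u₁ hu₁h hu₁T (by rw [hS1, ← hτ3]; apply le_of_eq; ring)
    have hk1a : e * k u₁ ^ 2 * τ ^ 2 ≤ 60 := by
      have h6 : τ ^ 2 * k u₁ ^ 2 ≤ FF T k k1 u₁ := by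
        unfold FF
        rw [hS1]
        have : 0 ≤ (u₁ * k1 u₁ - u₁ ^ 2 / (2 * (T ^ 2 - u₁ ^ 2)) * k u₁) ^ 2 / τ ^ 2 := by positivity
        linarith
      have := mul_le_mul_of_nonneg_left h6 hepos.le
      linarith
    have hEn1 : e * (u₁ ^ 2 * k1 u₁ ^ 2 + (T ^ 2 - u₁ ^ 2) * k u₁ ^ 2) ≤ 225 * τ ^ 2 := by
      obtain ⟨q, hq⟩ : ∃ q, q = u₁ ^ 2 / (2 * (T ^ 2 - u₁ ^ 2)) := ⟨_, rfl⟩
      obtain ⟨w, hw⟩ : ∃ w, w = u₁ * k1 u₁ - q * k u₁ := ⟨_, rfl⟩
      have hq0 : 0 ≤ q := by rw [hq, hτ4]; positivity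
      have hq1 : q ≤ τ ^ 2 / 2 := by
        rw [hq, hτ4, div_le_div_iff₀ (by positivity) (by norm_num), hu₁2, ← hτ3]
        nlinarith only [sq_nonneg (τ ^ 2), pow_pos hτ0 6]
      have h6 : w ^ 2 / τ ^ 2 ≤ FF T k k1 u₁ := by
        unfold FF
        rw [hS1, ← hq, ← hw]
        have : 0 ≤ τ ^ 2 * k u₁ ^ 2 := by positivity
        linarith
      have h7 : e * w ^ 2 ≤ 60 * τ ^ 2 := by
        rw [div_le_iff₀ (by positivity)] at h6
        have := mul_le_mul_of_nonneg_left h6 hepos.le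
        have h8 : e * (FF T k k1 u₁ * τ ^ 2) ≤ 60 * τ ^ 2 := by
          rw [← mul_assoc]
          exact mul_le_mul_of_nonneg_right hF1 (by positivity)
        linarith
      have h8 : u₁ ^ 2 * k1 u₁ ^ 2 ≤ 2 * w ^ 2 + 2 * (q ^ 2 * k u₁ ^ 2) := by
        have h9 : u₁ * k1 u₁ = w + q * k u₁ := by rw [hw]; ring
        rw [← mul_pow, h9]
        nlinarith only [sq_nonneg (w - q * k u₁)]
      have h9 : q ^ 2 * k u₁ ^ 2 ≤ (τ ^ 2 / 2) ^ 2 * k u₁ ^ 2 :=
        mul_le_mul_of_nonneg_right (pow_le_pow_left₀ hq0 hq1 2) (sq_nonneg _)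
      have h10 : e * k u₁ ^ 2 * τ ^ 2 * τ ^ 2 ≤ 60 * τ ^ 2 := mul_le_mul_of_nonneg_right hk1a (by positivity)
      rw [hτ4]
      have h11 : u₁ ^ 2 * k1 u₁ ^ 2 + (τ ^ 2) ^ 2 * k u₁ ^ 2 ≤ 2 * w ^ 2 + 3 / 2 * ((τ ^ 2) ^ 2 * k u₁ ^ 2) := by
        nlinarith only [h8, h9]
      have h12 := mul_le_mul_of_nonneg_left h11 hepos.le
      have h13 : e * (2 * w ^ 2 + 3 / 2 * ((τ ^ 2) ^ 2 * k u₁ ^ 2)) = 2 * (e * w ^ 2) + 3 / 2 * (e * k u₁ ^ 2 * τ ^ 2 * τ ^ 2) := by ring
      rw [h13] at h12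
      have : 0 ≤ τ ^ 2 := by positivity
      linarith
    have hEn : ∀ u : ℝ, u₁ ≤ u → e * (u ^ 2 * k1 u ^ 2 + (T ^ 2 - u ^ 2) * k u ^ 2) ≤ 225 * τ ^ 2 := by
      intro u hu
      exact (mul_le_mul_of_nonneg_left (hEanti u₁ u hu₁0 hu) hepos.le).trans hEn1
    have hs1 : s * |k u₁| ≤ 8 / τ := by
      rw [le_div_iff₀ hτ0]
      refine (pow_le_pow_iff_left₀ (by positivity) (by norm_num) two_ne_zero).1 ?_
      rw [mul_pow, mul_pow, sq_abs, hse]
      linarith
    have hk1b : ∀ u ∈ Icc u₁ T, |k1 u| ≤ 30 / (s * τ ^ 2) := by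
      intro u hu
      have hu0 : 0 < u := hu₁0.trans_le hu.1
      have h4 := hEn u hu.1
      have h5 : 0 ≤ (T ^ 2 - u ^ 2) * k u ^ 2 := by
        have : 0 ≤ T ^ 2 - u ^ 2 := by nlinarith [hu.2]
        positivity
      have h6 : e * (u ^ 2 * k1 u ^ 2) ≤ 225 * τ ^ 2 := by
        have h7 := mul_nonneg hepos.le h5
        rw [mul_add] at h4
        linarith
      have h7 : s * (u * |k1 u|) ≤ 15 * τ := by
        refine (pow_le_pow_iff_left₀ (by positivity) (by positivity) two_ne_zero).1 ?_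
        have e1 : (s * (u * |k1 u|)) ^ 2 = e * (u ^ 2 * k1 u ^ 2) := by rw [mul_pow, mul_pow, sq_abs, hse]
        have e2 : (15 * τ) ^ 2 = 225 * τ ^ 2 := by ring
        rw [e1, e2]
        exact h6
      have h8 : s * (T / 2 * |k1 u|) ≤ 15 * τ := by
        refine le_trans ?_ h7
        apply mul_le_mul_of_nonneg_left _ hs0.le
        apply mul_le_mul_of_nonneg_right _ (abs_nonneg _)
        linarith [hu.1]
      rw [le_div_iff₀ (by positivity)]
      have h9 : |k1 u| * (s * τ ^ 2) * τ ≤ 30 * τ := by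
        have h10 : |k1 u| * (s * τ ^ 2) * τ = s * (T * |k1 u|) := by rw [← hτ3]; ring
        rw [h10]
        linarith
      exact le_of_mul_le_mul_right h9 hτ0
    have hreg3 : ∀ u : ℝ, u₁ ≤ u → e * k u ^ 2 * τ ^ 2 ≤ 1444 := by
      have hmid : ∀ u : ℝ, u₁ ≤ u → u ≤ T → e * k u ^ 2 * τ ^ 2 ≤ 1444 := by
        intro u hu1 hu2
        have h4 := Convex.norm_image_sub_le_of_norm_hasDerivWithin_le (f := k) (f' := k1) (C := 30 / (s * τ ^ 2))
          (s := Icc u₁ T) (x := u₁) (y := u) (fun x hx => (hd x (hu₁0.trans_le hx.1)).hasDerivWithinAt)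
          (fun x hx => by rw [Real.norm_eq_abs]; exact hk1b x hx) (convex_Icc _ _) (left_mem_Icc.2 hu₁T.le) ⟨hu1, hu2⟩
        rw [Real.norm_eq_abs, Real.norm_eq_abs, abs_of_nonneg (by linarith : 0 ≤ u - u₁)] at h4
        have h5 : s * |k u - k u₁| ≤ 30 / τ := by
          calc s * |k u - k u₁| ≤ s * (30 / (s * τ ^ 2) * (u - u₁)) := mul_le_mul_of_nonneg_left h4 hs0.le
            _ ≤ s * (30 / (s * τ ^ 2) * τ) := by
                apply mul_le_mul_of_nonneg_left _ hs0.le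
                apply mul_le_mul_of_nonneg_left _ (by positivity)
                linarith
            _ = 30 / τ := by field_simp
        have h6 : |k u| ≤ |k u - k u₁| + |k u₁| := by
          have := abs_add_le (k u - k u₁) (k u₁)
          rwa [sub_add_cancel] at this
        have h7 : s * |k u| * τ ≤ 38 := by
          have h8 : s * |k u| ≤ 38 / τ := by
            calc s * |k u| ≤ s * (|k u - k u₁| + |k u₁|) := mul_le_mul_of_nonneg_left h6 hs0.le
              _ = s * |k u - k u₁| + s * |k u₁| := by ring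
              _ ≤ 30 / τ + 8 / τ := add_le_add h5 hs1
              _ = 38 / τ := by ring
          rwa [le_div_iff₀ hτ0] at h8
        have h8 := pow_le_pow_left₀ (by positivity) h7 2
        rw [mul_pow, mul_pow, sq_abs, hse] at h8
        linarith
      intro u hu
      rcases le_total u T with h4 | h4
      · exact hmid u hu h4
      · have h5 : k u ^ 2 ≤ k T ^ 2 := hanti (mem_Ici.2 le_rfl) h4 h4
        have h6 := hmid T hu₁T.le le_rfl
        refine le_trans ?_ h6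
        exact mul_le_mul_of_nonneg_right (mul_le_mul_of_nonneg_left h5 hepos.le) (by positivity)
    -- the right side
    have hright : ∀ u : ℝ, T ≤ u → e * ((u ^ 2 - T ^ 2) * k u ^ 2) ≤ 225 * τ ^ 2 := by
      intro u hu
      have hdG : ∀ v : ℝ, 0 < v → HasDerivAt (fun v => (v ^ 2 * k1 v ^ 2 + (T ^ 2 - v ^ 2) * k v ^ 2) + v ^ 2 * k u ^ 2)
          (-(2 * (v * k v ^ 2)) + 2 * v * k u ^ 2) v := by
        intro v hv
        have e1 : HasDerivAt (fun v : ℝ => v ^ 2) (2 * v) v := by simpa using hasDerivAt_pow 2 v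
        exact (hdE v hv).add (e1.mul_const _)
      have hG : AntitoneOn (fun v => (v ^ 2 * k1 v ^ 2 + (T ^ 2 - v ^ 2) * k v ^ 2) + v ^ 2 * k u ^ 2) (Icc T u) := by
        apply antitoneOn_of_deriv_nonpos (convex_Icc T u)
        · intro v hv
          exact (hdG v (hT0.trans_le hv.1)).continuousAt.continuousWithinAt
        · intro v hv
          rw [interior_Icc] at hv
          exact (hdG v (hT0.trans hv.1)).differentiableAt.differentiableWithinAt
        · intro v hv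
          rw [interior_Icc] at hv
          have hv0 : 0 < v := hT0.trans hv.1
          rw [(hdG v hv0).deriv]
          have h3 : k u ^ 2 ≤ k v ^ 2 := hanti hv.1.le hu hv.2.le
          nlinarith only [h3, hv0, mul_le_mul_of_nonneg_left h3 hv0.le]
      have h3 := hG (left_mem_Icc.2 hu) (right_mem_Icc.2 hu) hu
      simp only at h3
      have h4 := (hEE u (hT0.trans_le hu)).1
      have h5 := hEn T hu₁T.le
      have h6 : (u ^ 2 - T ^ 2) * k u ^ 2 ≤ T ^ 2 * k1 T ^ 2 + (T ^ 2 - T ^ 2) * k T ^ 2 := by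
        nlinarith only [h3, h4]
      exact (mul_le_mul_of_nonneg_left h6 hepos.le).trans h5
    -- the conclusion
    rcases lt_or_ge u (T / 2) with hc1 | hc1
    · have h4 := hE1 u hu
      have h5 : e * k u ^ 2 * T ≤ 18 := by
        have h6 : 3 / 4 * T ^ 2 * k u ^ 2 ≤ E₀ := by
          refine le_trans (mul_le_mul_of_nonneg_right ?_ (sq_nonneg _)) h4
          nlinarith only [hc1, hu, hT0]
        have h7 := mul_le_mul_of_nonneg_left h6 hepos.le
        have h8 : (e * k u ^ 2 * T) * T ≤ 18 * T := by nlinarith only [h7, hM, hT0]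
        exact le_of_mul_le_mul_right h8 hT0
      have h6 : √(T * (1 + |T - u|)) ≤ 2 * T := by
        rw [Real.sqrt_le_left (by positivity), abs_of_pos (by linarith)]
        nlinarith only [hT0, hT2, hu]
      calc e * k u ^ 2 * √(T * (1 + |T - u|)) ≤ e * k u ^ 2 * (2 * T) := mul_le_mul_of_nonneg_left h6 (by positivity)
        _ = 2 * (e * k u ^ 2 * T) := by ring
        _ ≤ _ := by linarith
    · rcases le_total u u₁ with hc2 | hc2
      · linarith [hreg2 u hc1 hc2]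
      · rcases le_total (u - T) τ with hc3 | hc3
        · have h4 := hreg3 u hc2
          have h5 : |T - u| ≤ τ := by
            rw [abs_le]
            constructor <;> linarith
          have h6 : √(T * (1 + |T - u|)) ≤ 2 * τ ^ 2 := by
            rw [Real.sqrt_le_left (by positivity)]
            have h7 : T * (1 + |T - u|) ≤ τ ^ 3 * (2 * τ) := by
              rw [hτ3]
              exact mul_le_mul_of_nonneg_left (by linarith) hT0.le
            have h8 : 0 < τ ^ 4 := by positivity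
            nlinarith only [h7, h8]
          calc e * k u ^ 2 * √(T * (1 + |T - u|)) ≤ e * k u ^ 2 * (2 * τ ^ 2) := mul_le_mul_of_nonneg_left h6 (by positivity)
            _ = 2 * (e * k u ^ 2 * τ ^ 2) := by ring
            _ ≤ _ := by linarith
        · have hxT : T ≤ u := by linarith
          have h4 := hright u hxT
          obtain ⟨x, hx⟩ : ∃ x, x = u - T := ⟨_, rfl⟩
          rw [← hx] at hc3
          have hx1 : 0 < x := by linarith
          have e1 : |T - u| = x := by rw [abs_of_nonpos (by linarith), hx]; ring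
          rw [e1]
          obtain ⟨R, hR⟩ : ∃ R, R = √(2 * T * x) := ⟨_, rfl⟩
          have hR2 : R ^ 2 = 2 * T * x := by rw [hR, Real.sq_sqrt (by positivity)]
          have hR0 : 0 < R := by rw [hR]; exact Real.sqrt_pos.2 (by positivity)
          have hR1 : τ ^ 2 ≤ R := by
            rw [hR]
            apply Real.le_sqrt_of_sq_le
            have h5 : (τ ^ 2) ^ 2 = T * τ := by rw [← hτ3]; ring
            rw [h5]
            nlinarith only [mul_le_mul_of_nonneg_left hc3 hT0.le, mul_pos hT0 hx1]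
          have h5 : √(T * (1 + x)) ≤ R := by
            rw [hR]
            apply Real.sqrt_le_sqrt
            nlinarith only [mul_le_mul_of_nonneg_left (hτ1.trans hc3) hT0.le]
          have h6 : e * k u ^ 2 * R ^ 2 ≤ 225 * τ ^ 2 := by
            refine le_trans ?_ h4
            rw [hR2]
            have h7 : 2 * T * x ≤ u ^ 2 - T ^ 2 := by
              have h8 : u = T + x := by rw [hx]; ring
              rw [h8]
              nlinarith only [sq_nonneg x]
            have h8 := mul_le_mul_of_nonneg_left h7 (by positivity : 0 ≤ e * k u ^ 2)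
            linarith
          have h7 : (e * k u ^ 2 * R) * R ≤ 225 * R := by nlinarith only [h6, hR1]
          have h8 := le_of_mul_le_mul_right h7 hR0
          have h9 : e * k u ^ 2 * √(T * (1 + x)) ≤ e * k u ^ 2 * R := mul_le_mul_of_nonneg_left h5 (by positivity)
          linarith

end Pool.Agent.Q176.L2.KW
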