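import Pool.Agent.Q297.LC.Tlc
import Pool.Agent.Q277.LC.Pe
import Pool.Agent.Q295.PL.Stm2

/-!
# Project LC2, job L2-TLT: cycles are long, for circuits, `d ≥ 2`
-/

set_option autoImplicit false

namespace Pool.Agent.Q176.L2.Tlt

open Finset Equiv Matrix Q292.LC Q295.PL
open Pool.Agent.Q297.LC (exists_root pow_exp PW_split)

/-- the failure probability in BTT -/
lemma fail_bound2 {d C₁ D L K Z r : ℕ} {κ : ℝ} (hd : 1 ≤ d) (hC₁ : 1 ≤ C₁) (hD : 1 ≤ D)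
    (hL : 1 ≤ L) (hZ : 100 * d * D * Real.log L ≤ Z) (hK : K ≤ L ^ d)
    (hr : (Z + 1) * (2 * r + 1) ^ d ≤ L ^ d) (hκ0 : 0 ≤ κ)
    (hκ : ((2 * r + 1 : ℕ) : ℝ) ^ d * ((Z + 2) * κ) ≤ Real.exp (-1)) :
    C₁ * ((L : ℝ) ^ (2 * d) * Real.exp (-(Z : ℝ)) + (L : ℝ) ^ (2 * d) * (1 / 2) ^ ((Z - 1) / 2 / D)) +
      K * (L : ℝ) ^ (2 * d) * (Z + 1) * ((2 * r + 1 : ℕ) : ℝ) ^ d *
        (((2 * r + 1 : ℕ) : ℝ) ^ d * ((Z + 2) * κ)) ^ Z ≤ (5 * C₁ + 1) * (1 / (L : ℝ) ^ d) := by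
  set ℓ := Real.log L with hℓ
  have hℓ0 : 0 ≤ ℓ := Real.log_natCast_nonneg L
  have hd' : (1 : ℝ) ≤ d := by exact_mod_cast hd
  have hC' : (1 : ℝ) ≤ C₁ := by exact_mod_cast hC₁
  have hD' : (1 : ℝ) ≤ D := by exact_mod_cast hD
  have hdℓ : 0 ≤ (d : ℝ) * ℓ := by positivity
  have e2d : (L : ℝ) ^ (2 * d) = Real.exp (2 * (d * ℓ)) := by
    rw [pow_exp hL, ← hℓ]; push_cast; ring_nf
  have ed : (L : ℝ) ^ d = Real.exp (d * ℓ) := pow_exp hL d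
  have einv : 1 / (L : ℝ) ^ d = Real.exp (-(d * ℓ)) := by
    rw [ed, Real.exp_neg, one_div]
  have hZ5 : 5 * (d * ℓ) ≤ Z := by
    refine le_trans ?_ hZ
    have : 100 * (d : ℝ) * D * ℓ = 100 * D * (d * ℓ) := by ring
    rw [this]
    exact mul_le_mul_of_nonneg_right (by linarith) hdℓ
  -- first term
  have t1 : (L : ℝ) ^ (2 * d) * Real.exp (-(Z : ℝ)) ≤ 1 / (L : ℝ) ^ d := by
    rw [e2d, einv, ← Real.exp_add, Real.exp_le_exp]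
    linarith
  -- second term
  have t2 : (L : ℝ) ^ (2 * d) * (1 / 2) ^ ((Z - 1) / 2 / D) ≤ 4 * (1 / (L : ℝ) ^ d) := by
    set n := (Z - 1) / 2 / D with hn
    have hCpos : 0 < D := hD
    have n1 : (Z - 1) / 2 < D * n + D := by
      have e1 := Nat.div_add_mod ((Z - 1) / 2) D
      have e2 := Nat.mod_lt ((Z - 1) / 2) hCpos
      rw [← hn] at e1
      omega
    have n2 : Z ≤ 2 * (D * n) + 2 * D + 1 := by omega
    have n3 : (Z : ℝ) ≤ 2 * (D * n) + 2 * D + 1 := by exact_mod_cast n2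
    have n4 : (Z : ℝ) / (2 * D) - 2 ≤ n := by
      rw [sub_le_iff_le_add, div_le_iff₀ (by positivity)]
      nlinarith
    have n5 : 50 * (d * ℓ) ≤ (Z : ℝ) / (2 * D) := by
      rw [le_div_iff₀ (by positivity)]
      refine le_trans (le_of_eq ?_) hZ
      ring
    have l2 := Real.log_two_gt_d9
    have l2' := Real.log_two_lt_d9
    have e1 : ((1 : ℝ) / 2) ^ n = Real.exp (-(n * Real.log 2)) := by
      rw [one_div, inv_pow, Real.exp_neg, ← Real.log_pow, Real.exp_log (by positivity)]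
    have e4 : (4 : ℝ) = Real.exp (2 * Real.log 2) := by
      rw [show (2 : ℝ) * Real.log 2 = ((2 : ℕ) : ℝ) * Real.log 2 by norm_num, ← Real.log_pow,
        Real.exp_log (by positivity)]
      norm_num
    rw [e1, e4, e2d, einv, ← Real.exp_add, ← Real.exp_add, Real.exp_le_exp]
    have n6 : (50 * (d * ℓ) - 2) * Real.log 2 ≤ n * Real.log 2 :=
      mul_le_mul_of_nonneg_right (by linarith) (by linarith)
    nlinarith
  -- third term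
  have t3 : K * (L : ℝ) ^ (2 * d) * (Z + 1) * ((2 * r + 1 : ℕ) : ℝ) ^ d *
        (((2 * r + 1 : ℕ) : ℝ) ^ d * ((Z + 2) * κ)) ^ Z ≤ 1 / (L : ℝ) ^ d := by
    have k1 : (K : ℝ) ≤ Real.exp (d * ℓ) := by rw [← ed]; exact_mod_cast hK
    have k2 : ((Z : ℝ) + 1) * ((2 * r + 1 : ℕ) : ℝ) ^ d ≤ Real.exp (d * ℓ) := by
      rw [← ed]; exact_mod_cast hr
    have k3 : (((2 * r + 1 : ℕ) : ℝ) ^ d * ((Z + 2) * κ)) ^ Z ≤ Real.exp (-(Z : ℝ)) := by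
      have h1 := pow_le_pow_left₀ (by positivity) hκ Z
      refine h1.trans (le_of_eq ?_)
      rw [← Real.exp_nat_mul]
      congr 1
      ring
    have k4 : K * (L : ℝ) ^ (2 * d) * (Z + 1) * ((2 * r + 1 : ℕ) : ℝ) ^ d *
        (((2 * r + 1 : ℕ) : ℝ) ^ d * ((Z + 2) * κ)) ^ Z =
        K * (L : ℝ) ^ (2 * d) * ((Z + 1) * ((2 * r + 1 : ℕ) : ℝ) ^ d) *
        (((2 * r + 1 : ℕ) : ℝ) ^ d * ((Z + 2) * κ)) ^ Z := by ring
    rw [k4, e2d]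
    calc K * Real.exp (2 * (d * ℓ)) * ((Z + 1) * ((2 * r + 1 : ℕ) : ℝ) ^ d) *
        (((2 * r + 1 : ℕ) : ℝ) ^ d * ((Z + 2) * κ)) ^ Z
        ≤ Real.exp (d * ℓ) * Real.exp (2 * (d * ℓ)) * Real.exp (d * ℓ) * Real.exp (-(Z : ℝ)) := by
          gcongr
      _ = Real.exp (4 * (d * ℓ) - Z) := by
          rw [← Real.exp_add, ← Real.exp_add, ← Real.exp_add]
          congr 1
          ring
      _ ≤ 1 / (L : ℝ) ^ d := by
          rw [einv, Real.exp_le_exp]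
          linarith
  have hinv : 0 ≤ 1 / (L : ℝ) ^ d := by positivity
  nlinarith

/-- the divisor `C (1 + log₂ K)` -/
lemma div_bound {d C₁ L K : ℕ} (hd : 1 ≤ d) (hL : 1 ≤ L) (hℓ : 1 ≤ Real.log L)
    (hK1 : 1 ≤ K) (hK : K ≤ L ^ d) :
    ((C₁ * (1 + Nat.log 2 K) : ℕ) : ℝ) ≤ 3 * d * C₁ * Real.log L := by
  have hd' : (1 : ℝ) ≤ d := by exact_mod_cast hd
  have h1 : ((Nat.log 2 K : ℕ) : ℝ) ≤ Real.logb 2 K := Real.natLog_le_logb K 2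
  have hKr : (0 : ℝ) < K := by exact_mod_cast hK1
  have h2 : Real.log K ≤ d * Real.log L := by
    rw [← Real.log_pow]
    apply Real.log_le_log hKr
    exact_mod_cast hK
  have l2 := Real.log_two_gt_d9
  have h3 : Real.logb 2 K ≤ 2 * (d * Real.log L) := by
    rw [Real.logb, div_le_iff₀ (by linarith)]
    have : 0 ≤ (d : ℝ) * Real.log L := by positivity
    nlinarith
  push_cast
  have h4 : (1 : ℝ) ≤ d * Real.log L := by nlinarith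
  have hC : (0 : ℝ) ≤ C₁ := Nat.cast_nonneg _
  calc (C₁ : ℝ) * (1 + (Nat.log 2 K : ℕ)) ≤ C₁ * (d * Real.log L + 2 * (d * Real.log L)) := by
        gcongr
        exact h1.trans h3
    _ = 3 * d * C₁ * Real.log L := by ring

theorem tlt_of (hBTT : S_BTT) (hPEB : S_PEB) : S_TLT := by
  intro d hd ε hε
  obtain ⟨C₁, m₁, hC₁, hB⟩ := hBTT d hd
  set Z₀ : ℕ := 36 * 3 ^ d * C₁ with hZ₀
  set m₂ : ℕ := 2 * d * m₁ + 4 * m₁ + 8 + ⌈((m₁ : ℝ) + 1) / ε⌉₊ with hm₂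
  set C₂ : ℕ := 300 * d ^ 2 * C₁ with hC₂
  set M : ℕ := ⌈Real.exp (d * (C₂ + 1))⌉₊ with hM
  refine ⟨5 * C₁ + 2, 3 * m₂ + (Z₀ + 1) ^ m₂ + M, ?_, ?_⟩
  · have : (1 : ℝ) ≤ C₁ := by exact_mod_cast hC₁
    linarith
  intro L K _ w hmK hKL hlogK hw0 hw1 hwK
  have hLpos : 1 ≤ L := Nat.pos_of_ne_zero (NeZero.ne L)
  have hLr : (0 : ℝ) < L := by exact_mod_cast hLpos
  have hC₁' : (1 : ℝ) ≤ C₁ := by exact_mod_cast hC₁
  have hd' : (2 : ℝ) ≤ d := by exact_mod_cast hd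
  have p3d : 9 ≤ 3 ^ d := by
    calc 9 = 3 ^ 2 := by norm_num
      _ ≤ 3 ^ d := Nat.pow_le_pow_right (by norm_num) hd
  have hZ₀C : C₁ ≤ Z₀ := by
    rw [hZ₀]; exact Nat.le_mul_of_pos_left _ (by positivity)
  have hZ₀3 : 36 * 3 ^ d ≤ Z₀ := by
    rw [hZ₀]; exact Nat.le_mul_of_pos_right _ hC₁
  -- the logarithm
  set ℓ := Real.log L with hℓ
  have hKpos : 1 ≤ K := by
    have : 1 ≤ (Z₀ + 1) ^ m₂ := Nat.one_le_pow _ _ (by omega)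
    omega
  have hKr : (1 : ℝ) ≤ K := by exact_mod_cast hKpos
  have hℓC : (C₂ : ℝ) + 1 ≤ ℓ := by
    have h1 : Real.exp (d * (C₂ + 1)) ≤ (L : ℝ) ^ d := by
      have h2 : Real.exp (d * (C₂ + 1)) ≤ M := Nat.le_ceil _
      have h3 : (M : ℝ) ≤ K := by exact_mod_cast (by omega : M ≤ K)
      have h4 : (K : ℝ) ≤ (L : ℝ) ^ d := by exact_mod_cast hKL
      linarith
    rw [pow_exp hLpos, Real.exp_le_exp] at h1
    have : (0 : ℝ) < d := by linarith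
    exact le_of_mul_le_mul_left h1 this
  have hC₂r : (300 : ℝ) * d * C₁ ≤ C₂ := by
    rw [hC₂]; push_cast
    have : (d : ℝ) ≤ d ^ 2 := by nlinarith
    gcongr
  have hC₂r' : (300 : ℝ) ≤ C₂ := by
    have : (1 : ℝ) ≤ d * C₁ := by nlinarith
    nlinarith
  have hℓ1 : 1 ≤ ℓ := by linarith
  have hL64 : 64 ≤ L := by
    have h1 : ℓ + 1 ≤ Real.exp ℓ := Real.add_one_le_exp ℓ
    rw [hℓ, Real.exp_log hLr, ← hℓ] at h1
    have h2 : (64 : ℝ) ≤ L := by linarith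
    exact_mod_cast h2
  -- the number Z
  obtain ⟨Z, hZ1, hZ2⟩ := exists_root m₂ K (by omega)
  have hZZ₀ : Z₀ ≤ Z := by
    have h1 : (Z₀ + 1) ^ m₂ < (Z + 1) ^ m₂ := by omega
    have h2 := lt_of_pow_lt_pow_left₀ m₂ (Nat.zero_le _) h1
    omega
  have hZℓ : (C₂ : ℝ) * ℓ ^ 2 ≤ Z := by
    have h1 : (ℓ ^ 3) ^ m₂ < ((Z : ℝ) + 1) ^ m₂ := by
      have h2 : (ℓ ^ 3) ^ m₂ ≤ ℓ ^ (3 * m₂ + (Z₀ + 1) ^ m₂ + M) := by
        rw [← pow_mul]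
        exact pow_le_pow_right₀ hℓ1 (by omega)
      have h3 : (K : ℝ) < ((Z : ℝ) + 1) ^ m₂ := by exact_mod_cast hZ2
      linarith
    have h4 : ℓ ^ 3 < (Z : ℝ) + 1 := lt_of_pow_lt_pow_left₀ m₂ (by positivity) h1
    have h5 : 1 ≤ ℓ ^ 2 := one_le_pow₀ hℓ1
    have h6 : (C₂ + 1) * ℓ ^ 2 ≤ ℓ * ℓ ^ 2 := by gcongr
    have h7 : ℓ * ℓ ^ 2 = ℓ ^ 3 := by ring
    nlinarith
  have hZpos : 1 ≤ Z := by omega
  have hZr : (1 : ℝ) ≤ Z := by exact_mod_cast hZpos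
  -- powers of Z
  have hroot : Z ^ (2 * m₁) ≤ L := by
    have h1 : (Z ^ (2 * m₁)) ^ d ≤ L ^ d := by
      rw [← pow_mul]
      refine le_trans ?_ (hZ1.trans hKL)
      refine Nat.pow_le_pow_right hZpos ?_
      rw [hm₂]
      have : 2 * m₁ * d = 2 * d * m₁ := by ring
      omega
    exact le_of_pow_le_pow_left₀ (by omega) (Nat.zero_le _) h1
  have hZL : 8 * Z ^ m₁ ≤ L := by
    have h1 : (Z ^ m₁) ^ 2 ≤ L := by rw [← pow_mul, Nat.mul_comm]; exact hroot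
    by_contra hcon
    push Not at hcon
    have h2 : L * L < (8 * Z ^ m₁) * (8 * Z ^ m₁) := Nat.mul_lt_mul'' hcon hcon
    nlinarith
  have hZK : Z ^ m₁ ≤ K := (Nat.pow_le_pow_right hZpos (by omega)).trans hZ1
  set r := Z ^ m₁ with hr
  have hr1 : 1 ≤ r := Nat.one_le_pow _ _ hZpos
  -- kappa
  set κ : ℝ := (Z : ℝ) ^ m₁ * ((1 + Real.log (1 / (1 - w))) / K + 1 / ((L : ℝ) ^ d * (1 - w)))
    with hκ
  have h1w : 0 < 1 - w := by linarith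
  have hLd : (0 : ℝ) < (L : ℝ) ^ d := by positivity
  have hlogw0 : 0 ≤ Real.log (1 / (1 - w)) := by
    apply Real.log_nonneg
    rw [le_div_iff₀ h1w]
    linarith
  have hlogw : 1 + Real.log (1 / (1 - w)) ≤ Z := by
    have h1 : 1 / (1 - w) ≤ 2 * (L : ℝ) ^ d := by
      have h2 : 1 / ((L : ℝ) ^ d * (1 - w)) ≤ 2 := by
        refine hwK.trans ?_
        rw [div_le_iff₀ (by linarith)]
        linarith
      have h3 : 1 / (1 - w) = (L : ℝ) ^ d * (1 / ((L : ℝ) ^ d * (1 - w))) := by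
        field_simp
      rw [h3]
      nlinarith
    have h2 : Real.log (1 / (1 - w)) ≤ Real.log 2 + d * ℓ := by
      rw [hℓ, ← Real.log_pow, ← Real.log_mul (by norm_num) hLd.ne']
      exact Real.log_le_log (by positivity) h1
    have l2' := Real.log_two_lt_d9
    have h3 : (300 : ℝ) * d * ℓ ≤ Z := by
      refine le_trans ?_ hZℓ
      have e1 : (300 : ℝ) * d ≤ C₂ := by
        refine le_trans ?_ hC₂r
        have : (0 : ℝ) ≤ 300 * d := by positivity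
        nlinarith
      have e2 : ℓ ≤ ℓ ^ 2 := by nlinarith
      calc (300 : ℝ) * d * ℓ ≤ C₂ * ℓ := by gcongr
        _ ≤ C₂ * ℓ ^ 2 := by gcongr
    have h4 : (1 : ℝ) ≤ d * ℓ := by nlinarith
    linarith
  set S : ℝ := 1 / K + 1 / ((L : ℝ) ^ d * (1 - w)) with hS
  have hS0 : 0 ≤ S := by positivity
  have hκ0 : 0 ≤ κ := by positivity
  have hκS : κ ≤ (Z : ℝ) ^ (m₁ + 1) * S := by
    rw [hκ, hS, pow_succ, mul_assoc]
    refine mul_le_mul_of_nonneg_left ?_ (by positivity)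
    have h1 : (1 + Real.log (1 / (1 - w))) / K ≤ Z * (1 / K) := by
      rw [mul_one_div]
      gcongr
    have h2 : 0 ≤ 1 / ((L : ℝ) ^ d * (1 - w)) := by positivity
    have h3 : 1 / ((L : ℝ) ^ d * (1 - w)) ≤ Z * (1 / ((L : ℝ) ^ d * (1 - w))) :=
      le_mul_of_one_le_left h2 hZr
    rw [mul_add]
    exact add_le_add h1 h3
  have hSK : S * K ≤ 3 := by
    have h1 : S ≤ 1 / K + 2 / K := by rw [hS]; linarith
    have h2 : (1 / (K : ℝ) + 2 / K) * K = 3 := by field_simp; norm_num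
    calc S * K ≤ (1 / K + 2 / K) * K := mul_le_mul_of_nonneg_right h1 (by linarith)
      _ = 3 := h2
  have hκK : κ * K ≤ 3 * (Z : ℝ) ^ (m₁ + 1) := by
    calc κ * K ≤ (Z : ℝ) ^ (m₁ + 1) * S * K := mul_le_mul_of_nonneg_right hκS (by linarith)
      _ = (Z : ℝ) ^ (m₁ + 1) * (S * K) := by ring
      _ ≤ (Z : ℝ) ^ (m₁ + 1) * 3 := by gcongr
      _ = _ := by ring
  have hZ4 : (Z : ℝ) ^ (m₁ + 1) * ((Z : ℝ) ^ (d * m₁) * Z ^ 2) ≤ K := by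
    have : Z ^ (m₁ + 1) * (Z ^ (d * m₁) * Z ^ 2) ≤ K := by
      rw [← pow_add, ← pow_add]
      refine (Nat.pow_le_pow_right hZpos ?_).trans hZ1
      rw [hm₂]
      nlinarith
    exact_mod_cast this
  have hκ1 : κ * ((Z : ℝ) ^ (d * m₁) * Z ^ 2) ≤ 3 := by
    have hP : 0 < (Z : ℝ) ^ (m₁ + 1) := by positivity
    have h1 : (Z : ℝ) ^ (m₁ + 1) * (κ * ((Z : ℝ) ^ (d * m₁) * Z ^ 2)) ≤
        (Z : ℝ) ^ (m₁ + 1) * 3 := by
      calc (Z : ℝ) ^ (m₁ + 1) * (κ * ((Z : ℝ) ^ (d * m₁) * Z ^ 2))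
          = κ * ((Z : ℝ) ^ (m₁ + 1) * ((Z : ℝ) ^ (d * m₁) * Z ^ 2)) := by ring
        _ ≤ κ * K := by gcongr
        _ ≤ _ := by linarith
    exact le_of_mul_le_mul_left h1 hP
  have hZbig : 36 * (3 : ℝ) ^ d ≤ Z := by
    have : ((36 * 3 ^ d : ℕ) : ℝ) ≤ Z := by exact_mod_cast hZ₀3.trans hZZ₀
    push_cast at this
    exact this
  have p3d' : (9 : ℝ) ≤ 3 ^ d := by exact_mod_cast p3d
  have hr2 : ((2 * r + 1 : ℕ) : ℝ) ^ d ≤ 3 ^ d * (Z : ℝ) ^ (d * m₁) := by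
    have h1 : ((2 * r + 1 : ℕ) : ℝ) ≤ 3 * (Z : ℝ) ^ m₁ := by
      have h2 : 2 * r + 1 ≤ 3 * Z ^ m₁ := by rw [← hr]; omega
      exact_mod_cast h2
    calc ((2 * r + 1 : ℕ) : ℝ) ^ d ≤ (3 * (Z : ℝ) ^ m₁) ^ d := pow_le_pow_left₀ (by positivity) h1 d
      _ = 3 ^ d * (Z : ℝ) ^ (d * m₁) := by rw [mul_pow, ← pow_mul, Nat.mul_comm]
  have hkey : ((2 * r + 1 : ℕ) : ℝ) ^ d * ((Z + 2) * κ) ≤ Real.exp (-1) := by
    have h1 : ((2 * r + 1 : ℕ) : ℝ) ^ d * ((Z + 2) * κ) ≤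
        3 ^ d * (Z : ℝ) ^ (d * m₁) * ((3 * Z) * κ) := by
      refine mul_le_mul hr2 (mul_le_mul_of_nonneg_right (by linarith) hκ0) (by positivity)
        (by positivity)
    have h2 : 3 ^ d * (Z : ℝ) ^ (d * m₁) * ((3 * Z) * κ) * Z ≤ 9 * 3 ^ d := by
      have e1 : 3 ^ d * (Z : ℝ) ^ (d * m₁) * ((3 * Z) * κ) * Z =
          3 * 3 ^ d * (κ * ((Z : ℝ) ^ (d * m₁) * Z ^ 2)) := by ring
      rw [e1]
      have := mul_le_mul_of_nonneg_left hκ1 (by positivity : (0 : ℝ) ≤ 3 * 3 ^ d)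
      linarith
    have h3 : Real.exp (-1) ≥ 1 / 3 := by
      rw [Real.exp_neg, ge_iff_le, one_div]
      refine inv_anti₀ (Real.exp_pos 1) ?_
      have := Real.exp_one_lt_d9
      linarith
    have h6 : 3 ^ d * (Z : ℝ) ^ (d * m₁) * ((3 * Z) * κ) ≤ 1 / 4 := by
      by_contra hcon
      push Not at hcon
      have h7 : 1 / 4 * (Z : ℝ) < 3 ^ d * (Z : ℝ) ^ (d * m₁) * ((3 * Z) * κ) * Z :=
        mul_lt_mul_of_pos_right hcon (by linarith)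
      linarith
    linarith
  have hκZ : ((Z : ℝ) + 2) * κ ≤ 1 := by
    have h1 : 1 ≤ ((2 * r + 1 : ℕ) : ℝ) ^ d := one_le_pow₀ (by
      have : 1 ≤ 2 * r + 1 := by omega
      exact_mod_cast this)
    have h2 : Real.exp (-1) ≤ 1 := Real.exp_le_one_iff.2 (by norm_num)
    have h3 : 0 ≤ ((Z : ℝ) + 2) * κ := by positivity
    nlinarith
  have hrL : (Z + 1) * (2 * r + 1) ^ d ≤ L ^ d := by
    have h1 : 2 * r + 1 ≤ 3 * Z ^ m₁ := by rw [← hr]; omega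
    have h2 : (2 * r + 1) ^ d ≤ 3 ^ d * Z ^ (m₁ * d) := by
      rw [pow_mul, ← mul_pow]
      exact Nat.pow_le_pow_left h1 d
    have h3 : 2 * 3 ^ d ≤ Z := by omega
    calc (Z + 1) * (2 * r + 1) ^ d ≤ (2 * Z) * (3 ^ d * Z ^ (m₁ * d)) :=
          Nat.mul_le_mul (by omega) h2
      _ = (2 * 3 ^ d) * (Z * Z ^ (m₁ * d)) := by ring
      _ ≤ Z * (Z * Z ^ (m₁ * d)) := Nat.mul_le_mul_right _ h3
      _ = Z ^ (m₁ * d + 2) := by ring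
      _ ≤ Z ^ m₂ := by
          refine Nat.pow_le_pow_right hZpos ?_
          rw [hm₂]
          nlinarith
      _ ≤ K := hZ1
      _ ≤ L ^ d := hKL
  obtain ⟨q₀, hq₀⟩ := hB Z (hZ₀C.trans hZZ₀) L K Z r Z ((Z - 1) / 2) le_rfl le_rfl (by omega)
    le_rfl hZL hZK hKL
  refine ⟨max q₀ 2, fun q hq σ hσ δ h1 h2 x => ?_⟩
  have hq' : (2 : ℝ) ≤ q := by exact_mod_cast (le_max_right _ _).trans hq
  have hδ0 : 0 ≤ δ := by
    by_contra hcon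
    push Not at hcon
    nlinarith
  have hδ1 : δ ≤ 1 := by nlinarith
  obtain ⟨b1, b2⟩ := hq₀ q ((le_max_left _ _).trans hq) σ hσ δ h1 h2 w hw0 hw1 κ hκ hκZ
  have b3 := b2 x
  have hD : (100 : ℝ) * d * ((C₁ * (1 + Nat.log 2 K) : ℕ) : ℝ) * ℓ ≤ Z := by
    refine le_trans ?_ hZℓ
    have h1 := div_bound (C₁ := C₁) (by omega : 1 ≤ d) hLpos hℓ1 hKpos hKL
    calc (100 : ℝ) * d * ((C₁ * (1 + Nat.log 2 K) : ℕ) : ℝ) * ℓ
        ≤ 100 * d * (3 * d * C₁ * ℓ) * ℓ := by gcongr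
      _ = C₂ * ℓ ^ 2 := by rw [hC₂]; push_cast; ring
  have b4 := fail_bound2 (d := d) (C₁ := C₁) (D := C₁ * (1 + Nat.log 2 K)) (L := L) (K := K)
    (Z := Z) (r := r) (κ := κ) (by omega) hC₁ (Nat.mul_pos hC₁ (by omega)) hLpos hD hKL hrL hκ0 hkey
  have b5 := (hPEB _ (ed ∘ σ) (K * (q * ms d L)) δ w hδ0 hδ1 hw0 hw1).2.2.2.2.2 x
  have b6 := PW_split hPEB (ed ∘ σ) (K * (q * ms d L)) δ w hδ0 hδ1 hw0 hw1 (fun _ A => x ∈ A)
    (fun ω A => Gd σ q K Z r Z (2 * ((Z - 1) / 2)) ω A)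
  rw [b5] at b6
  have b7 : 1 / (L : ℝ) ^ d ≤ 1 / ((L : ℝ) ^ d * (1 - w)) := by
    refine one_div_le_one_div_of_le (by positivity) ?_
    nlinarith
  have b8 : (Z : ℝ) ^ (m₁ + 1) ≤ (K : ℝ) ^ ε := by
    have e1 : ((Z : ℝ) ^ m₂) ^ ε ≤ (K : ℝ) ^ ε := by
      refine Real.rpow_le_rpow (by positivity) ?_ hε.le
      exact_mod_cast hZ1
    refine le_trans ?_ e1
    rw [← Real.rpow_natCast, ← Real.rpow_natCast, ← Real.rpow_mul (by positivity)]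
    refine Real.rpow_le_rpow_of_exponent_le hZr ?_
    have e2 : ((m₁ : ℝ) + 1) / ε ≤ m₂ := by
      have h3 : ((m₁ : ℝ) + 1) / ε ≤ ⌈((m₁ : ℝ) + 1) / ε⌉₊ := Nat.le_ceil _
      have h4 : ⌈((m₁ : ℝ) + 1) / ε⌉₊ ≤ m₂ := by omega
      exact h3.trans (by exact_mod_cast h4)
    rw [div_le_iff₀ hε] at e2
    push_cast
    exact e2
  have b9 : 0 ≤ 1 / ((L : ℝ) ^ d * (1 - w)) := by positivity
  have b10 : (1 : ℝ) ≤ (K : ℝ) ^ ε := Real.one_le_rpow hKr hε.le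
  have b11 : 1 / (L : ℝ) ^ d ≤ (K : ℝ) ^ ε * S := by
    have : 1 / (L : ℝ) ^ d ≤ S := by
      have : 0 ≤ 1 / (K : ℝ) := by positivity
      rw [hS]
      linarith
    calc 1 / (L : ℝ) ^ d ≤ S := this
      _ ≤ (K : ℝ) ^ ε * S := le_mul_of_one_le_left hS0 b10
  have b12 : κ ≤ (K : ℝ) ^ ε * S := hκS.trans (mul_le_mul_of_nonneg_right b8 hS0)
  calc EE (K * (q * ms d L)) δ (fun ω => w ^ (cyc (gp (ed ∘ σ) ω (K * (q * ms d L))) x).card)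
      ≤ κ + (5 * C₁ + 1) * (1 / (L : ℝ) ^ d) := by
        refine b6.trans (add_le_add b3 (b1.trans b4))
    _ ≤ (K : ℝ) ^ ε * S + (5 * C₁ + 1) * ((K : ℝ) ^ ε * S) := by gcongr
    _ = (5 * C₁ + 2) * (K : ℝ) ^ ε * S := by ring

theorem tlt (hBTT : S_BTT) : S_TLT := tlt_of hBTT Pool.Agent.Q277.LC.peb

end Pool.Agent.Q176.L2.Tlt
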