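import Pool.Agent.Q297.LC.Lim
import Pool.Agent.Q295.PL.Stm2

/-!
# Project LC2, job L2-TST: cycles are long, for stirring, `d ≥ 2`
-/

set_option autoImplicit false

namespace Pool.Agent.Q176.L2.Tst

open Finset Equiv Matrix Q292.LC Q295.PL
open Pool.Agent.Y998.ST (stirExp nnRate qq stirLaw totalRate)
open Pool.Agent.Q297.LC (stir_le_of_circuit)

/-- Cycles are long, for stirring, `d ≥ 2`. -/
theorem tst (hT : S_TLT) : S_TST := by
  intro d hd ε hε
  obtain ⟨C₁, m₁, hC₁, hT⟩ := hT d hd ε hε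
  refine ⟨4 * C₁, 2 ^ (m₁ + 1) + m₁ + 1 + (2 ^ d + 1), by linarith, ?_⟩
  intro L N _ t hmt hlog hN hNt x
  have pw1 : 0 < 2 ^ (m₁ + 1) := by positivity
  have pw2 : 0 < 2 ^ d := by positivity
  set m := 2 ^ (m₁ + 1) + m₁ + 1 + (2 ^ d + 1) with hm
  have hLpos : 0 < L := Nat.pos_of_ne_zero (NeZero.ne L)
  have hN' : (1 : ℝ) ≤ N := by exact_mod_cast hN
  have hLd : (0 : ℝ) < (L : ℝ) ^ d := by positivity
  have hm1 : (1 : ℝ) ≤ m := by exact_mod_cast (by omega : 1 ≤ m)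
  have ht1 : 1 ≤ t := hm1.trans hmt
  have htL : t ≤ (L : ℝ) ^ d := by nlinarith
  -- the number of units
  set K := ⌊t⌋₊ with hK
  have hKt : (K : ℝ) ≤ t := Nat.floor_le (by linarith)
  have hK1 : 1 ≤ K := Nat.le_floor (by rw [Nat.cast_one]; exact ht1)
  have hK1' : (1 : ℝ) ≤ K := by exact_mod_cast hK1
  have htK : t < K + 1 := Nat.lt_floor_add_one t
  have ht2K : t ≤ 2 * K := by linarith
  have hL3 : 3 ≤ L := by
    by_contra hcon
    have h1 : L ≤ 2 := by omega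
    have h2 : L ^ d ≤ 2 ^ d := Nat.pow_le_pow_left h1 d
    have h3 : (m : ℝ) ≤ (L : ℝ) ^ d := hmt.trans htL
    have h4 : m ≤ L ^ d := by exact_mod_cast h3
    have h5 : 2 ^ d < m := by omega
    omega
  have hKL : K ≤ L ^ d := by
    have : (K : ℝ) ≤ ((L ^ d : ℕ) : ℝ) := by push_cast; linarith
    exact_mod_cast this
  have hmK : m₁ ≤ K := by
    have h1 : (m₁ : ℝ) + 1 ≤ t := by
      have : m₁ + 1 ≤ m := by omega
      have h2 : ((m₁ + 1 : ℕ) : ℝ) ≤ m := by exact_mod_cast this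
      push_cast at h2
      linarith
    have h3 : (m₁ : ℝ) < (K : ℝ) + 1 := by linarith
    have h4 : m₁ < K + 1 := by exact_mod_cast h3
    omega
  have hlogK : (Real.log L) ^ m₁ ≤ K := by
    have hℓ : 0 ≤ Real.log L := Real.log_natCast_nonneg L
    have hK2 : t / 2 ≤ K := by linarith
    refine le_trans ?_ hK2
    rcases le_total (Real.log L) 2 with h | h
    · have h1 : (Real.log L) ^ m₁ ≤ 2 ^ m₁ := pow_le_pow_left₀ hℓ h _
      have h2 : ((2 ^ (m₁ + 1) : ℕ) : ℝ) ≤ m := by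
        have : 2 ^ (m₁ + 1) ≤ m := by omega
        exact_mod_cast this
      push_cast at h2
      rw [pow_succ] at h2
      linarith
    · have h1 : (Real.log L) ^ (m₁ + 1) ≤ (Real.log L) ^ m :=
        pow_le_pow_right₀ (by linarith) (by omega)
      have h2 : (Real.log L) ^ m₁ * 2 ≤ (Real.log L) ^ (m₁ + 1) := by
        rw [pow_succ]
        exact mul_le_mul_of_nonneg_left h (by positivity)
      linarith
  -- the marking parameter
  have hNpos : (0 : ℝ) < N := by linarith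
  set w : ℝ := 1 - 1 / (2 * N) with hw
  have hw2 : 1 / (2 * (N : ℝ)) ≤ 1 / 2 := by
    rw [div_le_div_iff₀ (by positivity) (by norm_num)]; linarith
  have hw0 : 0 ≤ w := by rw [hw]; linarith
  have hw1 : w < 1 := by
    rw [hw]
    have : 0 < 1 / (2 * (N : ℝ)) := by positivity
    linarith
  have hwd : 1 / ((L : ℝ) ^ d * (1 - w)) = 2 * N / (L : ℝ) ^ d := by
    rw [hw]; field_simp; ring
  have hwK : 1 / ((L : ℝ) ^ d * (1 - w)) ≤ 2 / K := by
    rw [hwd, div_le_div_iff₀ hLd (by linarith)]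
    nlinarith
  obtain ⟨q₀, hq₀⟩ := hT L K w (by exact_mod_cast hmK) hKL hlogK hw0 hw1 hwK
  have hF : ∀ g : Perm (Fin d → ZMod L), |w ^ (cyc g x).card| ≤ 1 := by
    intro g
    rw [abs_of_nonneg (by positivity)]
    exact pow_le_one₀ hw0 hw1.le
  have h1 : stirExp (nnRate d L) t (fun g => w ^ (cyc g x).card) ≤
      C₁ * (K : ℝ) ^ ε * (1 / K + 1 / ((L : ℝ) ^ d * (1 - w))) := by
    refine stir_le_of_circuit (by omega) hL3 hK1 hKt ht2K hF ⟨q₀, fun q hq σ hσ δ h1 h2 => ?_⟩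
    exact hq₀ q hq σ hσ δ h1 h2 x
  -- Bernoulli
  have h2 : ∀ g : Perm (Fin d → ZMod L), (if (cyc g x).card ≤ N then (1 : ℝ) else 0) ≤
      2 * w ^ (cyc g x).card := by
    intro g
    split_ifs with h
    · have h3 : w ^ N ≤ w ^ (cyc g x).card := pow_le_pow_of_le_one hw0 hw1.le h
      have h4 : 1 + (N : ℝ) * (-(1 / (2 * N))) ≤ (1 + -(1 / (2 * (N : ℝ)))) ^ N :=
        one_add_mul_le_pow (by linarith) N
      have h5 : 1 + (N : ℝ) * (-(1 / (2 * N))) = 1 / 2 := by field_simp; ring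
      have h6 : (1 + -(1 / (2 * (N : ℝ)))) = w := by rw [hw]; ring
      rw [h5, h6] at h4
      linarith
    · positivity
  have h3 := Pool.Agent.Y998.ST.exp_mono (J := nnRate d L) Pool.Agent.Y998.ST.nn_nonneg
    (t := t) (by linarith) h2
  rw [Pool.Agent.Q297.LC.stir_smul] at h3
  refine h3.trans ?_
  have h4 : (K : ℝ) ^ ε ≤ t ^ ε := Real.rpow_le_rpow (by linarith) hKt hε.le
  have h5 : 1 / (K : ℝ) ≤ 2 / t := by
    rw [div_le_div_iff₀ (by linarith) (by linarith)]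
    linarith
  have h6 : 0 ≤ (N : ℝ) / (L : ℝ) ^ d := by positivity
  have h7 : 0 ≤ t ^ ε := Real.rpow_nonneg (by linarith) _
  have h8 : 0 ≤ (K : ℝ) ^ ε := Real.rpow_nonneg (by linarith) _
  rw [hwd] at h1
  have h9 : 1 / (K : ℝ) + 2 * N / (L : ℝ) ^ d ≤ 2 * (1 / t + N / (L : ℝ) ^ d) := by
    have e1 : 2 * (1 / t + N / (L : ℝ) ^ d) = 2 / t + 2 * N / (L : ℝ) ^ d := by ring
    rw [e1]
    linarith
  have h10 : 0 ≤ 1 / t + N / (L : ℝ) ^ d := by positivity
  calc 2 * stirExp (nnRate d L) t (fun g => w ^ (cyc g x).card)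
      ≤ 2 * (C₁ * (K : ℝ) ^ ε * (1 / K + 2 * N / (L : ℝ) ^ d)) := by gcongr
    _ ≤ 2 * (C₁ * t ^ ε * (2 * (1 / t + N / (L : ℝ) ^ d))) := by gcongr
    _ = 4 * C₁ * t ^ ε * (1 / t + N / (L : ℝ) ^ d) := by ring

end Pool.Agent.Q176.L2.Tst
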